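import Mathlib

set_option autoImplicit false
set_option linter.unusedSectionVars false

/-!
The invariant probability measure of the orthogonal group, radial integration and the polar
coordinate formula.
-/

open MeasureTheory Set Filter Topology Metric
open scoped ENNReal RealInnerProductSpace

namespace Pool.Agent.K4H28.HP

section UG

variable (V : Type*) [NormedAddCommGroup V] [InnerProductSpace ℝ V] [FiniteDimensional ℝ V]

/-- the orthogonal group of a Euclidean space -/
abbrev OG : Type _ := unitary (V →L[ℝ] V)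

instance compactSpace_OG : CompactSpace (OG V) := by
  have : ProperSpace (V →L[ℝ] V) := FiniteDimensional.proper_real _
  have h : IsCompact ((unitary (V →L[ℝ] V) : Submonoid (V →L[ℝ] V)) : Set (V →L[ℝ] V)) := by
    refine Metric.isCompact_of_isClosed_isBounded isClosed_unitary ?_
    refine (Metric.isBounded_closedBall (x := (0 : V →L[ℝ] V)) (r := 1)).subset ?_
    intro u hu
    rw [mem_closedBall_zero_iff]
    refine ContinuousLinearMap.opNorm_le_bound _ zero_le_one fun x => ?_
    rw [one_mul]
    exact (ContinuousLinearMap.norm_map_of_mem_unitary hu x).le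
  exact isCompact_iff_compactSpace.mp h

instance secondCountable_OG : SecondCountableTopology (OG V) := by
  have : ProperSpace (V →L[ℝ] V) := FiniteDimensional.proper_real _
  have : SecondCountableTopology (V →L[ℝ] V) := inferInstance
  infer_instance

instance borel_OG : BorelSpace (OG V) := inferInstance

/-- the rotation invariant probability measure on the orthogonal group -/
noncomputable def rot : Measure (OG V) :=
  Measure.haarMeasure (⊤ : TopologicalSpace.PositiveCompacts (OG V))

instance rot_prob : IsProbabilityMeasure (rot V) := by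
  refine ⟨?_⟩
  have := Measure.haarMeasure_self (K₀ := (⊤ : TopologicalSpace.PositiveCompacts (OG V)))
  simpa [rot] using this

instance rot_left : (rot V).IsMulLeftInvariant := by
  unfold rot; infer_instance

theorem rot_inv : (rot V).inv = rot V := by
  have hνr : ((rot V).inv).IsMulRightInvariant := inferInstance
  have hνp : IsProbabilityMeasure (rot V).inv := by
    refine ⟨?_⟩
    rw [Measure.inv_apply]
    simp
  ext s hs
  have hm : Measurable (fun p : OG V × OG V => s.indicator (1 : OG V → ENNReal) (p.1 * p.2)) :=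
    (measurable_one.indicator hs).comp measurable_mul
  have e1 : ∫⁻ x, ∫⁻ y, s.indicator (1 : OG V → ENNReal) (x * y) ∂(rot V) ∂(rot V).inv =
      rot V s := by
    have : ∀ x, ∫⁻ y, s.indicator (1 : OG V → ENNReal) (x * y) ∂(rot V) = rot V s := by
      intro x
      rw [lintegral_mul_left_eq_self (fun z => s.indicator (1 : OG V → ENNReal) z) x,
        lintegral_indicator_one hs]
    simp only [this]
    rw [lintegral_const, measure_univ, mul_one]
  have e2 : ∫⁻ y, ∫⁻ x, s.indicator (1 : OG V → ENNReal) (x * y) ∂(rot V).inv ∂(rot V) =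
      (rot V).inv s := by
    have : ∀ y, ∫⁻ x, s.indicator (1 : OG V → ENNReal) (x * y) ∂(rot V).inv = (rot V).inv s := by
      intro y
      rw [lintegral_mul_right_eq_self (fun z => s.indicator (1 : OG V → ENNReal) z) y,
        lintegral_indicator_one hs]
    simp only [this]
    rw [lintegral_const, measure_univ, mul_one]
  rw [← e1, ← e2]
  exact (lintegral_lintegral_swap hm.aemeasurable).symm

instance rot_right : (rot V).IsMulRightInvariant := by
  rw [← rot_inv]
  infer_instance

end UG

variable {V : Type*} [NormedAddCommGroup V] [InnerProductSpace ℝ V] [FiniteDimensional ℝ V]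

/-- action of the orthogonal group -/
def ap (g : OG V) (x : V) : V := (g : V →L[ℝ] V) x

theorem ap_continuous : Continuous fun z : OG V × V => ap z.1 z.2 :=
  (continuous_subtype_val.comp continuous_fst).clm_apply continuous_snd

theorem ap_mul (g h : OG V) (x : V) : ap (g * h) x = ap g (ap h x) := rfl

theorem ap_one (x : V) : ap (1 : OG V) x = x := rfl

theorem ap_norm (g : OG V) (x : V) : ‖ap g x‖ = ‖x‖ := Unitary.norm_map _ _

theorem ap_inner (g : OG V) (x y : V) : ⟪ap g x, ap g y⟫ = ⟪x, y⟫ := Unitary.inner_map_map _ _ _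

theorem ap_add (g : OG V) (x y : V) : ap g (x + y) = ap g x + ap g y := map_add _ _ _

theorem ap_smul (g : OG V) (r : ℝ) (x : V) : ap g (r • x) = r • ap g x := map_smul _ _ _

theorem ap_inv_ap (g : OG V) (x : V) : ap g⁻¹ (ap g x) = x := by
  rw [← ap_mul, inv_mul_cancel, ap_one]

theorem ap_ap_inv (g : OG V) (x : V) : ap g (ap g⁻¹ x) = x := by
  rw [← ap_mul, mul_inv_cancel, ap_one]

theorem exists_onb1 {n : ℕ} (hn : Module.finrank ℝ V = n + 1) (a : V) (ha : ‖a‖ = 1) :
    ∃ b : OrthonormalBasis (Fin (n + 1)) ℝ V, b 0 = a := by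
  have hv : Orthonormal ℝ (({0} : Set (Fin (n + 1))).domRestrict (fun _ => a)) := by
    rw [orthonormal_iff_ite]
    rintro ⟨i, hi⟩ ⟨j, hj⟩
    simp only [Set.mem_singleton_iff] at hi hj
    subst hi; subst hj
    simp [Set.domRestrict, ha]
  obtain ⟨b, hb⟩ := hv.exists_orthonormalBasis_extension_of_card_eq (by simp [hn])
  exact ⟨b, by simpa using hb 0 (by simp)⟩

/-- transitivity on the unit sphere -/
theorem exists_ap_eq {a b : V} (ha : ‖a‖ = 1) (hb : ‖b‖ = 1) : ∃ g : OG V, ap g a = b := by
  have ha0 : a ≠ 0 := by rintro rfl; rw [norm_zero] at ha; exact zero_ne_one ha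
  have : Nontrivial V := ⟨a, 0, ha0⟩
  obtain ⟨n, hn⟩ : ∃ n, Module.finrank ℝ V = n + 1 :=
    ⟨Module.finrank ℝ V - 1, (Nat.succ_pred_eq_of_pos Module.finrank_pos).symm⟩
  obtain ⟨B, hB⟩ := exists_onb1 hn a ha
  obtain ⟨C, hC⟩ := exists_onb1 hn b hb
  refine ⟨Unitary.linearIsometryEquiv.symm (B.equiv C (Equiv.refl _)), ?_⟩
  unfold ap
  rw [Unitary.coe_symm_linearIsometryEquiv_apply]
  rw [← hB]
  simp [hC]

variable [MeasurableSpace V] [BorelSpace V]

theorem ap_mp (g : OG V) : MeasurePreserving (ap g) :=
  LinearIsometryEquiv.measurePreserving (Unitary.linearIsometryEquiv g)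

theorem measurable_ap (g : OG V) : Measurable (ap g) := (ap_mp g).measurable

theorem measurable_ap' : Measurable fun z : OG V × V => ap z.1 z.2 := ap_continuous.measurable

/-- the rotation average of a function at a point depends only on the norm -/
theorem lintegral_rot_ap {e : V} (he : ‖e‖ = 1) {F : V → ℝ≥0∞} (x : V) :
    ∫⁻ g, F (ap g x) ∂(rot V) = ∫⁻ g, F (ap g (‖x‖ • e)) ∂(rot V) := by
  by_cases hx : x = 0
  · subst hx; simp
  have hx' : ‖x‖ ≠ 0 := norm_ne_zero_iff.2 hx
  obtain ⟨k, hk⟩ := exists_ap_eq he (b := ‖x‖⁻¹ • x) (by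
    rw [norm_smul, norm_inv, norm_norm, inv_mul_cancel₀ hx'])
  have hk' : x = ap k (‖x‖ • e) := by
    rw [ap_smul, hk, smul_smul, mul_inv_cancel₀ hx', one_smul]
  conv_lhs => rw [hk']
  have := lintegral_mul_right_eq_self (μ := rot V) (fun g => F (ap g (‖x‖ • e))) k
  rw [← this]
  rfl

/-- radial integration -/
theorem lintegral_radial [Nontrivial V] {ψ : ℝ → ℝ≥0∞} (hψ : Measurable ψ) :
    ∫⁻ x : V, ψ ‖x‖ = (volume : Measure V).toSphere univ *
      ∫⁻ r in Ioi (0 : ℝ), ENNReal.ofReal (r ^ (Module.finrank ℝ V - 1)) * ψ r := by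
  calc ∫⁻ x : V, ψ ‖x‖ = ∫⁻ x : ({(0)}ᶜ : Set V), ψ ‖x.1‖ ∂((volume : Measure V).comap (↑)) := by
        rw [lintegral_subtype_comap (measurableSet_singleton _).compl fun x => ψ ‖x‖,
          restrict_compl_singleton]
    _ = ∫⁻ z, ψ z.2 ∂((volume : Measure V).toSphere.prod
          (Measure.volumeIoiPow (Module.finrank ℝ V - 1))) := by
        rw [← (Measure.measurePreserving_homeomorphUnitSphereProd
          (volume : Measure V)).lintegral_comp_emb (Homeomorph.measurableEmbedding _)]
        simp
    _ = (volume : Measure V).toSphere univ *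
          ∫⁻ r : Ioi (0 : ℝ), ψ r ∂(Measure.volumeIoiPow (Module.finrank ℝ V - 1)) := by
        have hm : Measurable fun z : sphere (0 : V) 1 × Ioi (0 : ℝ) => ψ z.2 :=
          hψ.comp (measurable_subtype_coe.comp measurable_snd)
        rw [lintegral_prod _ hm.aemeasurable]
        show ∫⁻ _x : sphere (0 : V) 1, (∫⁻ y : Ioi (0 : ℝ), ψ y
          ∂(Measure.volumeIoiPow (Module.finrank ℝ V - 1))) ∂(volume : Measure V).toSphere = _
        rw [lintegral_const, mul_comm]
    _ = _ := by
        congr 1
        unfold Measure.volumeIoiPow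
        rw [lintegral_withDensity_eq_lintegral_mul]
        · rw [← lintegral_subtype_comap measurableSet_Ioi
            (fun r => ENNReal.ofReal (r ^ (Module.finrank ℝ V - 1)) * ψ r)]
          rfl
        · exact (measurable_subtype_coe.pow_const _).ennreal_ofReal
        · exact hψ.comp measurable_subtype_coe

/-- the Riesz kernel `|x|^{1-n}` -/
noncomputable def rz (x : V) : ℝ≥0∞ := (ENNReal.ofReal (‖x‖ ^ (Module.finrank ℝ V - 1)))⁻¹

theorem measurable_rz : Measurable (rz : V → ℝ≥0∞) := by
  unfold rz
  exact ((measurable_norm.pow_const _).ennreal_ofReal).inv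

/-- the polar coordinate formula -/
theorem polar_formula {e : V} (he : ‖e‖ = 1) {F : V → ℝ≥0∞} (hF : Measurable F) :
    (volume : Measure V).toSphere univ * ∫⁻ g, (∫⁻ r : ℝ, F (r • ap g e)) ∂(rot V) =
      2 * ∫⁻ x, F x * rz x := by
  have he0 : e ≠ 0 := by rintro rfl; rw [norm_zero] at he; exact zero_ne_one he
  have : Nontrivial V := ⟨e, 0, he0⟩
  set n := Module.finrank ℝ V
  set Φ : ℝ → ℝ≥0∞ := fun r => ∫⁻ g, F (r • ap g e) ∂(rot V) with hΦdef
  have hjoint : Measurable fun z : ℝ × OG V => F (z.1 • ap z.2 e) := by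
    apply hF.comp
    have : Continuous fun z : ℝ × OG V => z.1 • ap z.2 e := by
      refine continuous_fst.smul ?_
      exact ap_continuous.comp (continuous_snd.prodMk continuous_const)
    exact this.measurable
  have hΦ : Measurable Φ := hjoint.lintegral_prod_right'
  have hav : ∀ x : V, ∫⁻ g, F (ap g x) ∂(rot V) = Φ ‖x‖ := by
    intro x
    rw [lintegral_rot_ap he x]
    simp only [hΦdef, ap_smul]
  have hodd : ∀ r : ℝ, Φ r = Φ |r| := by
    intro r
    have := hav (r • e)
    simp only [ap_smul] at this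
    rw [norm_smul, he, mul_one, Real.norm_eq_abs] at this
    exact this
  -- right hand side
  have hR : ∫⁻ x, F x * rz x = ∫⁻ x : V, Φ ‖x‖ * rz x := by
    have h1 : ∀ g : OG V, ∫⁻ x, F (ap g x) * rz x = ∫⁻ x, F x * rz x := by
      intro g
      have := (ap_mp g).lintegral_comp (f := fun x => F x * rz x) (hF.mul measurable_rz)
      rw [← this]
      apply lintegral_congr
      intro x
      show F (ap g x) * rz x = F (ap g x) * rz (ap g x)
      unfold rz
      rw [ap_norm]
    calc ∫⁻ x, F x * rz x = ∫⁻ g : OG V, (∫⁻ x, F (ap g x) * rz x) ∂(rot V) := by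
          simp_rw [h1]
          rw [lintegral_const, measure_univ, mul_one]
      _ = ∫⁻ x : V, (∫⁻ g : OG V, F (ap g x) * rz x ∂(rot V)) := by
          have hm : Measurable fun z : OG V × V => F (ap z.1 z.2) * rz z.2 :=
            (hF.comp (measurable_ap' (V := V))).mul ((measurable_rz (V := V)).comp measurable_snd)
          exact lintegral_lintegral_swap hm.aemeasurable
      _ = ∫⁻ x : V, Φ ‖x‖ * rz x := by
          apply lintegral_congr
          intro x
          have hm : Measurable fun g : OG V => F (ap g x) :=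
            hF.comp ((measurable_ap' (V := V)).comp (measurable_id.prodMk measurable_const))
          rw [lintegral_mul_const _ hm, ← hav x]
  have hrad : ∫⁻ x : V, Φ ‖x‖ * rz x =
      (volume : Measure V).toSphere univ * ∫⁻ r in Ioi (0 : ℝ), Φ r := by
    have hψ : Measurable fun r : ℝ => Φ r * (ENNReal.ofReal (r ^ (n - 1)))⁻¹ :=
      hΦ.mul (((measurable_id.pow_const _).ennreal_ofReal).inv)
    have h2 := lintegral_radial (V := V) hψ
    have h3 : ∀ x : V, Φ ‖x‖ * rz x = (fun r : ℝ => Φ r * (ENNReal.ofReal (r ^ (n - 1)))⁻¹) ‖x‖ :=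
      fun x => rfl
    simp_rw [h3]
    rw [h2]
    congr 1
    apply setLIntegral_congr_fun measurableSet_Ioi
    intro r hr
    have hr' : 0 < r ^ (n - 1) := pow_pos hr _
    show ENNReal.ofReal (r ^ (n - 1)) * (Φ r * (ENNReal.ofReal (r ^ (n - 1)))⁻¹) = Φ r
    rw [mul_comm, mul_assoc, ENNReal.inv_mul_cancel, mul_one]
    · exact (ENNReal.ofReal_pos.2 hr').ne'
    · exact ENNReal.ofReal_ne_top
  have hL : ∫⁻ g, (∫⁻ r : ℝ, F (r • ap g e)) ∂(rot V) = 2 * ∫⁻ r in Ioi (0 : ℝ), Φ r := by
    rw [lintegral_lintegral_swap (by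
      exact (hjoint.comp measurable_swap).aemeasurable)]
    calc ∫⁻ r : ℝ, Φ r = (∫⁻ r in Iic (0 : ℝ), Φ r) + ∫⁻ r in (Iic (0 : ℝ))ᶜ, Φ r :=
          (lintegral_add_compl _ measurableSet_Iic).symm
      _ = (∫⁻ r in Ioi (0 : ℝ), Φ r) + ∫⁻ r in Ioi (0 : ℝ), Φ r := by
          rw [compl_Iic]
          congr 1
          rw [← setLIntegral_congr (Iio_ae_eq_Iic (a := (0 : ℝ)))]
          have hmp : MeasurePreserving (fun r : ℝ => -r) := Measure.measurePreserving_neg volume
          have := hmp.setLIntegral_comp_preimage (s := Iio (0 : ℝ)) (f := Φ) measurableSet_Iio hΦ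
          rw [← this]
          have hpre : (fun r : ℝ => -r) ⁻¹' Iio (0 : ℝ) = Ioi 0 := by
            ext r; simp
          rw [hpre]
          apply lintegral_congr
          intro r
          rw [hodd (-r), abs_neg, ← hodd r]
      _ = _ := by rw [two_mul]
  rw [hL, hR, hrad]
  ring

theorem toSphere_ne_zero' [Nontrivial V] : (volume : Measure V).toSphere univ ≠ 0 := by
  rw [ne_eq, Measure.measure_univ_eq_zero]
  exact Measure.toSphere_ne_zero _

theorem toSphere_ne_top : (volume : Measure V).toSphere univ ≠ ∞ := measure_ne_top _ _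

end Pool.Agent.K4H28.HP
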