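import Pool.Agent.K4H28.HP.Polar
import Pool.Agent.K4H28.HP.Haar

set_option autoImplicit false
set_option linter.unusedSectionVars false

/-!
Balls minimise the capacity among sets of given volume.
-/

open MeasureTheory Set Filter Topology Metric
open scoped ENNReal RealInnerProductSpace

namespace Pool.Agent.K4H28.HP

variable {V : Type*} [NormedAddCommGroup V] [InnerProductSpace ℝ V] [FiniteDimensional ℝ V]
  [MeasurableSpace V] [BorelSpace V]

theorem lint_affine {H : ℝ → ℝ≥0∞} (hH : Measurable H) (c : ℝ) :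
    2 * ∫⁻ s, H (2 * s + c) = ∫⁻ r, H r := by
  have h1 : ∫⁻ r, H r = ∫⁻ r, H (r + c) := (lintegral_add_right_eq_self H c).symm
  have hHc : Measurable fun r => H (r + c) := hH.comp (measurable_id.add_const c)
  rw [h1]
  conv_rhs => rw [← Real.smul_map_volume_mul_left (two_ne_zero)]
  rw [lintegral_smul_measure, lintegral_map hHc (measurable_const_mul 2)]
  simp

/-- the gain -/
noncomputable def gn (R : ℝ) (E : Set V) (ν : V) (s : ℝ) : ℝ≥0∞ :=
  ∫⁻ x, (ball 0 R \ E).indicator 1 x * (E \ ball 0 R).indicator 1 (rfl' ν s x)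

theorem measurable_rfl_joint : Measurable fun z : (V × ℝ) × V => rfl' z.1.1 z.1.2 z.2 := by
  have : Continuous fun z : (V × ℝ) × V => rfl' z.1.1 z.1.2 z.2 := by
    unfold rfl'
    fun_prop
  exact this.measurable

theorem avg_gain {R D : ℝ} (hRD : R ≤ D) {E : Set V} (hE : MeasurableSet E)
    (hED : E ⊆ closedBall 0 D) {e : V} (he : ‖e‖ = 1) :
    (ENNReal.ofReal ((2 * D) ^ (Module.finrank ℝ V - 1)))⁻¹ *
      (volume (ball 0 R \ E) * volume (E \ ball (0 : V) R)) ≤
    (volume : Measure V).toSphere univ * ∫⁻ g, (∫⁻ s : ℝ, gn R E (ap g e) s) ∂(rot V) := by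
  set f : V → ℝ≥0∞ := (ball 0 R \ E).indicator 1 with hf
  set g' : V → ℝ≥0∞ := (E \ ball 0 R).indicator 1 with hg'
  set n := Module.finrank ℝ V
  set κ := (ENNReal.ofReal ((2 * D) ^ (n - 1)))⁻¹ with hκ
  have hfm : Measurable f := measurable_one.indicator (measurableSet_ball.diff hE)
  have hgm : Measurable g' := measurable_one.indicator (hE.diff measurableSet_ball)
  -- the inner integrals
  have h1 : ∀ g : OG V, 2 * ∫⁻ s : ℝ, gn R E (ap g e) s =
      ∫⁻ x, f x * ∫⁻ r : ℝ, g' (x + r • ap g e) := by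
    intro g
    have hν : ‖ap g e‖ = 1 := by rw [ap_norm, he]
    set ν := ap g e
    have hj : Measurable fun z : ℝ × V => f z.2 * g' (rfl' ν z.1 z.2) := by
      refine (hfm.comp measurable_snd).mul (hgm.comp ?_)
      exact (measurable_rfl_joint (V := V)).comp
        ((measurable_const.prodMk measurable_fst).prodMk measurable_snd)
    unfold gn
    rw [lintegral_lintegral_swap hj.aemeasurable, ← lintegral_const_mul _ (by
      exact hj.lintegral_prod_left')]
    apply lintegral_congr
    intro x
    have hj2 : Measurable fun s : ℝ => g' (rfl' ν s x) := by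
      refine hgm.comp ?_
      exact (measurable_rfl_joint (V := V)).comp
        ((measurable_const.prodMk measurable_id).prodMk measurable_const)
    rw [lintegral_const_mul _ hj2]
    have hj3 : Measurable fun r : ℝ => g' (x + r • ν) := by
      refine hgm.comp ?_
      exact measurable_const.add (measurable_id.smul_const ν)
    rw [← lint_affine hj3 (-2 * ⟪x, ν⟫)]
    have : ∀ s : ℝ, x + (2 * s + -2 * ⟪x, ν⟫) • ν = rfl' ν s x := by
      intro s
      unfold rfl'
      rw [sub_eq_add_neg, ← neg_smul]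
      congr 2
      ring
    simp_rw [this]
    ring
  have hj4 : Measurable fun z : OG V × V => f z.2 * ∫⁻ r : ℝ, g' (z.2 + r • ap z.1 e) := by
    refine (hfm.comp measurable_snd).mul ?_
    have h5 : Measurable fun z : (OG V × V) × ℝ => g' (z.1.2 + z.2 • ap z.1.1 e) := by
      refine hgm.comp ?_
      have : Continuous fun z : (OG V × V) × ℝ => z.1.2 + z.2 • ap z.1.1 e := by
        refine (continuous_snd.comp continuous_fst).add (continuous_snd.smul ?_)
        exact ap_continuous.comp ((continuous_fst.comp continuous_fst).prodMk continuous_const)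
      exact this.measurable
    exact h5.lintegral_prod_right'
  have h2 : (volume : Measure V).toSphere univ *
      (2 * ∫⁻ g, (∫⁻ s : ℝ, gn R E (ap g e) s) ∂(rot V)) =
      ∫⁻ x, f x * (2 * ∫⁻ z, g' (x + z) * rz z) := by
    have hgnm : Measurable fun g : OG V => ∫⁻ s : ℝ, gn R E (ap g e) s := by
      have h6 : Measurable fun z : (OG V × ℝ) × V => f z.2 * g' (rfl' (ap z.1.1 e) z.1.2 z.2) := by
        refine (hfm.comp measurable_snd).mul (hgm.comp ?_)
        refine (measurable_rfl_joint (V := V)).comp (Measurable.prodMk (Measurable.prodMk ?_ ?_) ?_)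
        · exact (measurable_ap' (V := V)).comp
            ((measurable_fst.comp measurable_fst).prodMk measurable_const)
        · exact measurable_snd.comp measurable_fst
        · exact measurable_snd
      have h7 : Measurable fun z : OG V × ℝ => gn R E (ap z.1 e) z.2 := h6.lintegral_prod_right'
      exact h7.lintegral_prod_right'
    rw [← lintegral_const_mul _ hgnm]
    simp_rw [h1]
    rw [lintegral_lintegral_swap hj4.aemeasurable, ← lintegral_const_mul _ (by
      exact hj4.lintegral_prod_left')]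
    apply lintegral_congr
    intro x
    have hj5 : Measurable fun g : OG V => ∫⁻ r : ℝ, g' (x + r • ap g e) := by
      have h5 : Measurable fun z : OG V × ℝ => g' (x + z.2 • ap z.1 e) := by
        refine hgm.comp ?_
        have : Continuous fun z : OG V × ℝ => x + z.2 • ap z.1 e := by
          refine continuous_const.add (continuous_snd.smul ?_)
          exact ap_continuous.comp (continuous_fst.prodMk continuous_const)
        exact this.measurable
      exact h5.lintegral_prod_right'
    rw [lintegral_const_mul _ hj5]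
    have hF : Measurable fun z : V => g' (x + z) := hgm.comp (measurable_const.add measurable_id)
    rw [← polar_formula he hF]
    ring
  have h3 : ∫⁻ x, f x * (2 * (κ * volume (E \ ball (0 : V) R))) ≤
      ∫⁻ x, f x * (2 * ∫⁻ z, g' (x + z) * rz z) := by
    apply lintegral_mono
    intro x
    by_cases hx : x ∈ ball 0 R \ E
    · refine mul_le_mul_right (mul_le_mul_right ?_ _) _
      have hx1 : ‖x‖ ≤ D := (mem_ball_zero_iff.1 hx.1).le.trans hRD
      rw [← lintegral_indicator_one (hE.diff measurableSet_ball), ← lintegral_const_mul _ hgm,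
        ← lintegral_add_left_eq_self (fun y => κ * (E \ ball (0 : V) R).indicator 1 y) x]
      apply lintegral_mono
      intro z
      show κ * g' (x + z) ≤ g' (x + z) * rz z
      rw [mul_comm]
      by_cases hz : x + z ∈ E \ ball 0 R
      · refine mul_le_mul_right ?_ _
        rw [hκ]
        unfold rz
        rw [ENNReal.inv_le_inv]
        apply ENNReal.ofReal_le_ofReal
        have h8 : ‖z‖ ≤ 2 * D := by
          have h9 : ‖x + z‖ ≤ D := by
            have := hED hz.1
            rwa [mem_closedBall_zero_iff] at this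
          calc ‖z‖ = ‖(x + z) - x‖ := by congr 1; abel
            _ ≤ ‖x + z‖ + ‖x‖ := norm_sub_le _ _
            _ ≤ 2 * D := by linarith
        gcongr
      · rw [hg', indicator_of_notMem hz]
        simp
    · have h0 : f x = 0 := indicator_of_notMem hx _
      show f x * _ ≤ f x * _
      rw [h0, zero_mul, zero_mul]
  rw [lintegral_mul_const _ hfm, lintegral_indicator_one (measurableSet_ball.diff hE)] at h3
  have h4 : 2 * (κ * (volume (ball 0 R \ E) * volume (E \ ball (0 : V) R))) ≤
      2 * ((volume : Measure V).toSphere univ *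
        ∫⁻ g, (∫⁻ s : ℝ, gn R E (ap g e) s) ∂(rot V)) := by
    calc _ = volume (ball 0 R \ E) * (2 * (κ * volume (E \ ball (0 : V) R))) := by ring
      _ ≤ _ := h3
      _ = _ := h2.symm
      _ = _ := by ring
  exact (ENNReal.mul_le_mul_iff_right (by norm_num) (by norm_num)).1 h4

theorem gn_eq_zero {R D : ℝ} (hRD : R ≤ D) {E : Set V} (hED : E ⊆ closedBall 0 D) {ν : V}
    (hν : ‖ν‖ = 1) {s : ℝ} (hs : D < |s|) : gn R E ν s = 0 := by
  unfold gn
  rw [← lintegral_zero (μ := (volume : Measure V))]
  apply lintegral_congr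
  intro x
  by_cases hx : x ∈ ball 0 R \ E
  · by_cases hy : rfl' ν s x ∈ E \ ball 0 R
    · exfalso
      have h1 : ‖x‖ ≤ D := (mem_ball_zero_iff.1 hx.1).le.trans hRD
      have h2 : ‖rfl' ν s x‖ ≤ D := by
        have := hED hy.1
        rwa [mem_closedBall_zero_iff] at this
      have h3 := inner_rfl (s := s) hν x
      have h4 : |⟪x, ν⟫| ≤ D := by
        have := abs_real_inner_le_norm x ν
        rw [hν, mul_one] at this
        exact this.trans h1
      have h5 : |⟪rfl' ν s x, ν⟫| ≤ D := by
        have := abs_real_inner_le_norm (rfl' ν s x) ν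
        rw [hν, mul_one] at this
        exact this.trans h2
      rw [h3] at h5
      rw [abs_le] at h4 h5
      rw [lt_abs] at hs
      rcases hs with hs | hs <;> linarith
    · rw [indicator_of_notMem hy, mul_zero]
  · rw [indicator_of_notMem hx, zero_mul]

/-- a definite gain is always possible -/
theorem exists_gain {R D : ℝ} (hD : 0 < D) (hRD : R ≤ D) [Nontrivial V] :
    ∃ c : ℝ≥0∞, c ≠ 0 ∧ ∀ E : Set V, MeasurableSet E → E ⊆ closedBall 0 D →
      volume E = volume (ball (0 : V) R) →
      ∃ ν : V, ‖ν‖ = 1 ∧ ∃ s : ℝ, c * volume (ball 0 R \ E) ^ 2 ≤ gn R E ν s := by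
  obtain ⟨e, he⟩ := exists_norm_eq V (zero_le_one' ℝ)
  set κ := (ENNReal.ofReal ((2 * D) ^ (Module.finrank ℝ V - 1)))⁻¹ with hκ
  have hκ0 : κ ≠ 0 := ENNReal.inv_ne_zero.2 ENNReal.ofReal_ne_top
  have hκt : κ ≠ ∞ := by
    rw [hκ, ENNReal.inv_ne_top]
    exact (ENNReal.ofReal_pos.2 (by positivity)).ne'
  set ω := (volume : Measure V).toSphere univ with hω
  have hω0 : ω ≠ 0 := toSphere_ne_zero'
  have hωt : ω ≠ ∞ := toSphere_ne_top
  set c := κ / (ω * ENNReal.ofReal (4 * D)) with hc
  have hm0 : ω * ENNReal.ofReal (4 * D) ≠ 0 :=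
    mul_ne_zero hω0 (ENNReal.ofReal_pos.2 (by positivity)).ne'
  have hmt : ω * ENNReal.ofReal (4 * D) ≠ ∞ := ENNReal.mul_ne_top hωt ENNReal.ofReal_ne_top
  refine ⟨c, ?_, ?_⟩
  · rw [hc]
    exact (ENNReal.div_pos hκ0 hmt).ne'
  intro E hE hED hvol
  by_cases ha : volume (ball (0 : V) R \ E) = 0
  · exact ⟨e, he, 0, by rw [ha]; simp⟩
  by_contra hcon
  push Not at hcon
  have hfin : volume (ball (0 : V) R \ E) ≠ ∞ :=
    ((measure_mono sdiff_subset).trans_lt measure_ball_lt_top).ne
  have hEfin : volume E ≠ ∞ := by rw [hvol]; exact measure_ball_lt_top.ne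
  have hdiff : volume (E \ ball (0 : V) R) = volume (ball (0 : V) R \ E) := by
    have h1 := measure_sdiff_add_inter E (measurableSet_ball (x := (0 : V)) (ε := R)) (μ := volume)
    have h2 := measure_sdiff_add_inter (ball (0 : V) R) hE (μ := volume)
    rw [inter_comm] at h2
    rw [hvol, ← h2] at h1
    exact (ENNReal.add_left_inj ((measure_mono inter_subset_left).trans_lt hEfin.lt_top).ne).1 h1
  have h1 := avg_gain hRD hE hED he
  rw [hdiff] at h1
  set a := volume (ball (0 : V) R \ E) with hadef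
  have h2 : ∫⁻ g, (∫⁻ s : ℝ, gn R E (ap g e) s) ∂(rot V) ≤ ENNReal.ofReal (2 * D) * (c * a ^ 2) := by
    have h3 : ∀ g : OG V, ∫⁻ s : ℝ, gn R E (ap g e) s ≤ ENNReal.ofReal (2 * D) * (c * a ^ 2) := by
      intro g
      have hν : ‖ap g e‖ = 1 := by rw [ap_norm, he]
      calc ∫⁻ s : ℝ, gn R E (ap g e) s
          ≤ ∫⁻ s : ℝ, (Icc (-D) D).indicator (fun _ => c * a ^ 2) s := by
            apply lintegral_mono
            intro s
            by_cases hs : s ∈ Icc (-D) D
            · rw [indicator_of_mem hs]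
              exact (hcon _ hν s).le
            · rw [indicator_of_notMem hs]
              have hs' : D < |s| := by
                by_contra h
                push Not at h
                exact hs (abs_le.1 h)
              rw [gn_eq_zero hRD hED hν hs']
        _ = _ := by
            rw [lintegral_indicator_const measurableSet_Icc, Real.volume_Icc, mul_comm]
            congr 2
            ring
    calc _ ≤ ∫⁻ _ : OG V, ENNReal.ofReal (2 * D) * (c * a ^ 2) ∂(rot V) := lintegral_mono h3
      _ = _ := by rw [lintegral_const, measure_univ, mul_one]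
  have h4 : κ * (a * a) ≤ ω * (ENNReal.ofReal (2 * D) * (c * a ^ 2)) := h1.trans (by gcongr)
  have h5 : 2 * (ω * (ENNReal.ofReal (2 * D) * (c * a ^ 2))) = κ * (a * a) := by
    have : 2 * ENNReal.ofReal (2 * D) = ENNReal.ofReal (4 * D) := by
      rw [show (4 : ℝ) * D = 2 * (2 * D) by ring, ENNReal.ofReal_mul (by norm_num : (0 : ℝ) ≤ 2)]
      simp
    calc 2 * (ω * (ENNReal.ofReal (2 * D) * (c * a ^ 2)))
        = (ω * (2 * ENNReal.ofReal (2 * D))) * c * (a * a) := by ring
      _ = κ * (a * a) := by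
          rw [this, hc, ENNReal.mul_div_cancel hm0 hmt]
  have h6 : κ * (a * a) ≠ 0 := mul_ne_zero hκ0 (mul_ne_zero ha ha)
  have h7 : κ * (a * a) ≠ ∞ := ENNReal.mul_ne_top hκt (ENNReal.mul_ne_top hfin hfin)
  have h8 : 2 * (κ * (a * a)) ≤ 1 * (κ * (a * a)) := by
    rw [one_mul]
    calc 2 * (κ * (a * a)) ≤ 2 * (ω * (ENNReal.ofReal (2 * D) * (c * a ^ 2))) := by gcongr
      _ = _ := h5
  have h9 : (2 : ℝ≥0∞) ≤ 1 := (ENNReal.mul_le_mul_iff_left h6 h7).1 h8
  norm_num at h9

/-- **Balls have minimal capacity.** -/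
theorem cap_ball_le [Nontrivial V] {p : V → ℝ≥0∞} (hp : Ker p) {R D : ℝ} {E : Set V}
    (hE : MeasurableSet E) (hED : E ⊆ closedBall 0 D)
    (hvol : volume E = volume (ball (0 : V) R)) : cap p (ball (0 : V) R) ≤ cap p E := by
  set D' := max (max D R) 1 with hD'
  have hRD : R ≤ D' := (le_max_right _ _).trans (le_max_left _ _)
  have hDD : D ≤ D' := (le_max_left _ _).trans (le_max_left _ _)
  have hD0 : 0 < D' := lt_of_lt_of_le one_pos (le_max_right _ _)
  obtain ⟨c, hc0, hc⟩ := exists_gain (V := V) hD0 hRD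
  let Q : Set (Set V) := {F | MeasurableSet F ∧ F ⊆ closedBall 0 D' ∧
    volume F = volume (ball (0 : V) R) ∧ cap p F ≤ cap p E}
  have hEQ : E ∈ Q := ⟨hE, hED.trans (closedBall_subset_closedBall hDD), hvol, le_rfl⟩
  have hbt : volume (ball (0 : V) R) ≠ ∞ := measure_ball_lt_top.ne
  set α : ℝ≥0∞ := ⨅ F ∈ Q, volume (ball (0 : V) R \ F) with hα
  have hαt : α ≠ ∞ := by
    have h1 : α ≤ volume (ball (0 : V) R \ E) := iInf₂_le E hEQ
    exact (h1.trans_lt ((measure_mono sdiff_subset).trans_lt measure_ball_lt_top)).ne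
  have hα0 : α = 0 := by
    by_contra hne
    have hpos : c * α ^ 2 ≠ 0 := mul_ne_zero hc0 (pow_ne_zero _ hne)
    have h1 : α < α + c * α ^ 2 := ENNReal.lt_add_right hαt hpos
    obtain ⟨F, hFQ, hF⟩ : ∃ F, ∃ _ : F ∈ Q, volume (ball (0 : V) R \ F) < α + c * α ^ 2 := by
      rw [hα] at h1
      simpa only [iInf_lt_iff] using h1
    obtain ⟨hFm, hFD, hFv, hFc⟩ := hFQ
    obtain ⟨ν, hν, s, hs⟩ := hc F hFm hFD hFv
    have hFt : volume F ≠ ∞ := by rw [hFv]; exact hbt
    have hPQ : polS ν s F ∈ Q := ⟨measurableSet_polS hFm, polS_subset_ball hν hFD,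
      (vol_polS hν hFm).trans hFv, (cap_polS_le hp hν hFm hFt).trans hFc⟩
    have h2 := gain (s := s) hν hFm R
    have h3 : α ≤ volume (ball (0 : V) R \ F) := iInf₂_le F ⟨hFm, hFD, hFv, hFc⟩
    have h4 : α ≤ volume (ball (0 : V) R \ polS ν s F) := iInf₂_le _ hPQ
    have h5 : α + c * α ^ 2 ≤ volume (ball (0 : V) R \ F) := by
      calc α + c * α ^ 2 ≤ volume (ball (0 : V) R \ polS ν s F) +
            c * volume (ball (0 : V) R \ F) ^ 2 := by gcongr
        _ ≤ volume (ball (0 : V) R \ polS ν s F) + gn R F ν s := by gcongr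
        _ ≤ _ := h2
    exact absurd hF (not_lt.2 h5)
  have hcapt : cap p E ≠ ∞ := by
    have := cap_le (p := p) E hE
    rw [hvol] at this
    exact (this.trans_lt measure_ball_lt_top).ne
  apply ENNReal.le_of_forall_pos_le_add
  intro ε hε _
  have h1 : (⨅ F ∈ Q, volume (ball (0 : V) R \ F)) < ε := by
    rw [← hα, hα0]
    exact_mod_cast hε
  obtain ⟨F, hFQ, hF⟩ : ∃ F, ∃ _ : F ∈ Q, volume (ball (0 : V) R \ F) < ε := by
    simpa only [iInf_lt_iff] using h1
  obtain ⟨hFm, hFD, hFv, hFc⟩ := hFQ
  calc cap p (ball (0 : V) R) ≤ cap p F + volume (ball (0 : V) R \ F) :=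
        cap_le_add_diff hp hFm (by rw [hFv]; exact hbt) measurableSet_ball hbt
    _ ≤ cap p E + ε := add_le_add hFc hF.le

end Pool.Agent.K4H28.HP
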