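import Pool.Agent.K4H28.HP.Induct

set_option autoImplicit false
set_option linter.unusedSectionVars false

/-!
Harmonic means of the volumes of projections of Borel sets.
-/

open MeasureTheory Set Filter Topology Metric Module
open scoped ENNReal RealInnerProductSpace

namespace Pool.Agent.K4H28.HP

variable {V : Type*} [NormedAddCommGroup V] [InnerProductSpace ℝ V] [FiniteDimensional ℝ V]
variable [MeasurableSpace V] [BorelSpace V]

/-- Volume of the orthogonal projection onto a subspace. -/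
noncomputable def shadow (E : Set V) (S : Submodule ℝ V) : ℝ≥0∞ :=
  volume ((fun x => S.orthogonalProjectionOnto x) '' E)

/-- The image of a subspace under a rotation. -/
def rotate (g : OG V) (S : Submodule ℝ V) : Submodule ℝ V := S.map (g : V →L[ℝ] V).toLinearMap

theorem shadow_mono {E F : Set V} (h : E ⊆ F) (S : Submodule ℝ V) : shadow E S ≤ shadow F S :=
  measure_mono (image_mono h)

theorem shadow_rotate (E : Set V) (S : Submodule ℝ V) (g : OG V) :
    shadow E (rotate g S) = vp E S g := by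
  let G : V ≃ₗᵢ[ℝ] V := Unitary.linearIsometryEquiv g
  let L : S →ₗᵢ[ℝ] V := G.toLinearIsometry.comp S.subtypeₗᵢ
  let M : S →ₗᵢ[ℝ] (rotate g S) :=
    { toFun := fun s => ⟨ap g s, ⟨s, s.2, rfl⟩⟩
      map_add' := fun a b => Subtype.ext (ap_add g a b)
      map_smul' := fun c a => Subtype.ext (ap_smul g c a)
      norm_map' := fun a => ap_norm g a }
  have hs : Function.Surjective M := by
    rintro ⟨y, s, hs, rfl⟩
    exact ⟨⟨s, hs⟩, rfl⟩
  let Θ : S ≃ₗᵢ[ℝ] (rotate g S) := LinearIsometryEquiv.ofSurjective M hs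
  have h1 : (fun x => (rotate g S).orthogonalProjectionOnto x) '' E =
      Θ '' ((fun x => prj S (ap g⁻¹ x)) '' E) := by
    rw [image_image]
    apply Set.image_congr'
    intro x
    apply prj_eq
    rintro w ⟨s, hs, rfl⟩
    have h2 : ((Θ (prj S (ap g⁻¹ x)) : rotate g S) : V) = ap g (prj S (ap g⁻¹ x)) := rfl
    have h3 : ((g : V →L[ℝ] V).toLinearMap s : V) = ap g s := rfl
    have h4 : x = ap g (ap g⁻¹ x) := (ap_ap_inv g x).symm
    have h5 : ap g (ap g⁻¹ x) - ap g (prj S (ap g⁻¹ x)) = ap g (ap g⁻¹ x - prj S (ap g⁻¹ x)) :=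
      (map_sub (g : V →L[ℝ] V) _ _).symm
    rw [h2, h3]
    conv_lhs => rw [h4]
    rw [ap_inv_ap, h5, ap_inner]
    exact inner_sub_prj S _ _ hs
  unfold shadow vp
  rw [h1, vol_image_isom]

/-- The projection inequality for Borel sets. -/
theorem borel_ineq {E : Set V} (hE : MeasurableSet E) (S : Submodule ℝ V)
    (h1 : 1 ≤ finrank ℝ S) :
    ∫⁻ g, (shadow E (rotate g S))⁻¹ ∂(rot V) ≤ (om (finrank ℝ S))⁻¹ *
        (om (finrank ℝ V) * (volume E)⁻¹) ^ ((finrank ℝ S : ℝ) / finrank ℝ V) := by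
  have hle : finrank ℝ S ≤ finrank ℝ V := Submodule.finrank_le S
  have hn0 : 0 < finrank ℝ V := by omega
  have hp0 : (0 : ℝ) < (finrank ℝ S : ℝ) / finrank ℝ V := by
    have h2 : (0 : ℝ) < finrank ℝ V := by exact_mod_cast hn0
    have h3 : (0 : ℝ) < finrank ℝ S := by exact_mod_cast h1
    positivity
  obtain ⟨k, hk⟩ := Nat.exists_eq_add_of_le hle
  by_cases hv : volume E = 0
  · rw [hv, ENNReal.inv_zero, ENNReal.mul_top (om_ne_zero _), ENNReal.top_rpow_of_pos hp0,
      ENNReal.mul_top (ENNReal.inv_ne_zero.2 (om_ne_top _))]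
    exact le_top
  -- exhaustion by compact sets
  obtain ⟨r, hr1, hr2, hr3⟩ := exists_seq_strictMono_tendsto' (pos_iff_ne_zero.2 hv)
  have hK : ∀ m, ∃ K ⊆ E, IsCompact K ∧ r m < volume K := fun m =>
    hE.exists_lt_isCompact (hr2 m).2
  have key : ∀ m, ∫⁻ g, (shadow E (rotate g S))⁻¹ ∂(rot V) ≤ (om (finrank ℝ S))⁻¹ *
        (om (finrank ℝ V) * (r m)⁻¹) ^ ((finrank ℝ S : ℝ) / finrank ℝ V) := by
    intro m
    obtain ⟨K, hKE, hKc, hKr⟩ := hK m
    calc ∫⁻ g, (shadow E (rotate g S))⁻¹ ∂(rot V)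
        ≤ ∫⁻ g, (vp K S g)⁻¹ ∂(rot V) := by
          apply lintegral_mono
          intro g
          show (shadow E (rotate g S))⁻¹ ≤ (vp K S g)⁻¹
          rw [← shadow_rotate]
          exact ENNReal.inv_le_inv.2 (shadow_mono hKE _)
      _ ≤ (om (finrank ℝ S))⁻¹ *
        (om (finrank ℝ V) * (volume K)⁻¹) ^ ((finrank ℝ S : ℝ) / finrank ℝ V) :=
          compact_ineq hKc k S h1 hk.symm
      _ ≤ _ := by
          gcongr
  refine ge_of_tendsto' (x := atTop) (f := fun m => (om (finrank ℝ S))⁻¹ *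
        (om (finrank ℝ V) * (r m)⁻¹) ^ ((finrank ℝ S : ℝ) / finrank ℝ V)) ?_ key
  apply ENNReal.Tendsto.const_mul _ (Or.inr (ENNReal.inv_ne_top.2 (om_ne_zero _)))
  apply (ENNReal.continuous_rpow_const.tendsto _).comp
  apply ENNReal.Tendsto.const_mul _ (Or.inr (om_ne_top _))
  exact tendsto_inv_iff.2 hr3

/-- The shadow of the unit ball. -/
theorem shadow_ball (S : Submodule ℝ V) (h1 : 1 ≤ finrank ℝ S) :
    shadow (ball (0 : V) 1) S = om (finrank ℝ S) := by
  have hS : Nontrivial S := Module.nontrivial_of_finrank_pos (R := ℝ) (by omega)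
  have h2 : (fun x => S.orthogonalProjectionOnto x) '' (ball (0 : V) 1) = ball (0 : S) 1 := by
    ext y
    simp only [mem_image, mem_ball_zero_iff]
    constructor
    · rintro ⟨x, hx, rfl⟩
      exact lt_of_le_of_lt (S.norm_orthogonalProjectionOnto_apply_le x) hx
    · intro hy
      refine ⟨y, hy, ?_⟩
      exact Submodule.orthogonalProjectionOnto_mem_subspace_eq_self y
  unfold shadow
  rw [h2, vol_ball, ENNReal.ofReal_one, one_pow, one_mul]

theorem finrank_rotate (g : OG V) (S : Submodule ℝ V) :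
    finrank ℝ (rotate g S) = finrank ℝ S := by
  have hinj : Function.Injective (g : V →L[ℝ] V).toLinearMap := by
    intro a b hab
    have h1 : ap g a = ap g b := hab
    rw [← ap_inv_ap g a, h1, ap_inv_ap]
  exact (Submodule.equivMapOfInjective _ hinj S).finrank_eq.symm

end Pool.Agent.K4H28.HP
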