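import Mathlib

set_option autoImplicit false

/-!
Potential theory of a killed random walk on a Euclidean space with a symmetric subprobability
kernel: equilibrium potential, capacity, variational inequality.
-/

open MeasureTheory Set Filter Topology
open scoped ENNReal

namespace Pool.Agent.K4H28.HP

variable {V : Type*} [NormedAddCommGroup V] [InnerProductSpace ℝ V] [FiniteDimensional ℝ V]
  [MeasurableSpace V] [BorelSpace V]

/-- convolution operator -/
noncomputable def op (p : V → ℝ≥0∞) (f : V → ℝ≥0∞) (x : V) : ℝ≥0∞ := ∫⁻ y, p (x - y) * f y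

/-- radially decreasing subprobability kernel -/
structure Ker (p : V → ℝ≥0∞) : Prop where
  meas : Measurable p
  mass : ∫⁻ x, p x < 1
  anti : ∀ x y : V, ‖x‖ ≤ ‖y‖ → p y ≤ p x

theorem Ker.even {p : V → ℝ≥0∞} (hp : Ker p) (x : V) : p (-x) = p x :=
  le_antisymm (hp.anti _ _ (by rw [norm_neg])) (hp.anti _ _ (by rw [norm_neg]))

theorem Ker.sub_comm {p : V → ℝ≥0∞} (hp : Ker p) (x y : V) : p (x - y) = p (y - x) := by
  rw [← hp.even (x - y), neg_sub]

section op

variable {p : V → ℝ≥0∞}

omit [FiniteDimensional ℝ V] in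
theorem op_congr_ae [FiniteDimensional ℝ V] {f g : V → ℝ≥0∞} (h : f =ᵐ[volume] g) (x : V) : op p f x = op p g x := by
  unfold op
  apply lintegral_congr_ae
  filter_upwards [h] with y hy
  rw [hy]

theorem measurable_op (hp : Measurable p) {f : V → ℝ≥0∞} (hf : Measurable f) :
    Measurable (op p f) := by
  unfold op
  apply Measurable.lintegral_prod_right'
    (f := fun z : V × V => p (z.1 - z.2) * f z.2)
  exact (hp.comp (measurable_fst.sub measurable_snd)).mul (hf.comp measurable_snd)

theorem op_mono {f g : V → ℝ≥0∞} (h : ∀ x, f x ≤ g x) (x : V) : op p f x ≤ op p g x :=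
  lintegral_mono fun y => mul_le_mul_right (h y) _

theorem op_add (hp : Measurable p) {f g : V → ℝ≥0∞} (hf : Measurable f) (x : V) :
    op p (fun y => f y + g y) x = op p f x + op p g x := by
  unfold op
  rw [← lintegral_add_left]
  · simp_rw [mul_add]
  · exact (hp.comp (measurable_const.sub measurable_id)).mul hf

theorem lintegral_kernel_left (x : V) : ∫⁻ y, p (x - y) = ∫⁻ y, p y :=
  lintegral_sub_left_eq_self p x

theorem lintegral_kernel_right (y : V) : ∫⁻ x, p (x - y) = ∫⁻ y, p y :=
  lintegral_sub_right_eq_self p y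

theorem lintegral_op (hp : Measurable p) {f : V → ℝ≥0∞} (hf : Measurable f) :
    ∫⁻ x, op p f x = (∫⁻ x, p x) * ∫⁻ x, f x := by
  unfold op
  rw [lintegral_lintegral_swap]
  · have : ∀ y : V, ∫⁻ x, p (x - y) * f y = (∫⁻ x, p x) * f y := by
      intro y
      have hm : Measurable fun x : V => p (x - y) := hp.comp (measurable_id.sub measurable_const)
      rw [lintegral_mul_const _ hm, lintegral_kernel_right]
    simp_rw [this]
    rw [lintegral_const_mul _ hf]
  · exact ((hp.comp (measurable_fst.sub measurable_snd)).mul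
      (hf.comp measurable_snd)).aemeasurable

theorem op_le_mass {f : V → ℝ≥0∞} (hf : ∀ x, f x ≤ 1) (x : V) : op p f x ≤ ∫⁻ y, p y := by
  rw [← lintegral_kernel_left x]
  apply lintegral_mono
  intro y
  calc p (x - y) * f y ≤ p (x - y) * 1 := mul_le_mul_right (hf y) _
    _ = _ := mul_one _

theorem op_symm (hp : Ker p) {f g : V → ℝ≥0∞} (hf : Measurable f) (hg : Measurable g) :
    ∫⁻ x, f x * op p g x = ∫⁻ x, g x * op p f x := by
  unfold op
  have h1 : ∀ x : V, f x * ∫⁻ y, p (x - y) * g y = ∫⁻ y, f x * (p (x - y) * g y) := by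
    intro x
    rw [lintegral_const_mul]
    exact (hp.meas.comp (measurable_const.sub measurable_id)).mul hg
  have h2 : ∀ x : V, g x * ∫⁻ y, p (x - y) * f y = ∫⁻ y, g x * (p (x - y) * f y) := by
    intro x
    rw [lintegral_const_mul]
    exact (hp.meas.comp (measurable_const.sub measurable_id)).mul hf
  simp_rw [h1, h2]
  rw [lintegral_lintegral_swap]
  · apply lintegral_congr
    intro y
    apply lintegral_congr
    intro x
    rw [hp.sub_comm x y]
    ring
  · exact ((hf.comp measurable_fst).mul ((hp.meas.comp (measurable_fst.sub measurable_snd)).mul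
      (hg.comp measurable_snd))).aemeasurable

end op

/-! ### the equilibrium potential -/

open Classical in
/-- one step -/
noncomputable def step (p : V → ℝ≥0∞) (E : Set V) (f : V → ℝ≥0∞) (x : V) : ℝ≥0∞ :=
  if x ∈ E then 1 else op p f x

/-- iterates -/
noncomputable def it (p : V → ℝ≥0∞) (E : Set V) : ℕ → V → ℝ≥0∞
  | 0 => fun _ => 0
  | k + 1 => step p E (it p E k)

/-- the equilibrium potential -/
noncomputable def pot (p : V → ℝ≥0∞) (E : Set V) (x : V) : ℝ≥0∞ := ⨆ k, it p E k x

open Classical in
/-- the charge -/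
noncomputable def chg (p : V → ℝ≥0∞) (E : Set V) (x : V) : ℝ≥0∞ :=
  if x ∈ E then 1 - op p (pot p E) x else 0

/-- the capacity -/
noncomputable def cap (p : V → ℝ≥0∞) (E : Set V) : ℝ≥0∞ := ∫⁻ x, chg p E x

section pot

variable {p : V → ℝ≥0∞} {E : Set V}

theorem step_mono {f g : V → ℝ≥0∞} (h : ∀ x, f x ≤ g x) (x : V) :
    step p E f x ≤ step p E g x := by
  unfold step
  split_ifs
  · exact le_rfl
  · exact op_mono h x

theorem it_mono_succ (k : ℕ) (x : V) : it p E k x ≤ it p E (k + 1) x := by
  induction k generalizing x with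
  | zero => exact zero_le
  | succ k ih => exact step_mono ih x

theorem it_mono (x : V) : Monotone fun k => it p E k x :=
  monotone_nat_of_le_succ fun k => it_mono_succ k x

theorem measurable_it (hp : Measurable p) (hE : MeasurableSet E) (k : ℕ) :
    Measurable (it p E k) := by
  induction k with
  | zero => exact measurable_const
  | succ k ih => exact Measurable.ite hE measurable_const (measurable_op hp ih)

theorem measurable_pot (hp : Measurable p) (hE : MeasurableSet E) : Measurable (pot p E) :=
  Measurable.iSup fun k => measurable_it hp hE k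

theorem it_le_one (hp : Ker p) (k : ℕ) (x : V) : it p E k x ≤ 1 := by
  induction k generalizing x with
  | zero => exact zero_le
  | succ k ih =>
    show step p E (it p E k) x ≤ 1
    unfold step
    split_ifs
    · exact le_rfl
    · exact (op_le_mass ih x).trans hp.mass.le

theorem pot_le_one (hp : Ker p) (x : V) : pot p E x ≤ 1 := iSup_le fun k => it_le_one hp k x

theorem op_pot (hp : Measurable p) (hE : MeasurableSet E) (x : V) :
    op p (pot p E) x = ⨆ k, op p (it p E k) x := by
  unfold op pot
  simp_rw [ENNReal.mul_iSup]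
  rw [lintegral_iSup]
  · intro k
    exact (hp.comp (measurable_const.sub measurable_id)).mul (measurable_it hp hE k)
  · intro i j hij y
    exact mul_le_mul_right (it_mono y hij) _

theorem pot_on {x : V} (hx : x ∈ E) : pot p E x = 1 := by
  apply le_antisymm
  · apply iSup_le
    intro k
    cases k with
    | zero => exact zero_le
    | succ k =>
      show step p E _ x ≤ 1
      unfold step
      rw [if_pos hx]
  · refine le_trans ?_ (le_iSup _ 1)
    show 1 ≤ step p E _ x
    unfold step
    rw [if_pos hx]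

theorem pot_off (hp : Measurable p) (hE : MeasurableSet E) {x : V} (hx : x ∉ E) :
    pot p E x = op p (pot p E) x := by
  rw [op_pot hp hE]
  apply le_antisymm
  · apply iSup_le
    intro k
    cases k with
    | zero => exact zero_le
    | succ k =>
      refine le_trans ?_ (le_iSup _ k)
      show step p E _ x ≤ _
      unfold step
      rw [if_neg hx]
  · apply iSup_le
    intro k
    refine le_trans ?_ (le_iSup _ (k + 1))
    show _ ≤ step p E _ x
    unfold step
    rw [if_neg hx]

theorem pot_eq (hp : Ker p) (hE : MeasurableSet E) (x : V) :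
    pot p E x = op p (pot p E) x + chg p E x := by
  unfold chg
  split_ifs with hx
  · rw [pot_on hx, add_tsub_cancel_of_le]
    exact (op_le_mass (pot_le_one hp) x).trans hp.mass.le
  · rw [add_zero]
    exact pot_off hp.meas hE hx

theorem measurable_chg (hp : Measurable p) (hE : MeasurableSet E) : Measurable (chg p E) :=
  Measurable.ite hE (measurable_const.sub (measurable_op hp (measurable_pot hp hE)))
    measurable_const

theorem chg_le_one (x : V) : chg p E x ≤ 1 := by
  unfold chg
  split_ifs
  · exact tsub_le_self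
  · exact zero_le

theorem chg_off {x : V} (hx : x ∉ E) : chg p E x = 0 := by
  unfold chg
  rw [if_neg hx]

theorem lintegral_it_le (hp : Ker p) (hE : MeasurableSet E) (k : ℕ) :
    ∫⁻ x, it p E k x ≤ volume E * (1 - ∫⁻ x, p x)⁻¹ := by
  set m := ∫⁻ x, p x with hm
  have hm1 : m < 1 := hp.mass
  have hm' : 1 - m ≠ 0 := (tsub_pos_of_lt hm1).ne'
  have hm2 : 1 - m ≠ ∞ := (tsub_le_self.trans_lt ENNReal.one_lt_top).ne
  induction k with
  | zero => simp [it]
  | succ k ih =>
    have h1 : ∫⁻ x, it p E (k + 1) x ≤ ∫⁻ x, (E.indicator 1 x + op p (it p E k) x) := by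
      apply lintegral_mono
      intro x
      show step p E _ x ≤ _
      unfold step
      split_ifs with hx
      · simp [hx]
      · simp [hx]
    refine h1.trans ?_
    rw [lintegral_add_left (measurable_one.indicator hE), lintegral_indicator_one hE,
      lintegral_op hp.meas (measurable_it hp.meas hE k)]
    calc volume E + m * ∫⁻ x, it p E k x
        ≤ volume E + m * (volume E * (1 - m)⁻¹) := by gcongr
      _ = volume E * (1 - m)⁻¹ * (1 - m) + m * (volume E * (1 - m)⁻¹) := by
          rw [mul_assoc, ENNReal.inv_mul_cancel hm' hm2, mul_one]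
      _ = volume E * (1 - m)⁻¹ * ((1 - m) + m) := by ring
      _ = volume E * (1 - m)⁻¹ := by rw [tsub_add_cancel_of_le hm1.le, mul_one]

theorem lintegral_pot_lt_top (hp : Ker p) (hE : MeasurableSet E) (hv : volume E ≠ ∞) :
    ∫⁻ x, pot p E x < ∞ := by
  have h1 : ∫⁻ x, pot p E x ≤ volume E * (1 - ∫⁻ x, p x)⁻¹ := by
    unfold pot
    rw [lintegral_iSup (fun k => measurable_it hp.meas hE k)]
    · exact iSup_le fun k => lintegral_it_le hp hE k
    · intro i j hij x
      exact it_mono x hij
  refine h1.trans_lt (ENNReal.mul_lt_top hv.lt_top ?_)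
  rw [ENNReal.inv_lt_top]
  exact tsub_pos_of_lt hp.mass

theorem cap_le (E : Set V) (hE : MeasurableSet E) : cap p E ≤ volume E := by
  unfold cap
  calc ∫⁻ x, chg p E x ≤ ∫⁻ x, E.indicator 1 x := by
        apply lintegral_mono
        intro x
        by_cases hx : x ∈ E
        · simp only [hx, indicator_of_mem, Pi.one_apply]
          exact chg_le_one x
        · rw [chg_off hx]; exact zero_le
    _ = volume E := lintegral_indicator_one hE

end pot

/-! ### the variational inequality -/

section var

variable {p : V → ℝ≥0∞} {E : Set V}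

/-- positivity of the Dirichlet form, written without subtraction -/
theorem form_nonneg (hp : Ker p) {f g : V → ℝ≥0∞} (hf : Measurable f) (hg : Measurable g)
    (hf1 : ∀ x, f x ≤ 1) (hg1 : ∀ x, g x ≤ 1) :
    2 * (∫⁻ x, f x * g x) + (∫⁻ x, f x * op p f x) + (∫⁻ x, g x * op p g x) ≤
      (∫⁻ x, f x * f x) + (∫⁻ x, g x * g x) + 2 * ∫⁻ x, f x * op p g x := by
  set m := ∫⁻ x, p x with hm
  have hm1 : m < 1 := hp.mass
  have hpp : Measurable p := hp.meas
  -- double integrals
  have hpm : Measurable fun z : V × V => p (z.1 - z.2) :=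
    hp.meas.comp (measurable_fst.sub measurable_snd)
  have key : ∀ F G : V → ℝ≥0∞, Measurable F → Measurable G →
      ∫⁻ z : V × V, p (z.1 - z.2) * (F z.1 * G z.2) ∂(volume.prod volume) =
        ∫⁻ x, F x * op p G x := by
    intro F G hF hG
    have hm2 : Measurable fun z : V × V => p (z.1 - z.2) * (F z.1 * G z.2) :=
      hpm.mul ((hF.comp measurable_fst).mul (hG.comp measurable_snd))
    rw [lintegral_prod _ hm2.aemeasurable]
    apply lintegral_congr
    intro x
    unfold op
    rw [← lintegral_const_mul _ (by fun_prop)]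
    apply lintegral_congr
    intro y
    show p (x - y) * (F x * G y) = F x * (p (x - y) * G y)
    ring
  have key1 : ∀ F : V → ℝ≥0∞, Measurable F →
      ∫⁻ z : V × V, p (z.1 - z.2) * F z.1 ∂(volume.prod volume) = m * ∫⁻ x, F x := by
    intro F hF
    have := key F 1 hF measurable_one
    simp only [Pi.one_apply, mul_one] at this
    rw [this]
    have h2 : ∀ x : V, op p (1 : V → ℝ≥0∞) x = m := by
      intro x
      unfold op
      simp only [Pi.one_apply, mul_one]
      rw [lintegral_kernel_left]
    simp_rw [h2]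
    rw [lintegral_mul_const _ hF, mul_comm]
  have key2 : ∀ F : V → ℝ≥0∞, Measurable F →
      ∫⁻ z : V × V, p (z.1 - z.2) * F z.2 ∂(volume.prod volume) = m * ∫⁻ x, F x := by
    intro F hF
    have := key 1 F measurable_one hF
    simp only [Pi.one_apply, one_mul] at this
    rw [this, lintegral_op hp.meas hF]
  have pt : ∀ a b c d : ℝ≥0∞, a ≤ 1 → b ≤ 1 → c ≤ 1 → d ≤ 1 →
      2 * (a * c) + 2 * (b * d) + 2 * (a * b) + 2 * (c * d) ≤
        a * a + b * b + c * c + d * d + 2 * (a * d) + 2 * (c * b) := by
    intro a b c d ha hb hc hd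
    lift a to NNReal using (ha.trans_lt ENNReal.one_lt_top).ne
    lift b to NNReal using (hb.trans_lt ENNReal.one_lt_top).ne
    lift c to NNReal using (hc.trans_lt ENNReal.one_lt_top).ne
    lift d to NNReal using (hd.trans_lt ENNReal.one_lt_top).ne
    norm_cast
    rw [← NNReal.coe_le_coe]
    push_cast
    nlinarith [sq_nonneg (((a : ℝ) - c) - (b - d))]
  have main : 2 * (m * ∫⁻ x, f x * g x) + 2 * (m * ∫⁻ x, f x * g x) +
      2 * (∫⁻ x, f x * op p f x) + 2 * (∫⁻ x, g x * op p g x) ≤
      m * (∫⁻ x, f x * f x) + m * (∫⁻ x, f x * f x) + m * (∫⁻ x, g x * g x) +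
        m * (∫⁻ x, g x * g x) + 2 * (∫⁻ x, f x * op p g x) + 2 * (∫⁻ x, g x * op p f x) := by
    rw [← key f f hf hf, ← key g g hg hg, ← key f g hf hg, ← key g f hg hf]
    have e1 := key1 (fun x => f x * g x) (hf.mul hg)
    have e2 := key2 (fun x => f x * g x) (hf.mul hg)
    have e3 := key1 (fun x => f x * f x) (hf.mul hf)
    have e4 := key2 (fun x => f x * f x) (hf.mul hf)
    have e5 := key1 (fun x => g x * g x) (hg.mul hg)
    have e6 := key2 (fun x => g x * g x) (hg.mul hg)
    have mf1 : Measurable fun z : V × V => f z.1 := hf.comp measurable_fst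
    have mf2 : Measurable fun z : V × V => f z.2 := hf.comp measurable_snd
    have mg1 : Measurable fun z : V × V => g z.1 := hg.comp measurable_fst
    have mg2 : Measurable fun z : V × V => g z.2 := hg.comp measurable_snd
    have lhs : 2 * (m * ∫⁻ x, f x * g x) + 2 * (m * ∫⁻ x, f x * g x) +
        2 * (∫⁻ z : V × V, p (z.1 - z.2) * (f z.1 * f z.2) ∂(volume.prod volume)) +
        2 * (∫⁻ z : V × V, p (z.1 - z.2) * (g z.1 * g z.2) ∂(volume.prod volume)) =
        ∫⁻ z : V × V, p (z.1 - z.2) * (2 * (f z.1 * g z.1) + 2 * (f z.2 * g z.2) +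
          2 * (f z.1 * f z.2) + 2 * (g z.1 * g z.2)) ∂(volume.prod volume) := by
      calc _ = 2 * (∫⁻ z : V × V, p (z.1 - z.2) * (f z.1 * g z.1) ∂(volume.prod volume)) +
          2 * (∫⁻ z : V × V, p (z.1 - z.2) * (f z.2 * g z.2) ∂(volume.prod volume)) +
          2 * (∫⁻ z : V × V, p (z.1 - z.2) * (f z.1 * f z.2) ∂(volume.prod volume)) +
          2 * (∫⁻ z : V × V, p (z.1 - z.2) * (g z.1 * g z.2) ∂(volume.prod volume)) := by
            rw [e1, e2]
        _ = _ := by
          rw [← lintegral_const_mul _ (by fun_prop), ← lintegral_const_mul _ (by fun_prop),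
            ← lintegral_const_mul _ (by fun_prop), ← lintegral_const_mul _ (by fun_prop),
            ← lintegral_add_left (by fun_prop), ← lintegral_add_left (by fun_prop),
            ← lintegral_add_left (by fun_prop)]
          apply lintegral_congr
          intro z
          ring
    have rhs : m * (∫⁻ x, f x * f x) + m * (∫⁻ x, f x * f x) + m * (∫⁻ x, g x * g x) +
        m * (∫⁻ x, g x * g x) +
        2 * (∫⁻ z : V × V, p (z.1 - z.2) * (f z.1 * g z.2) ∂(volume.prod volume)) +
        2 * (∫⁻ z : V × V, p (z.1 - z.2) * (g z.1 * f z.2) ∂(volume.prod volume)) =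
        ∫⁻ z : V × V, p (z.1 - z.2) * (f z.1 * f z.1 + f z.2 * f z.2 + g z.1 * g z.1 +
          g z.2 * g z.2 + 2 * (f z.1 * g z.2) + 2 * (g z.1 * f z.2)) ∂(volume.prod volume) := by
      calc _ = (∫⁻ z : V × V, p (z.1 - z.2) * (f z.1 * f z.1) ∂(volume.prod volume)) +
          (∫⁻ z : V × V, p (z.1 - z.2) * (f z.2 * f z.2) ∂(volume.prod volume)) +
          (∫⁻ z : V × V, p (z.1 - z.2) * (g z.1 * g z.1) ∂(volume.prod volume)) +
          (∫⁻ z : V × V, p (z.1 - z.2) * (g z.2 * g z.2) ∂(volume.prod volume)) +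
          2 * (∫⁻ z : V × V, p (z.1 - z.2) * (f z.1 * g z.2) ∂(volume.prod volume)) +
          2 * (∫⁻ z : V × V, p (z.1 - z.2) * (g z.1 * f z.2) ∂(volume.prod volume)) := by
            rw [e3, e4, e5, e6]
        _ = _ := by
          rw [← lintegral_const_mul _ (by fun_prop), ← lintegral_const_mul _ (by fun_prop),
            ← lintegral_add_left (by fun_prop), ← lintegral_add_left (by fun_prop),
            ← lintegral_add_left (by fun_prop), ← lintegral_add_left (by fun_prop),
            ← lintegral_add_left (by fun_prop)]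
          apply lintegral_congr
          intro z
          ring
    rw [lhs, rhs]
    apply lintegral_mono
    intro z
    exact mul_le_mul_right (pt _ _ _ _ (hf1 _) (hf1 _) (hg1 _) (hg1 _)) _
  rw [op_symm hp hg hf] at main
  -- the killed part
  have kill : 2 * ∫⁻ x, f x * g x ≤ (∫⁻ x, f x * f x) + ∫⁻ x, g x * g x := by
    rw [← lintegral_const_mul _ (by fun_prop), ← lintegral_add_left (by fun_prop)]
    apply lintegral_mono
    intro x
    show 2 * (f x * g x) ≤ f x * f x + g x * g x
    have ha := hf1 x
    have hb := hg1 x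
    generalize f x = a at *
    generalize g x = b at *
    lift a to NNReal using (ha.trans_lt ENNReal.one_lt_top).ne
    lift b to NNReal using (hb.trans_lt ENNReal.one_lt_top).ne
    norm_cast
    rw [← NNReal.coe_le_coe]
    push_cast
    nlinarith [sq_nonneg ((a : ℝ) - b)]
  -- combine
  set A := ∫⁻ x, f x * g x
  set X := ∫⁻ x, f x * f x
  set Y := ∫⁻ x, g x * g x
  set P := ∫⁻ x, f x * op p f x
  set Q := ∫⁻ x, g x * op p g x
  set R := ∫⁻ x, f x * op p g x
  have hk : (1 - m) * (2 * A) ≤ (1 - m) * (X + Y) := mul_le_mul_right kill _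
  have e : (1 - m) + m = 1 := tsub_add_cancel_of_le hm1.le
  have h4 : 2 * (2 * A + P + Q) ≤ 2 * (X + Y + 2 * R) := by
    calc 2 * (2 * A + P + Q) = 2 * (((1 - m) + m) * (2 * A) + P + Q) := by rw [e, one_mul]
      _ = 2 * ((1 - m) * (2 * A)) + (2 * (m * A) + 2 * (m * A) + 2 * P + 2 * Q) := by ring
      _ ≤ 2 * ((1 - m) * (X + Y)) + (m * X + m * X + m * Y + m * Y + 2 * R + 2 * R) := by
          gcongr
      _ = 2 * (((1 - m) + m) * (X + Y) + 2 * R) := by ring
      _ = 2 * (X + Y + 2 * R) := by rw [e, one_mul]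
  exact (ENNReal.mul_le_mul_iff_right (by norm_num) (by norm_num)).1 h4

theorem pot_sq (hp : Ker p) (hE : MeasurableSet E) :
    ∫⁻ x, pot p E x * pot p E x = (∫⁻ x, pot p E x * op p (pot p E) x) + cap p E := by
  have hpp : Measurable p := hp.meas
  have hu := measurable_pot hpp hE
  have hc := measurable_chg hpp hE
  have ho := measurable_op hpp hu
  unfold cap
  rw [← lintegral_add_left (by fun_prop)]
  apply lintegral_congr
  intro x
  have h1 : chg p E x = pot p E x * chg p E x := by
    by_cases hx : x ∈ E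
    · rw [pot_on hx, one_mul]
    · rw [chg_off hx, mul_zero]
  rw [h1, ← mul_add, ← pot_eq hp hE]

theorem pot_mul (hp : Ker p) (hE : MeasurableSet E) {w : V → ℝ≥0∞} (hw : Measurable w)
    (hwE : ∀ x ∈ E, w x = 1) :
    ∫⁻ x, pot p E x * w x = (∫⁻ x, pot p E x * op p w x) + cap p E := by
  have hpp : Measurable p := hp.meas
  have hu := measurable_pot hpp hE
  have hc := measurable_chg hpp hE
  have ho := measurable_op hpp hu
  rw [op_symm hp hu hw]
  unfold cap
  rw [← lintegral_add_left (by fun_prop)]
  apply lintegral_congr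
  intro x
  have h1 : chg p E x = w x * chg p E x := by
    by_cases hx : x ∈ E
    · rw [hwE x hx, one_mul]
    · rw [chg_off hx, mul_zero]
  rw [h1, ← mul_add, ← pot_eq hp hE, mul_comm]

theorem form_lt_top (hp : Ker p) (hE : MeasurableSet E) (hv : volume E ≠ ∞) {w : V → ℝ≥0∞}
    (hw1 : ∀ x, w x ≤ 1) : ∫⁻ x, pot p E x * op p w x < ∞ := by
  refine lt_of_le_of_lt ?_ (lintegral_pot_lt_top hp hE hv)
  apply lintegral_mono
  intro x
  calc pot p E x * op p w x ≤ pot p E x * 1 :=
        mul_le_mul_right ((op_le_mass hw1 x).trans hp.mass.le) _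
    _ = _ := mul_one _

/-- the variational inequality for the capacity -/
theorem cap_add_le (hp : Ker p) (hE : MeasurableSet E) (hv : volume E ≠ ∞) {w : V → ℝ≥0∞}
    (hw : Measurable w) (hw1 : ∀ x, w x ≤ 1) (hwE : ∀ x ∈ E, w x = 1) :
    cap p E + (∫⁻ x, w x * op p w x) ≤ ∫⁻ x, w x * w x := by
  have hu := measurable_pot hp.meas hE
  have h := form_nonneg hp hu hw (pot_le_one hp) hw1
  rw [pot_sq hp hE, pot_mul hp hE hw hwE] at h
  have f1 := form_lt_top hp hE hv hw1
  have f2 := form_lt_top hp hE hv (pot_le_one (E := E) hp)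
  have f3 : cap p E < ∞ := (cap_le E hE).trans_lt hv.lt_top
  set P := ∫⁻ x, pot p E x * op p (pot p E) x
  set R := ∫⁻ x, pot p E x * op p w x
  set C := cap p E
  set B := ∫⁻ x, w x * op p w x
  set A := ∫⁻ x, w x * w x
  have h2 : (P + C + 2 * R) + (C + B) ≤ (P + C + 2 * R) + A := by
    calc (P + C + 2 * R) + (C + B) = 2 * (R + C) + P + B := by ring
      _ ≤ _ := h
      _ = _ := by ring
  refine (ENNReal.add_le_add_iff_left ?_).1 h2
  exact (ENNReal.add_lt_top.2 ⟨ENNReal.add_lt_top.2 ⟨f2, f3⟩,
    ENNReal.mul_lt_top (by norm_num) f1⟩).ne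

/-- comparison of the capacities of two sets by a test function -/
theorem cap_le_of_test (hp : Ker p) {F : Set V} (hE : MeasurableSet E) (hv : volume E ≠ ∞)
    (hF : MeasurableSet F) (hvF : volume F ≠ ∞) {w : V → ℝ≥0∞} {r : ℝ≥0∞}
    (hw : Measurable w) (hw1 : ∀ x, w x ≤ 1) (hwF : ∀ x ∈ F, w x = 1)
    (h1 : ∫⁻ x, w x * w x ≤ (∫⁻ x, pot p E x * pot p E x) + r)
    (h2 : ∫⁻ x, pot p E x * op p (pot p E) x ≤ ∫⁻ x, w x * op p w x) :
    cap p F ≤ cap p E + r := by
  have h3 := cap_add_le hp hF hvF hw hw1 hwF
  rw [pot_sq hp hE] at h1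
  have f2 := form_lt_top hp hE hv (pot_le_one (E := E) hp)
  set P := ∫⁻ x, pot p E x * op p (pot p E) x
  have h4 : P + cap p F ≤ P + (cap p E + r) := by
    calc P + cap p F ≤ (∫⁻ x, w x * op p w x) + cap p F := by gcongr
      _ = cap p F + (∫⁻ x, w x * op p w x) := add_comm _ _
      _ ≤ _ := h3
      _ ≤ _ := h1
      _ = _ := by ring
  exact (ENNReal.add_le_add_iff_left f2.ne).1 h4

/-- the capacity changes little if a small set is added -/
theorem cap_le_add_diff (hp : Ker p) {F : Set V} (hE : MeasurableSet E) (hv : volume E ≠ ∞)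
    (hF : MeasurableSet F) (hvF : volume F ≠ ∞) : cap p F ≤ cap p E + volume (F \ E) := by
  classical
  set w : V → ℝ≥0∞ := fun x => max (pot p E x) (F.indicator 1 x) with hwdef
  have hu := measurable_pot hp.meas hE
  have hw : Measurable w := hu.max (measurable_one.indicator hF)
  apply cap_le_of_test hp hE hv hF hvF (w := w) hw
  · intro x
    apply max_le (pot_le_one hp x)
    by_cases hx : x ∈ F
    · simp [hx]
    · simp [hx]
  · intro x hx
    simp only [hwdef, indicator_of_mem hx, Pi.one_apply]
    exact max_eq_right (pot_le_one hp x)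
  · rw [← lintegral_indicator_one (hF.diff hE), ← lintegral_add_left (by fun_prop)]
    apply lintegral_mono
    intro x
    show w x * w x ≤ pot p E x * pot p E x + (F \ E).indicator 1 x
    by_cases hxE : x ∈ E
    · have : w x ≤ 1 := by
        apply max_le (pot_le_one hp x)
        by_cases hx : x ∈ F
        · simp [hx]
        · simp [hx]
      rw [pot_on hxE]
      calc w x * w x ≤ 1 * 1 := mul_le_mul' this this
        _ ≤ _ := le_self_add
    · by_cases hxF : x ∈ F
      · have h1 : w x = 1 := by
          simp only [hwdef, indicator_of_mem hxF, Pi.one_apply]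
          exact max_eq_right (pot_le_one hp x)
        have h2 : x ∈ F \ E := ⟨hxF, hxE⟩
        rw [h1, indicator_of_mem h2]
        simp
      · have h1 : w x = pot p E x := by
          simp only [hwdef, indicator_of_notMem hxF]
          exact max_eq_left zero_le
        rw [h1]
        exact le_self_add
  · apply lintegral_mono
    intro x
    exact mul_le_mul' (le_max_left _ _) (op_mono (fun y => le_max_left _ _) x)

end var

end Pool.Agent.K4H28.HP
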