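import Pool.Agent.K4H28.HP.Xray

set_option autoImplicit false
set_option linter.unusedSectionVars false

/-!
The extremal density of the ball and the codimension one inequality.
-/

open MeasureTheory Set Filter Topology Metric
open scoped ENNReal RealInnerProductSpace

namespace Pool.Agent.K4H28.HP

/-- the arcsine integral -/
theorem arcsine {a : ℝ} (ha : 0 < a) :
    ∫⁻ s in Ioo (-a) a, ENNReal.ofReal ((Real.sqrt (a ^ 2 - s ^ 2))⁻¹) =
      ENNReal.ofReal Real.pi := by
  have him : (fun θ : ℝ => a * Real.sin θ) '' Ioo (-(Real.pi / 2)) (Real.pi / 2) = Ioo (-a) a := by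
    ext s
    simp only [mem_image, mem_Ioo]
    constructor
    · rintro ⟨θ, ⟨h1, h2⟩, rfl⟩
      have h3 : Real.sin θ < 1 := by
        rw [← Real.sin_pi_div_two]
        exact Real.sin_lt_sin_of_lt_of_le_pi_div_two (by linarith) le_rfl h2
      have h4 : -1 < Real.sin θ := by
        have : Real.sin (-(Real.pi / 2)) < Real.sin θ :=
          Real.sin_lt_sin_of_lt_of_le_pi_div_two (by linarith) h2.le h1
        rwa [Real.sin_neg, Real.sin_pi_div_two] at this
      constructor <;> nlinarith
    · rintro ⟨h1, h2⟩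
      have h3 : -1 < s / a := by rw [lt_div_iff₀ ha]; linarith
      have h4 : s / a < 1 := by rw [div_lt_iff₀ ha]; linarith
      refine ⟨Real.arcsin (s / a), ⟨?_, ?_⟩, ?_⟩
      · exact Real.neg_pi_div_two_lt_arcsin.2 h3
      · exact Real.arcsin_lt_pi_div_two.2 h4
      · rw [Real.sin_arcsin h3.le h4.le]
        field_simp
  rw [← him, lintegral_image_eq_lintegral_abs_deriv_mul (f' := fun θ => a * Real.cos θ)
    measurableSet_Ioo]
  · calc ∫⁻ θ in Ioo (-(Real.pi / 2)) (Real.pi / 2), ENNReal.ofReal |a * Real.cos θ| *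
          ENNReal.ofReal ((Real.sqrt (a ^ 2 - (a * Real.sin θ) ^ 2))⁻¹)
        = ∫⁻ _ in Ioo (-(Real.pi / 2)) (Real.pi / 2), 1 := by
          apply setLIntegral_congr_fun measurableSet_Ioo
          intro θ hθ
          have hc : 0 < Real.cos θ := Real.cos_pos_of_mem_Ioo hθ
          show ENNReal.ofReal |a * Real.cos θ| *
            ENNReal.ofReal ((Real.sqrt (a ^ 2 - (a * Real.sin θ) ^ 2))⁻¹) = 1
          have e1 : a ^ 2 - (a * Real.sin θ) ^ 2 = (a * Real.cos θ) ^ 2 := by
            have := Real.sin_sq_add_cos_sq θ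
            nlinarith
          rw [e1, Real.sqrt_sq (by positivity), abs_of_pos (by positivity),
            ← ENNReal.ofReal_mul (by positivity), mul_inv_cancel₀ (by positivity),
            ENNReal.ofReal_one]
      _ = ENNReal.ofReal Real.pi := by
          rw [setLIntegral_const, one_mul, Real.volume_Ioo]
          congr 1
          ring
  · intro θ _
    exact ((Real.hasDerivAt_sin θ).const_mul a).hasDerivWithinAt
  · intro x hx y hy hxy
    have h1 : Real.sin x = Real.sin y := mul_left_cancel₀ ha.ne' hxy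
    exact Real.injOn_sin ⟨hx.1.le, hx.2.le⟩ ⟨hy.1.le, hy.2.le⟩ h1

variable {U : Type*} [NormedAddCommGroup U] [InnerProductSpace ℝ U] [FiniteDimensional ℝ U]
  [MeasurableSpace U] [BorelSpace U]
variable {W : Type*} [NormedAddCommGroup W] [InnerProductSpace ℝ W] [FiniteDimensional ℝ W]
  [MeasurableSpace W] [BorelSpace W]

/-- the extremal function of the ball of radius `R` -/
noncomputable def kk (R : ℝ) (x : W) : ℝ≥0∞ :=
  (ball (0 : W) R).indicator (fun x => ENNReal.ofReal ((Real.sqrt (R ^ 2 - ‖x‖ ^ 2))⁻¹)) x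

/-- its truncation -/
noncomputable def kj (R : ℝ) (j : ℕ) (x : W) : ℝ≥0∞ := min (kk R x) j

theorem measurable_kk (R : ℝ) : Measurable (kk R : W → ℝ≥0∞) := by
  unfold kk
  apply Measurable.indicator _ measurableSet_ball
  fun_prop

theorem measurable_kj (R : ℝ) (j : ℕ) : Measurable (kj R j : W → ℝ≥0∞) :=
  (measurable_kk R).min measurable_const

theorem kk_off {R : ℝ} {x : W} (hx : x ∉ ball (0 : W) R) : kk R x = 0 := by
  unfold kk
  rw [indicator_of_notMem hx]

theorem kj_off {R : ℝ} (j : ℕ) {x : W} (hx : x ∉ ball (0 : W) R) : kj R j x = 0 := by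
  unfold kj
  rw [kk_off hx]
  exact min_eq_left zero_le

theorem kk_ap (R : ℝ) (h : OG W) (x : W) : kk R (ap h x) = kk R x := by
  unfold kk
  by_cases hx : x ∈ ball (0 : W) R
  · have hx' : ap h x ∈ ball (0 : W) R := by
      rw [mem_ball_zero_iff] at *
      rwa [ap_norm]
    rw [indicator_of_mem hx, indicator_of_mem hx', ap_norm]
  · have hx' : ap h x ∉ ball (0 : W) R := by
      rw [mem_ball_zero_iff] at *
      rwa [ap_norm]
    rw [indicator_of_notMem hx, indicator_of_notMem hx']

theorem kj_ap (R : ℝ) (j : ℕ) (h : OG W) (x : W) : kj R j (ap h x) = kj R j x := by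
  unfold kj
  rw [kk_ap]

section

variable (Ψ : WithLp 2 (U × ℝ) ≃ₗᵢ[ℝ] W)

/-- line integrals of the extremal function -/
theorem line_kk {R : ℝ} (hR : 0 < R) (y : U) :
    ∫⁻ s : ℝ, kk R (pt Ψ y s) = (ball (0 : U) R).indicator (fun _ => ENNReal.ofReal Real.pi) y := by
  by_cases hy : y ∈ ball (0 : U) R
  · rw [indicator_of_mem hy]
    rw [mem_ball_zero_iff] at hy
    have hpos : 0 < R ^ 2 - ‖y‖ ^ 2 := by nlinarith [norm_nonneg y]
    set a := Real.sqrt (R ^ 2 - ‖y‖ ^ 2) with ha
    have ha0 : 0 < a := Real.sqrt_pos.2 hpos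
    have ha2 : a ^ 2 = R ^ 2 - ‖y‖ ^ 2 := Real.sq_sqrt hpos.le
    rw [← arcsine ha0, ← lintegral_indicator measurableSet_Ioo]
    apply lintegral_congr
    intro s
    have hn := norm_pt_sq Ψ y s
    unfold kk
    by_cases hs : s ∈ Ioo (-a) a
    · have hm : pt Ψ y s ∈ ball (0 : W) R := by
        rw [mem_ball_zero_iff]
        have h1 : s ^ 2 < a ^ 2 := sq_lt_sq' hs.1 hs.2
        have h2 : ‖pt Ψ y s‖ ^ 2 < R ^ 2 := by rw [hn]; linarith
        exact lt_of_pow_lt_pow_left₀ 2 hR.le h2
      rw [indicator_of_mem hs, indicator_of_mem hm, hn, ha2]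
      congr 3
      ring
    · have hm : pt Ψ y s ∉ ball (0 : W) R := by
        rw [mem_ball_zero_iff]
        intro h1
        apply hs
        have h2 : ‖pt Ψ y s‖ ^ 2 < R ^ 2 := by
          have := norm_nonneg (pt Ψ y s)
          gcongr
        rw [hn] at h2
        have h3 : s ^ 2 < a ^ 2 := by linarith
        exact abs_lt.1 (abs_lt_of_sq_lt_sq h3 ha0.le)
      rw [indicator_of_notMem hs, indicator_of_notMem hm]
  · rw [indicator_of_notMem hy, ← lintegral_zero (μ := (volume : Measure ℝ))]
    apply lintegral_congr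
    intro s
    apply kk_off
    rw [mem_ball_zero_iff] at *
    intro h1
    apply hy
    have hn := norm_pt_sq Ψ y s
    have h2 : ‖pt Ψ y s‖ ^ 2 < R ^ 2 := by
      have := norm_nonneg (pt Ψ y s)
      gcongr
    have h3 : ‖y‖ ^ 2 < R ^ 2 := by nlinarith [sq_nonneg s]
    exact lt_of_pow_lt_pow_left₀ 2 hR.le h3

include Ψ in
theorem total_kk {R : ℝ} (hR : 0 < R) :
    ∫⁻ x : W, kk R x = ENNReal.ofReal Real.pi * volume (ball (0 : U) R) := by
  have hm2 : Measurable fun z : U × ℝ => kk R (pt Ψ z.1 z.2) :=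
    (measurable_kk R).comp (measurable_pt Ψ)
  rw [← (pt_mp Ψ).lintegral_comp (measurable_kk R), Measure.volume_eq_prod,
    lintegral_prod _ hm2.aemeasurable]
  simp_rw [line_kk Ψ hR]
  rw [lintegral_indicator_const measurableSet_ball]

include Ψ in
theorem total_kj_sup {R : ℝ} (hR : 0 < R) :
    ⨆ j : ℕ, ∫⁻ x : W, kj R j x = ENNReal.ofReal Real.pi * volume (ball (0 : U) R) := by
  rw [← total_kk Ψ hR, ← lintegral_iSup]
  · apply lintegral_congr
    intro x
    unfold kj
    apply le_antisymm
    · exact iSup_le fun j => min_le_left _ _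
    · have hfin : kk R x ≠ ∞ := by
        unfold kk
        by_cases hx : x ∈ ball (0 : W) R
        · rw [indicator_of_mem hx]; exact ENNReal.ofReal_ne_top
        · rw [indicator_of_notMem hx]; exact ENNReal.zero_ne_top
      obtain ⟨j, hj⟩ := ENNReal.exists_nat_gt hfin
      refine le_trans ?_ (le_iSup _ j)
      exact le_min le_rfl hj.le
  · intro j
    exact measurable_kj R j
  · intro i j hij x
    exact min_le_min le_rfl (by exact_mod_cast hij)

theorem kj_total_lt_top (R : ℝ) (j : ℕ) : ∫⁻ x : W, kj R j x < ∞ := by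
  calc ∫⁻ x : W, kj R j x ≤ ∫⁻ x : W, (ball (0 : W) R).indicator (fun _ => (j : ℝ≥0∞)) x := by
        apply lintegral_mono
        intro x
        by_cases hx : x ∈ ball (0 : W) R
        · rw [indicator_of_mem hx]; exact min_le_right _ _
        · rw [kj_off j hx]; exact zero_le
    _ = j * volume (ball (0 : W) R) := lintegral_indicator_const measurableSet_ball _
    _ < ∞ := ENNReal.mul_lt_top (ENNReal.natCast_lt_top j) measure_ball_lt_top

theorem xr_kj_le {R : ℝ} (hR : 0 < R) (j : ℕ) (h : OG W) (c : ℝ≥0∞) (y : U) :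
    xr Ψ h (fun x => c * kj R j x) y ≤ c * ENNReal.ofReal Real.pi := by
  unfold xr
  have m1 : Measurable fun s : ℝ => kk R (pt Ψ y s) :=
    (measurable_kk R).comp ((measurable_pt Ψ).comp (measurable_const.prodMk measurable_id))
  calc ∫⁻ s : ℝ, c * kj R j (ap h (pt Ψ y s)) ≤ ∫⁻ s : ℝ, c * kk R (pt Ψ y s) := by
        apply lintegral_mono
        intro s
        show c * kj R j (ap h (pt Ψ y s)) ≤ c * kk R (pt Ψ y s)
        rw [kj_ap]
        exact mul_le_mul_right (min_le_left _ _) _
    _ = c * ∫⁻ s : ℝ, kk R (pt Ψ y s) := lintegral_const_mul _ m1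
    _ ≤ c * ENNReal.ofReal Real.pi := by
        rw [line_kk Ψ hR]
        refine mul_le_mul_right ?_ _
        by_cases hy : y ∈ ball (0 : U) R
        · rw [indicator_of_mem hy]
        · rw [indicator_of_notMem hy]; exact zero_le

include Ψ in
/-- Riesz energy of the truncated extremal densities -/
theorem ri_kj_le {R : ℝ} (hR : 0 < R) (j : ℕ) {c : ℝ≥0∞} (hc1 : c * ∫⁻ x : W, kj R j x = 1) :
    2 * ri (fun x : W => c * kj R j x) ≤
      (volume : Measure W).toSphere univ * (c * ENNReal.ofReal Real.pi) := by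
  have hm := measurable_kj (W := W) R j
  have hcm : Measurable fun x : W => c * kj R j x := by fun_prop
  rw [← avg_xr_sq Ψ hcm]
  gcongr
  calc ∫⁻ h, (∫⁻ y, xr Ψ h (fun x => c * kj R j x) y * xr Ψ h (fun x => c * kj R j x) y) ∂(rot W)
      ≤ ∫⁻ _ : OG W, c * ENNReal.ofReal Real.pi ∂(rot W) := by
        apply lintegral_mono
        intro h
        calc ∫⁻ y, xr Ψ h (fun x => c * kj R j x) y * xr Ψ h (fun x => c * kj R j x) y
            ≤ ∫⁻ y, (c * ENNReal.ofReal Real.pi) * xr Ψ h (fun x => c * kj R j x) y := by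
              apply lintegral_mono
              intro y
              exact mul_le_mul_left (xr_kj_le Ψ hR j h c y) _
          _ = c * ENNReal.ofReal Real.pi := by
              rw [lintegral_const_mul _ (measurable_xr Ψ h hcm), lintegral_xr Ψ h hcm,
                lintegral_const_mul _ hm, hc1, mul_one]
    _ = c * ENNReal.ofReal Real.pi := by rw [lintegral_const, measure_univ, mul_one]

/-- **The codimension one inequality**, for compact sets with the volume of a ball. -/
theorem codim_one (hn : 2 ≤ Module.finrank ℝ W) {R : ℝ} (hR : 0 < R) {E : Set W}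
    (hE : IsCompact E) (hvol : volume E = volume (ball (0 : W) R)) :
    ∫⁻ h, (volume ((fun x => pr Ψ (ap h⁻¹ x)) '' E))⁻¹ ∂(rot W) ≤
      (volume (ball (0 : U) R))⁻¹ := by
  have hnt : Nontrivial W := Module.nontrivial_of_finrank_pos (R := ℝ) (by omega)
  obtain ⟨D, hD⟩ := hE.isBounded.subset_closedBall (0 : W)
  set ω := (volume : Measure W).toSphere univ with hω
  have hω0 : ω ≠ 0 := toSphere_ne_zero'
  have hωt : ω ≠ ∞ := toSphere_ne_top
  set A := ∫⁻ h, (volume ((fun x => pr Ψ (ap h⁻¹ x)) '' E))⁻¹ ∂(rot W) with hA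
  have hpi : ENNReal.ofReal Real.pi ≠ 0 := (ENNReal.ofReal_pos.2 Real.pi_pos).ne'
  -- bound for every truncation
  have key : ∀ j : ℕ, 1 ≤ j → A * ∫⁻ x : W, kj R j x ≤ ENNReal.ofReal Real.pi := by
    intro j hj
    set T := ∫⁻ x : W, kj R j x with hT
    have hTt : T ≠ ∞ := (kj_total_lt_top R j).ne
    have hT0 : T ≠ 0 := by
      rw [hT, ne_eq, lintegral_eq_zero_iff (measurable_kj R j)]
      intro h0
      have h1 : volume (ball (0 : W) R) = 0 := by
        have h2 : ∀ᵐ x : W, kj R j x = 0 := h0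
        rw [ae_iff] at h2
        refine measure_mono_null ?_ h2
        intro x hx
        show ¬ kj R j x = 0
        unfold kj kk
        rw [indicator_of_mem hx]
        rw [mem_ball_zero_iff] at hx
        have h3 : 0 < R ^ 2 - ‖x‖ ^ 2 := by nlinarith [norm_nonneg x]
        have h4 : 0 < (Real.sqrt (R ^ 2 - ‖x‖ ^ 2))⁻¹ := by positivity
        apply ne_of_gt
        apply lt_min (ENNReal.ofReal_pos.2 h4)
        exact_mod_cast hj
      exact (measure_ball_pos volume (0 : W) hR).ne' h1
    set c := T⁻¹ with hc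
    have hc1 : c * T = 1 := ENNReal.inv_mul_cancel hT0 hTt
    have hct : c ≠ ∞ := ENNReal.inv_ne_top.2 hT0
    have hm := measurable_kj (W := W) R j
    set f : W → ℝ≥0∞ := fun x => c * kj R j x with hf
    have hfm : Measurable f := by fun_prop
    have hf1 : ∫⁻ x, f x = 1 := by
      rw [hf, lintegral_const_mul _ hm]
      exact hc1
    have hf2 : ∫⁻ x, f x * f x ≠ ∞ := by
      have h1 : ∫⁻ x, f x * f x ≤ (c * j) * ∫⁻ x, f x := by
        rw [← lintegral_const_mul _ hfm]
        apply lintegral_mono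
        intro x
        refine mul_le_mul_left ?_ _
        exact mul_le_mul_right (min_le_right _ _) _
      rw [hf1, mul_one] at h1
      exact (h1.trans_lt (ENNReal.mul_lt_top hct.lt_top (ENNReal.natCast_lt_top j))).ne
    have hfB : ∀ x, x ∉ ball (0 : W) R → f x = 0 := by
      intro x hx
      rw [hf]
      show c * kj R j x = 0
      rw [kj_off j hx, mul_zero]
    have hri := ri_kj_le Ψ hR j (c := c) hc1
    -- comparison
    have hcmp : ω * A ≤ 2 * ri f := by
      apply le_of_forall_gt
      intro L hL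
      have h1 : ri f < L / 2 := by
        rw [ENNReal.lt_div_iff_mul_lt (Or.inl (by norm_num)) (Or.inl (by norm_num)), mul_comm]
        exact hL
      obtain ⟨L', h2, h3⟩ := exists_between h1
      obtain ⟨ρ, hρm, hρE, hρ1, hρL⟩ := exists_density hn hR hE.measurableSet hD hvol hfm hfB hf1
        hf2 h2
      calc ω * A ≤ ω * ∫⁻ h, (∫⁻ y, xr Ψ h ρ y * xr Ψ h ρ y) ∂(rot W) := by
            gcongr
            apply lintegral_mono
            intro h
            exact inv_shadow_le Ψ h hρm hE hρE hρ1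
        _ = 2 * ri ρ := avg_xr_sq Ψ hρm
        _ ≤ 2 * L' := by gcongr
        _ < L := by
            rw [ENNReal.lt_div_iff_mul_lt (Or.inl (by norm_num)) (Or.inl (by norm_num))] at h3
            rwa [mul_comm]
    have h5 : ω * A ≤ ω * (c * ENNReal.ofReal Real.pi) := hcmp.trans hri
    have h6 : A ≤ c * ENNReal.ofReal Real.pi := (ENNReal.mul_le_mul_iff_right hω0 hωt).1 h5
    calc A * T ≤ (c * ENNReal.ofReal Real.pi) * T := by gcongr
      _ = (c * T) * ENNReal.ofReal Real.pi := by ring
      _ = _ := by rw [hc1, one_mul]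
  have hsup : A * (ENNReal.ofReal Real.pi * volume (ball (0 : U) R)) ≤ ENNReal.ofReal Real.pi := by
    rw [← total_kj_sup Ψ hR, ENNReal.mul_iSup]
    apply iSup_le
    intro j
    rcases Nat.eq_zero_or_pos j with rfl | hj
    · have h0 : ∫⁻ x : W, kj R 0 x = 0 := by
        rw [← lintegral_zero (μ := (volume : Measure W))]
        apply lintegral_congr
        intro x
        unfold kj
        simp
      rw [h0, mul_zero]
      exact zero_le
    · exact key j hj
  have hb0 : volume (ball (0 : U) R) ≠ 0 := (measure_ball_pos volume (0 : U) hR).ne'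
  have hbt : volume (ball (0 : U) R) ≠ ∞ := measure_ball_lt_top.ne
  rw [← mul_assoc, mul_comm A, mul_assoc] at hsup
  have h7 : A * volume (ball (0 : U) R) ≤ 1 := by
    have : ENNReal.ofReal Real.pi * (A * volume (ball (0 : U) R)) ≤ ENNReal.ofReal Real.pi * 1 := by
      rw [mul_one]; exact hsup
    exact (ENNReal.mul_le_mul_iff_right hpi ENNReal.ofReal_ne_top).1 this
  rw [ENNReal.le_inv_iff_mul_le]
  exact h7

end

end Pool.Agent.K4H28.HP
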