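import Mathlib

set_option autoImplicit false

/-!
Kaluza's lemma on reciprocals of power series with log-convex coefficients, and the renewal
sequence `√(j+1) - √j`.
-/

open Finset
open scoped ENNReal

namespace Pool.Agent.K4H28.HP

theorem kaluza (c : ℕ → ℝ) (c0 : c 0 = 1) (pos : ∀ n, 0 < c n)
    (lc : ∀ n, c (n + 1) ^ 2 ≤ c n * c (n + 2)) :
    ∃ f : ℕ → ℝ, f 0 = 0 ∧ (∀ n, 0 ≤ f n) ∧
      ∀ m, c (m + 1) = ∑ ij ∈ antidiagonal (m + 1), f ij.1 * c ij.2 := by
  -- the ratios increase
  have ratio1 : ∀ n, c (n + 1) / c n ≤ c (n + 2) / c (n + 1) := by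
    intro n
    rw [div_le_div_iff₀ (pos _) (pos _)]
    have := lc n
    nlinarith
  have ratio : ∀ k m, k ≤ m → c (k + 1) / c k ≤ c (m + 1) / c m := by
    intro k m hkm
    exact monotone_nat_of_le_succ (f := fun n => c (n + 1) / c n) ratio1 hkm
  set C : PowerSeries ℝ := PowerSeries.mk c with hC
  have hC0 : PowerSeries.constantCoeff C = 1 := by
    rw [hC, ← PowerSeries.coeff_zero_eq_constantCoeff_apply, PowerSeries.coeff_mk, c0]
  set F : PowerSeries ℝ := 1 - C⁻¹ with hF
  have hFC : F * C = C - 1 := by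
    rw [hF, sub_mul, one_mul, PowerSeries.inv_mul_cancel _ (by rw [hC0]; exact one_ne_zero)]
  have hf0 : PowerSeries.coeff 0 F = 0 := by
    rw [hF, map_sub, PowerSeries.coeff_zero_eq_constantCoeff_apply,
      PowerSeries.coeff_zero_eq_constantCoeff_apply, PowerSeries.constantCoeff_inv, hC0]
    simp
  have hid : ∀ m, c (m + 1) =
      ∑ ij ∈ antidiagonal (m + 1), PowerSeries.coeff ij.1 F * c ij.2 := by
    intro m
    have h1 := congrArg (PowerSeries.coeff (m + 1)) hFC
    rw [PowerSeries.coeff_mul, map_sub, PowerSeries.coeff_one, if_neg (Nat.succ_ne_zero m),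
      sub_zero, hC, PowerSeries.coeff_mk] at h1
    rw [← h1]
    apply sum_congr rfl
    intro ij _
    rw [PowerSeries.coeff_mk]
  refine ⟨fun n => PowerSeries.coeff n F, hf0, ?_, hid⟩
  intro n
  induction n using Nat.strong_induction_on with
  | _ n ih =>
    cases n with
    | zero => exact hf0.ge
    | succ m =>
      have h1 := hid m
      rw [Nat.sum_antidiagonal_eq_sum_range_succ (fun i j => PowerSeries.coeff i F * c j),
        sum_range_succ, Nat.sub_self, c0, mul_one] at h1
      have h2 : ∑ k ∈ range (m + 1), PowerSeries.coeff k F * c (m + 1 - k) ≤ c (m + 1) := by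
        cases m with
        | zero =>
          simp only [zero_add, range_one, sum_singleton, hf0, zero_mul]
          exact (pos _).le
        | succ l =>
          have h3 := hid l
          rw [Nat.sum_antidiagonal_eq_sum_range_succ (fun i j => PowerSeries.coeff i F * c j)] at h3
          calc ∑ k ∈ range (l + 1 + 1), PowerSeries.coeff k F * c (l + 1 + 1 - k)
              ≤ ∑ k ∈ range (l + 1 + 1), c (l + 2) / c (l + 1) *
                  (PowerSeries.coeff k F * c (l + 1 - k)) := by
                apply sum_le_sum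
                intro k hk
                rw [mem_range] at hk
                have hk' : k ≤ l + 1 := by omega
                have hr := ratio (l + 1 - k) (l + 1) (by omega)
                have e1 : l + 1 - k + 1 = l + 1 + 1 - k := by omega
                rw [e1] at hr
                have hpos := pos (l + 1 - k)
                have h4 : c (l + 1 + 1 - k) ≤ c (l + 2) / c (l + 1) * c (l + 1 - k) := by
                  rw [div_le_iff₀ hpos] at hr
                  exact hr
                have h5 : 0 ≤ PowerSeries.coeff k F := ih k (by omega)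
                calc PowerSeries.coeff k F * c (l + 1 + 1 - k)
                    ≤ PowerSeries.coeff k F * (c (l + 2) / c (l + 1) * c (l + 1 - k)) := by gcongr
                  _ = _ := by ring
            _ = c (l + 2) / c (l + 1) * c (l + 1) := by rw [← mul_sum, ← h3]
            _ = c (l + 1 + 1) := by
                rw [div_mul_cancel₀ _ (pos _).ne']
      linarith

/-- the sequence `√(j+1) - √j` -/
noncomputable def cs (j : ℕ) : ℝ := Real.sqrt (j + 1) - Real.sqrt j

theorem cs_zero : cs 0 = 1 := by simp [cs]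

theorem cs_pos (j : ℕ) : 0 < cs j := by
  unfold cs
  rw [sub_pos]
  exact Real.sqrt_lt_sqrt (by positivity) (by linarith)

theorem cs_eq (j : ℕ) : cs j = 1 / (Real.sqrt (j + 1) + Real.sqrt j) := by
  unfold cs
  have h1 : 0 < Real.sqrt (j + 1) + Real.sqrt j := by positivity
  rw [eq_div_iff h1.ne']
  have h2 := Real.sq_sqrt (show (0 : ℝ) ≤ (j : ℝ) + 1 by positivity)
  have h3 := Real.sq_sqrt (show (0 : ℝ) ≤ (j : ℝ) by positivity)
  nlinarith

theorem cs_le_one (j : ℕ) : cs j ≤ 1 := by
  rw [cs_eq]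
  rw [div_le_one (by positivity)]
  have h1 : (1 : ℝ) ≤ Real.sqrt (j + 1) := by
    rw [Real.one_le_sqrt]
    have : (0 : ℝ) ≤ j := by positivity
    linarith
  have h2 := Real.sqrt_nonneg (j : ℝ)
  linarith

theorem cs_lc (j : ℕ) : cs (j + 1) ^ 2 ≤ cs j * cs (j + 2) := by
  rw [cs_eq, cs_eq, cs_eq]
  push_cast
  set a := Real.sqrt (j : ℝ) with ha
  set b := Real.sqrt ((j : ℝ) + 1) with hb
  have e1 : Real.sqrt ((j : ℝ) + 1 + 1) = Real.sqrt ((j : ℝ) + 2) := by congr 1; ring
  rw [e1]
  set c := Real.sqrt ((j : ℝ) + 2) with hc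
  have e2 : Real.sqrt ((j : ℝ) + 2 + 1) = Real.sqrt ((j : ℝ) + 3) := by congr 1; ring
  rw [e2]
  set d := Real.sqrt ((j : ℝ) + 3) with hd
  have hj : (0 : ℝ) ≤ j := by positivity
  have hab : 0 < b + a := by positivity
  have hcb : 0 < c + b := by positivity
  have hdc : 0 < d + c := by positivity
  rw [div_pow, one_pow, div_mul_div_comm, one_mul]
  apply one_div_le_one_div_of_le (by positivity)
  have b2 : b ^ 2 = j + 1 := Real.sq_sqrt (by positivity)
  have c2 : c ^ 2 = j + 2 := Real.sq_sqrt (by positivity)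
  have h1 : b * d ≤ j + 2 := by
    rw [hb, hd, ← Real.sqrt_mul (by positivity)]
    rw [Real.sqrt_le_left (by positivity)]
    nlinarith
  have h2 : a * c ≤ j + 1 := by
    rw [ha, hc, ← Real.sqrt_mul (by positivity)]
    rw [Real.sqrt_le_left (by positivity)]
    nlinarith
  have h3 : a * d ≤ b * c := by
    rw [ha, hd, hb, hc, ← Real.sqrt_mul (by positivity), ← Real.sqrt_mul (by positivity)]
    apply Real.sqrt_le_sqrt
    nlinarith
  nlinarith

/-- the renewal distribution -/
theorem exists_fs : ∃ f : ℕ → ℝ, f 0 = 0 ∧ (∀ n, 0 ≤ f n) ∧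
      ∀ m, cs (m + 1) = ∑ ij ∈ antidiagonal (m + 1), f ij.1 * cs ij.2 :=
  kaluza cs cs_zero cs_pos cs_lc

/-- rearrangement of a double series -/
theorem tsum_tsum_antidiagonal (F : ℕ → ℕ → ℝ≥0∞) :
    ∑' i, ∑' j, F i j = ∑' n, ∑ ij ∈ antidiagonal n, F ij.1 ij.2 := by
  rw [← ENNReal.tsum_prod, ← (HasAntidiagonal.sigmaAntidiagonalEquivProd (A := ℕ)).tsum_eq,
    ENNReal.tsum_sigma']
  apply tsum_congr
  intro n
  rw [← Finset.tsum_subtype (antidiagonal n) (fun ij => F ij.1 ij.2)]
  rfl

/-- the weights: `b` the Green weights, `a` the step weights -/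
theorem exists_weights {q : ℝ} (hq0 : 0 < q) (hq1 : q < 1) :
    ∃ a : ℕ → ℝ≥0∞, a 0 = 0 ∧ (∑' j, a j) < 1 ∧
      (∀ m, ENNReal.ofReal (cs (m + 1) * q ^ (m + 1)) =
        ∑ ij ∈ antidiagonal (m + 1), a ij.1 * ENNReal.ofReal (cs ij.2 * q ^ ij.2)) := by
  obtain ⟨f, f0, fn, fid⟩ := exists_fs
  set b : ℕ → ℝ≥0∞ := fun j => ENNReal.ofReal (cs j * q ^ j) with hb
  set a : ℕ → ℝ≥0∞ := fun j => ENNReal.ofReal (f j * q ^ j) with ha
  have hid : ∀ m, b (m + 1) = ∑ ij ∈ antidiagonal (m + 1), a ij.1 * b ij.2 := by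
    intro m
    simp only [hb, ha]
    rw [fid m, sum_mul, ENNReal.ofReal_sum_of_nonneg]
    · apply sum_congr rfl
      intro ij hij
      rw [← ENNReal.ofReal_mul (mul_nonneg (fn _) (pow_nonneg hq0.le _))]
      congr 1
      rw [HasAntidiagonal.mem_antidiagonal] at hij
      rw [← hij, pow_add]
      ring
    · intro ij _
      exact mul_nonneg (mul_nonneg (fn _) (cs_pos _).le) (pow_nonneg hq0.le _)
  refine ⟨a, by simp [ha, f0], ?_, hid⟩
  set S := ∑' j, b j with hS
  have hSt : S ≠ ∞ := by
    have h1 : S ≤ ∑' j : ℕ, ENNReal.ofReal q ^ j := by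
      apply ENNReal.tsum_le_tsum
      intro j
      rw [hb, ← ENNReal.ofReal_pow hq0.le]
      apply ENNReal.ofReal_le_ofReal
      calc cs j * q ^ j ≤ 1 * q ^ j := by
            have := cs_le_one j
            gcongr
        _ = _ := one_mul _
    rw [ENNReal.tsum_geometric] at h1
    refine (h1.trans_lt ?_).ne
    rw [ENNReal.inv_lt_top]
    apply tsub_pos_of_lt
    rw [← ENNReal.ofReal_one]
    exact (ENNReal.ofReal_lt_ofReal_iff one_pos).2 hq1
  have hb0 : b 0 = 1 := by simp [hb, cs_zero]
  have hS1 : S = 1 + (∑' j, a j) * S := by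
    have h1 : (∑' j, a j) * S = ∑' m, ∑ ij ∈ antidiagonal m, a ij.1 * b ij.2 := by
      rw [← tsum_tsum_antidiagonal (fun i j => a i * b j), ← ENNReal.tsum_mul_right]
      apply tsum_congr
      intro i
      rw [hS, ENNReal.tsum_mul_left]
    have ha0 : a 0 = 0 := by simp [ha, f0]
    rw [h1, tsum_eq_zero_add' (f := fun m => ∑ ij ∈ antidiagonal m, a ij.1 * b ij.2)
      ENNReal.summable, hS, tsum_eq_zero_add' (f := b) ENNReal.summable, hb0]
    simp only [HasAntidiagonal.antidiagonal_zero, sum_singleton, ha0, zero_mul, zero_add]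
    congr 1
    apply tsum_congr
    intro m
    exact hid m
  have hS0 : S ≠ 0 := by
    intro h
    rw [hS1] at h
    simp at h
  by_contra hcon
  push Not at hcon
  have h2 : 1 + S ≤ 0 + S := by
    calc 1 + S = 1 + 1 * S := by rw [one_mul]
      _ ≤ 1 + (∑' j, a j) * S := by gcongr
      _ = S := hS1.symm
      _ = 0 + S := (zero_add _).symm
  have h3 := (ENNReal.add_le_add_iff_right hSt).1 h2
  simp at h3

end Pool.Agent.K4H28.HP
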