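import Pool.Agent.K4H28.HP.Gauss
import Pool.Agent.K4H28.HP.Seq
import Pool.Agent.K4H28.HP.Ball

set_option autoImplicit false
set_option linter.unusedSectionVars false

/-!
Comparison of Riesz energies of sets and balls.
-/

open MeasureTheory Set Filter Topology Metric
open scoped ENNReal RealInnerProductSpace

namespace Pool.Agent.K4H28.HP

variable {V : Type*} [NormedAddCommGroup V] [InnerProductSpace ℝ V] [FiniteDimensional ℝ V]
  [MeasurableSpace V] [BorelSpace V]

/-- discrete time heat semigroup -/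
noncomputable def EJ (h : ℝ) : ℕ → (V → ℝ≥0∞) → V → ℝ≥0∞
  | 0, f => f
  | j + 1, f => op (gs ((j + 1 : ℕ) * h)) f

theorem measurable_EJ (h : ℝ) (j : ℕ) {f : V → ℝ≥0∞} (hf : Measurable f) :
    Measurable (EJ h j f) := by
  cases j with
  | zero => exact hf
  | succ j => exact measurable_op (measurable_gs' _) hf

theorem EJ_EJ {h : ℝ} (hh : 0 < h) (i j : ℕ) {f : V → ℝ≥0∞} (hf : Measurable f) (x : V) :
    EJ h i (EJ h j f) x = EJ h (i + j) f x := by
  cases i with
  | zero => rw [zero_add]; rfl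
  | succ i =>
    cases j with
    | zero => rfl
    | succ j =>
      show op (gs ((i + 1 : ℕ) * h)) (op (gs ((j + 1 : ℕ) * h)) f) x = _
      rw [op_gs_gs (by positivity) (by positivity) hf]
      have e : i + 1 + (j + 1) = (i + 1 + j) + 1 := by ring
      rw [e]
      show _ = op (gs (((i + 1 + j) + 1 : ℕ) * h)) f x
      congr 2
      push_cast
      ring

theorem EJ_symm (h : ℝ) (j : ℕ) {f g : V → ℝ≥0∞} (hf : Measurable f) (hg : Measurable g) :
    ∫⁻ x, f x * EJ h j g x = ∫⁻ x, g x * EJ h j f x := by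
  cases j with
  | zero => simp only [EJ, mul_comm]
  | succ j => exact op_symm' (measurable_gs' _) gs_neg hf hg

theorem lintegral_EJ {h : ℝ} (hh : 0 < h) (j : ℕ) {f : V → ℝ≥0∞} (hf : Measurable f) :
    ∫⁻ x, EJ h j f x = ∫⁻ x, f x := by
  cases j with
  | zero => rfl
  | succ j =>
    show ∫⁻ x, op (gs ((j + 1 : ℕ) * h)) f x = _
    rw [lintegral_op (measurable_gs' _) hf, lintegral_gs (by positivity), one_mul]

theorem op_tsum {p : V → ℝ≥0∞} (hp : Measurable p) {F : ℕ → V → ℝ≥0∞}
    (hF : ∀ j, Measurable (F j)) (c : ℕ → ℝ≥0∞) (x : V) :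
    op p (fun y => ∑' j, c j * F j y) x = ∑' j, c j * op p (F j) x := by
  unfold op
  have h1 : ∀ j, c j * ∫⁻ y, p (x - y) * F j y = ∫⁻ y, c j * (p (x - y) * F j y) := by
    intro j
    have := hF j
    rw [lintegral_const_mul _ (by fun_prop)]
  simp_rw [h1]
  rw [← lintegral_tsum (by
    intro j
    have := hF j
    have : Measurable fun y : V => c j * (p (x - y) * F j y) := by fun_prop
    exact this.aemeasurable)]
  apply lintegral_congr
  intro y
  rw [← ENNReal.tsum_mul_left]
  apply tsum_congr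
  intro j
  ring

theorem EJ_tsum (h : ℝ) (i : ℕ) {F : ℕ → V → ℝ≥0∞}
    (hF : ∀ j, Measurable (F j)) (c : ℕ → ℝ≥0∞) (x : V) :
    EJ h i (fun y => ∑' j, c j * F j y) x = ∑' j, c j * EJ h i (F j) x := by
  cases i with
  | zero => rfl
  | succ i => exact op_tsum (measurable_gs' _) hF c x

theorem EJ_add (h : ℝ) (i : ℕ) {f g : V → ℝ≥0∞} (hf : Measurable f) (x : V) :
    EJ h i (fun y => f y + g y) x = EJ h i f x + EJ h i g x := by
  cases i with
  | zero => rfl
  | succ i => exact op_add (measurable_gs' _) hf x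

theorem EJ_const_mul (h : ℝ) (i : ℕ) {f : V → ℝ≥0∞} (hf : Measurable f) (c : ℝ≥0∞) (x : V) :
    EJ h i (fun y => c * f y) x = c * EJ h i f x := by
  cases i with
  | zero => rfl
  | succ i =>
    show op _ _ x = c * op _ _ x
    have := measurable_gs' (V := V) ((i + 1 : ℕ) * h)
    unfold op
    rw [← lintegral_const_mul _ (by fun_prop)]
    apply lintegral_congr
    intro y
    ring

/-- the step kernel -/
noncomputable def stk (h : ℝ) (a : ℕ → ℝ≥0∞) (x : V) : ℝ≥0∞ :=
  ∑' j : ℕ, a (j + 1) * gs ((j + 1 : ℕ) * h) x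

theorem measurable_stk (h : ℝ) (a : ℕ → ℝ≥0∞) : Measurable (stk h a : V → ℝ≥0∞) := by
  unfold stk
  apply Measurable.tsum
  intro j
  have := measurable_gs' (V := V) ((j + 1 : ℕ) * h)
  fun_prop

theorem ker_stk {h : ℝ} (hh : 0 < h) {a : ℕ → ℝ≥0∞} (ha : ∑' j, a j < 1) :
    Ker (stk h a : V → ℝ≥0∞) where
  meas := measurable_stk h a
  mass := by
    unfold stk
    rw [lintegral_tsum (by
      intro j
      have := measurable_gs' (V := V) ((j + 1 : ℕ) * h)
      have : Measurable fun x : V => a (j + 1) * gs ((j + 1 : ℕ) * h) x := by fun_prop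
      exact this.aemeasurable)]
    have h1 : ∀ j : ℕ, ∫⁻ x : V, a (j + 1) * gs ((j + 1 : ℕ) * h) x = a (j + 1) := by
      intro j
      rw [lintegral_const_mul _ (measurable_gs' _), lintegral_gs (by positivity), mul_one]
    simp_rw [h1]
    refine lt_of_le_of_lt ?_ ha
    rw [tsum_eq_zero_add' (f := a) ENNReal.summable]
    exact le_add_self
  anti := by
    intro x y hxy
    unfold stk
    apply ENNReal.tsum_le_tsum
    intro j
    exact mul_le_mul_right (gs_anti (by positivity) hxy) _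

theorem op_stk {h : ℝ} {a : ℕ → ℝ≥0∞} (ha0 : a 0 = 0) {f : V → ℝ≥0∞} (hf : Measurable f)
    (x : V) : op (stk h a) f x = ∑' j, a j * EJ h j f x := by
  rw [tsum_eq_zero_add' (f := fun j => a j * EJ h j f x) ENNReal.summable, ha0, zero_mul, zero_add]
  unfold op stk
  have h1 : ∀ y : V, (∑' j : ℕ, a (j + 1) * gs ((j + 1 : ℕ) * h) (x - y)) * f y =
      ∑' j : ℕ, a (j + 1) * (gs ((j + 1 : ℕ) * h) (x - y) * f y) := by
    intro y
    rw [← ENNReal.tsum_mul_right]
    apply tsum_congr
    intro j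
    ring
  simp_rw [h1]
  rw [lintegral_tsum (by
    intro j
    have := measurable_gs' (V := V) ((j + 1 : ℕ) * h)
    have : Measurable fun y : V => a (j + 1) * (gs ((j + 1 : ℕ) * h) (x - y) * f y) := by fun_prop
    exact this.aemeasurable)]
  apply tsum_congr
  intro j
  have := measurable_gs' (V := V) ((j + 1 : ℕ) * h)
  rw [lintegral_const_mul _ (by fun_prop)]
  rfl

/-- the Green operator -/
noncomputable def grn (h : ℝ) (b : ℕ → ℝ≥0∞) (f : V → ℝ≥0∞) (x : V) : ℝ≥0∞ :=
  ∑' j, b j * EJ h j f x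

theorem measurable_grn (h : ℝ) (b : ℕ → ℝ≥0∞) {f : V → ℝ≥0∞} (hf : Measurable f) :
    Measurable (grn h b f) := by
  unfold grn
  apply Measurable.tsum
  intro j
  have := measurable_EJ h j hf
  fun_prop

theorem grn_add (h : ℝ) (b : ℕ → ℝ≥0∞) {f g : V → ℝ≥0∞} (hf : Measurable f) (x : V) :
    grn h b (fun y => f y + g y) x = grn h b f x + grn h b g x := by
  unfold grn
  rw [← ENNReal.tsum_add]
  apply tsum_congr
  intro j
  rw [EJ_add h j hf, mul_add]

theorem lintegral_grn {h : ℝ} (hh : 0 < h) (b : ℕ → ℝ≥0∞) {f : V → ℝ≥0∞} (hf : Measurable f) :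
    ∫⁻ x, grn h b f x = (∑' j, b j) * ∫⁻ x, f x := by
  unfold grn
  rw [lintegral_tsum (by
    intro j
    have := measurable_EJ h j hf
    have : Measurable fun y : V => b j * EJ h j f y := by fun_prop
    exact this.aemeasurable), ← ENNReal.tsum_mul_right]
  apply tsum_congr
  intro j
  rw [lintegral_const_mul _ (measurable_EJ h j hf), lintegral_EJ hh j hf]

/-- resolvent equation -/
theorem grn_step {h : ℝ} (hh : 0 < h) {a b : ℕ → ℝ≥0∞} (ha0 : a 0 = 0) (hb0 : b 0 = 1)
    (hid : ∀ m, b (m + 1) = ∑ ij ∈ Finset.HasAntidiagonal.antidiagonal (m + 1), a ij.1 * b ij.2)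
    {f : V → ℝ≥0∞} (hf : Measurable f) (x : V) :
    grn h b f x = f x + grn h b (op (stk h a) f) x := by
  have h1 : grn h b (op (stk h a) f) x = ∑' m, b (m + 1) * EJ h (m + 1) f x := by
    have e1 : op (stk h a) f = fun y => ∑' j, a j * EJ h j f y := by
      funext y
      exact op_stk ha0 hf y
    rw [e1]
    unfold grn
    have e2 : ∀ i, b i * EJ h i (fun y => ∑' j, a j * EJ h j f y) x =
        ∑' j, a j * b i * EJ h (j + i) f x := by
      intro i
      rw [EJ_tsum h i (fun j => measurable_EJ h j hf), ← ENNReal.tsum_mul_left]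
      apply tsum_congr
      intro j
      rw [EJ_EJ hh i j hf, add_comm i j]
      ring
    simp_rw [e2]
    rw [ENNReal.tsum_comm, tsum_tsum_antidiagonal (fun j i => a j * b i * EJ h (j + i) f x),
      tsum_eq_zero_add' (f := fun n => ∑ ij ∈ Finset.HasAntidiagonal.antidiagonal n,
        a ij.1 * b ij.2 * EJ h (ij.1 + ij.2) f x) ENNReal.summable]
    simp only [Finset.HasAntidiagonal.antidiagonal_zero, Finset.sum_singleton, ha0, zero_mul,
      zero_add]
    apply tsum_congr
    intro m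
    rw [hid m, Finset.sum_mul]
    apply Finset.sum_congr rfl
    intro ij hij
    rw [Finset.HasAntidiagonal.mem_antidiagonal] at hij
    rw [hij]
  rw [h1]
  unfold grn
  rw [tsum_eq_zero_add' (f := fun j => b j * EJ h j f x) ENNReal.summable, hb0, one_mul]
  rfl

/-- the potential is the Green potential of the charge -/
theorem pot_eq_grn {h : ℝ} (hh : 0 < h) {a b : ℕ → ℝ≥0∞} (ha : ∑' j, a j < 1) (ha0 : a 0 = 0)
    (hb0 : b 0 = 1) (hbt : ∑' j, b j ≠ ∞)
    (hid : ∀ m, b (m + 1) = ∑ ij ∈ Finset.HasAntidiagonal.antidiagonal (m + 1), a ij.1 * b ij.2)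
    {E : Set V} (hE : MeasurableSet E) (hv : volume E ≠ ∞) :
    ∀ᵐ x, grn h b (chg (stk h a) E) x = pot (stk h a) E x := by
  set p : V → ℝ≥0∞ := stk h a with hp
  have hker : Ker p := ker_stk hh ha
  have hu := measurable_pot hker.meas hE
  have ho := measurable_op hker.meas hu
  have hY : Measurable (grn h b (op p (pot p E))) := measurable_grn h b ho
  have hfin : ∫⁻ x, grn h b (op p (pot p E)) x ≠ ∞ := by
    rw [lintegral_grn hh b ho, lintegral_op hker.meas hu]
    refine ENNReal.mul_ne_top hbt (ENNReal.mul_ne_top (hker.mass.trans ENNReal.one_lt_top).ne ?_)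
    exact (lintegral_pot_lt_top hker hE hv).ne
  filter_upwards [ae_lt_top hY hfin] with x hx
  have h1 : grn h b (pot p E) x = grn h b (op p (pot p E)) x + grn h b (chg p E) x := by
    have e : pot p E = fun y => op p (pot p E) y + chg p E y := by
      funext y
      exact pot_eq hker hE y
    conv_lhs => rw [e]
    exact grn_add h b ho x
  have h2 := grn_step hh ha0 hb0 hid hu x
  rw [h1, add_comm (pot p E x)] at h2
  exact (ENNReal.add_right_inj hx.ne).1 h2

/-- the energy -/
noncomputable def en (h : ℝ) (b : ℕ → ℝ≥0∞) (f g : V → ℝ≥0∞) : ℝ≥0∞ :=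
  ∫⁻ x, f x * grn h b g x

theorem en_eq_tsum (h : ℝ) (b : ℕ → ℝ≥0∞) {f g : V → ℝ≥0∞} (hf : Measurable f)
    (hg : Measurable g) : en h b f g = ∑' j, b j * ∫⁻ x, f x * EJ h j g x := by
  unfold en grn
  have h1 : ∀ x, f x * ∑' j, b j * EJ h j g x = ∑' j, b j * (f x * EJ h j g x) := by
    intro x
    rw [← ENNReal.tsum_mul_left]
    apply tsum_congr
    intro j
    ring
  simp_rw [h1]
  rw [lintegral_tsum (by
    intro j
    have := measurable_EJ h j hg
    have : Measurable fun y : V => b j * (f y * EJ h j g y) := by fun_prop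
    exact this.aemeasurable)]
  apply tsum_congr
  intro j
  have := measurable_EJ h j hg
  rw [lintegral_const_mul _ (by fun_prop)]

theorem EJ_amgm {h : ℝ} (hh : 0 < h) (j : ℕ) {f g : V → ℝ≥0∞} (hf : Measurable f)
    (hg : Measurable g) :
    2 * ∫⁻ x, f x * EJ h j g x ≤ (∫⁻ x, f x * EJ h j f x) + ∫⁻ x, g x * EJ h j g x := by
  cases j with
  | zero =>
    simp only [EJ]
    rw [← lintegral_const_mul _ (by fun_prop), ← lintegral_add_left (by fun_prop)]
    apply lintegral_mono
    intro x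
    exact two_mul_le_sq _ _
  | succ j => exact form_gs_amgm (by positivity) hf hg

theorem en_amgm {h : ℝ} (hh : 0 < h) (b : ℕ → ℝ≥0∞) {f g : V → ℝ≥0∞} (hf : Measurable f)
    (hg : Measurable g) : 2 * en h b f g ≤ en h b f f + en h b g g := by
  rw [en_eq_tsum h b hf hg, en_eq_tsum h b hf hf, en_eq_tsum h b hg hg, ← ENNReal.tsum_mul_left,
    ← ENNReal.tsum_add]
  apply ENNReal.tsum_le_tsum
  intro j
  calc 2 * (b j * ∫⁻ x, f x * EJ h j g x) = b j * (2 * ∫⁻ x, f x * EJ h j g x) := by ring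
    _ ≤ b j * ((∫⁻ x, f x * EJ h j f x) + ∫⁻ x, g x * EJ h j g x) :=
        mul_le_mul_right (EJ_amgm hh j hf hg) _
    _ = _ := by ring

theorem cap_pos {p : V → ℝ≥0∞} (hp : Ker p) {E : Set V} (hE : MeasurableSet E)
    (hv : volume E ≠ 0) : cap p E ≠ 0 := by
  have h1 : (1 - ∫⁻ x, p x) * volume E ≤ cap p E := by
    unfold cap
    rw [← lintegral_indicator_one hE, ← lintegral_const_mul _ (measurable_one.indicator hE)]
    apply lintegral_mono
    intro x
    show (1 - ∫⁻ x, p x) * E.indicator 1 x ≤ chg p E x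
    by_cases hx : x ∈ E
    · rw [indicator_of_mem hx]
      unfold chg
      rw [if_pos hx, Pi.one_apply, mul_one]
      exact tsub_le_tsub_left (op_le_mass (pot_le_one hp) x) _
    · rw [indicator_of_notMem hx, mul_zero]
      exact zero_le
  intro h0
  rw [h0] at h1
  have h2 : (1 - ∫⁻ x, p x) * volume E = 0 := le_antisymm h1 zero_le
  rcases mul_eq_zero.1 h2 with h3 | h3
  · exact (tsub_pos_of_lt hp.mass).ne' h3
  · exact hv h3

/-- discrete energy comparison -/
theorem disc_compare [Nontrivial V] {h : ℝ} (hh : 0 < h) {a b : ℕ → ℝ≥0∞} (ha : ∑' j, a j < 1)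
    (ha0 : a 0 = 0) (hb0 : b 0 = 1) (hbt : ∑' j, b j ≠ ∞)
    (hid : ∀ m, b (m + 1) = ∑ ij ∈ Finset.HasAntidiagonal.antidiagonal (m + 1), a ij.1 * b ij.2)
    {R D : ℝ} (hR : 0 < R) {E : Set V} (hE : MeasurableSet E) (hED : E ⊆ closedBall 0 D)
    (hvol : volume E = volume (ball (0 : V) R)) {f : V → ℝ≥0∞} (hf : Measurable f)
    (hfB : ∀ x, x ∉ ball (0 : V) R → f x = 0) (hf1 : ∫⁻ x, f x = 1) :
    ∃ ρ : V → ℝ≥0∞, Measurable ρ ∧ (∀ x, x ∉ E → ρ x = 0) ∧ ∫⁻ x, ρ x = 1 ∧
      en h b ρ ρ ≤ en h b f f := by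
  set p : V → ℝ≥0∞ := stk h a with hp
  have hker : Ker p := ker_stk hh ha
  have hbt' : volume (ball (0 : V) R) ≠ ∞ := measure_ball_lt_top.ne
  have hb0' : volume (ball (0 : V) R) ≠ 0 := (measure_ball_pos _ _ hR).ne'
  have key : ∀ F : Set V, MeasurableSet F → volume F ≠ ∞ → volume F ≠ 0 →
      en h b (fun x => (cap p F)⁻¹ * chg p F x) (fun x => (cap p F)⁻¹ * chg p F x) = (cap p F)⁻¹ ∧
      ∀ g : V → ℝ≥0∞, Measurable g → (∀ x, x ∉ F → g x = 0) → ∫⁻ x, g x = 1 →
        en h b g (fun x => (cap p F)⁻¹ * chg p F x) = (cap p F)⁻¹ := by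
    intro F hF hFt hF0
    have hc0 := cap_pos hker hF hF0
    have hct : cap p F ≠ ∞ := ((cap_le F hF).trans_lt hFt.lt_top).ne
    have hcm := measurable_chg hker.meas hF
    have hpot := pot_eq_grn hh ha ha0 hb0 hbt hid hF hFt
    have gcm : ∀ x, grn h b (fun x => (cap p F)⁻¹ * chg p F x) x =
        (cap p F)⁻¹ * grn h b (chg p F) x := by
      intro x
      unfold grn
      rw [← ENNReal.tsum_mul_left]
      apply tsum_congr
      intro j
      rw [EJ_const_mul h j hcm]
      ring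
    have k2 : ∀ g : V → ℝ≥0∞, Measurable g → (∀ x, x ∉ F → g x = 0) →
        en h b g (fun x => (cap p F)⁻¹ * chg p F x) = (cap p F)⁻¹ * ∫⁻ x, g x := by
      intro g hg hgF
      unfold en
      simp_rw [gcm]
      rw [← lintegral_const_mul _ hg]
      apply lintegral_congr_ae
      filter_upwards [hpot] with x hx
      rw [hx]
      by_cases hxF : x ∈ F
      · rw [pot_on hxF]; ring
      · rw [hgF x hxF]; ring
    refine ⟨?_, ?_⟩
    · rw [k2 _ (by fun_prop) (fun x hx => by rw [chg_off hx, mul_zero]),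
        lintegral_const_mul _ hcm]
      show (cap p F)⁻¹ * ((cap p F)⁻¹ * cap p F) = _
      rw [ENNReal.inv_mul_cancel hc0 hct, mul_one]
    · intro g hg hgF hg1
      rw [k2 g hg hgF, hg1, mul_one]
  have hEt : volume E ≠ ∞ := by rw [hvol]; exact hbt'
  have hE0 : volume E ≠ 0 := by rw [hvol]; exact hb0'
  have hcE0 := cap_pos hker hE hE0
  have hcB0 := cap_pos hker (measurableSet_ball (x := (0 : V)) (ε := R)) hb0'
  have hcEt : cap p E ≠ ∞ := ((cap_le E hE).trans_lt hEt.lt_top).ne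
  have hcB := cap_ball_le hker hE hED hvol
  have hBm : MeasurableSet (ball (0 : V) R) := measurableSet_ball
  have hcm := measurable_chg hker.meas hE
  have hcmB := measurable_chg hker.meas hBm
  refine ⟨fun x => (cap p E)⁻¹ * chg p E x, by fun_prop, fun x hx => by
    simp only [chg_off hx, mul_zero], ?_, ?_⟩
  · rw [lintegral_const_mul _ hcm]
    exact ENNReal.inv_mul_cancel hcE0 hcEt
  · rw [(key E hE hEt hE0).1]
    obtain ⟨kB1, kB2⟩ := key _ hBm hbt' hb0'
    have h1 := en_amgm hh b hf (g := fun x => (cap p (ball (0 : V) R))⁻¹ *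
      chg p (ball (0 : V) R) x) (by fun_prop)
    rw [kB1, kB2 f hf hfB hf1, two_mul] at h1
    have h2 := (ENNReal.add_le_add_iff_right (ENNReal.inv_ne_top.2 hcB0)).1 h1
    exact (ENNReal.inv_le_inv.2 hcB).trans h2

end Pool.Agent.K4H28.HP
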