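import Pool.Agent.K4H28.HP.Cap
import Pool.Agent.K4H28.HP.Haar

set_option autoImplicit false
set_option linter.unusedSectionVars false

/-!
The Gaussian semigroup and its potential kernel.
-/

open MeasureTheory Set Filter Topology Metric
open scoped ENNReal RealInnerProductSpace

namespace Pool.Agent.K4H28.HP

variable {V : Type*} [NormedAddCommGroup V] [InnerProductSpace ℝ V] [FiniteDimensional ℝ V]
  [MeasurableSpace V] [BorelSpace V]

/-- the real heat kernel -/
noncomputable def gr (t : ℝ) (x : V) : ℝ :=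
  (4 * Real.pi * t) ^ (-((Module.finrank ℝ V : ℝ) / 2)) * Real.exp (-(‖x‖ ^ 2 / (4 * t)))

/-- the heat kernel -/
noncomputable def gs (t : ℝ) (x : V) : ℝ≥0∞ := ENNReal.ofReal (gr t x)

theorem gr_nonneg {t : ℝ} (ht : 0 < t) (x : V) : 0 ≤ gr t x := by
  unfold gr
  positivity

theorem measurable_gr : Measurable fun z : ℝ × V => gr z.1 z.2 := by
  unfold gr
  fun_prop

theorem measurable_gs : Measurable fun z : ℝ × V => gs z.1 z.2 := measurable_gr.ennreal_ofReal

theorem measurable_gs' (t : ℝ) : Measurable (gs t : V → ℝ≥0∞) :=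
  (measurable_gs (V := V)).comp (measurable_const.prodMk measurable_id)

theorem lintegral_gs {t : ℝ} (ht : 0 < t) : ∫⁻ x : V, gs t x = 1 := by
  have hb : 0 < 1 / (4 * t) := by positivity
  have h1 : ∫ x : V, Real.exp (-(1 / (4 * t)) * ‖x‖ ^ 2) =
      (Real.pi / (1 / (4 * t))) ^ ((Module.finrank ℝ V : ℝ) / 2) :=
    GaussianFourier.integral_rexp_neg_mul_sq_norm hb
  have h2 : ∫ x : V, gr t x = 1 := by
    unfold gr
    rw [integral_const_mul]
    have e1 : ∀ x : V, Real.exp (-(‖x‖ ^ 2 / (4 * t))) = Real.exp (-(1 / (4 * t)) * ‖x‖ ^ 2) := by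
      intro x; congr 1; ring
    simp_rw [e1]
    rw [h1]
    have e2 : Real.pi / (1 / (4 * t)) = 4 * Real.pi * t := by
      field_simp
    rw [e2, ← Real.rpow_add (by positivity)]
    simp
  have hi : Integrable (gr t : V → ℝ) := by
    by_contra hcon
    rw [integral_undef hcon] at h2
    exact zero_ne_one h2
  unfold gs
  rw [← ofReal_integral_eq_lintegral_ofReal hi (Eventually.of_forall fun x => gr_nonneg ht x), h2]
  simp

theorem gs_anti {t : ℝ} (ht : 0 < t) {x y : V} (h : ‖x‖ ≤ ‖y‖) : gs t y ≤ gs t x := by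
  unfold gs gr
  apply ENNReal.ofReal_le_ofReal
  gcongr

theorem gs_norm {t : ℝ} {x y : V} (h : ‖x‖ = ‖y‖) : gs t x = gs t y := by
  unfold gs gr
  rw [h]

theorem gs_neg {t : ℝ} (x : V) : gs t (-x) = gs t x := gs_norm (norm_neg x)

theorem gs_sub_comm {t : ℝ} (x y : V) : gs t (x - y) = gs t (y - x) :=
  gs_norm (norm_sub_rev x y)

/-- completing the square -/
theorem gr_mul {s t : ℝ} (hs : 0 < s) (ht : 0 < t) (x w : V) :
    gr s (x - w) * gr t w = gr (s + t) x * gr (s * t / (s + t)) (w - (t / (s + t)) • x) := by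
  unfold gr
  have hst : 0 < s + t := by positivity
  have e1 : ‖w - (t / (s + t)) • x‖ ^ 2 =
      ‖w‖ ^ 2 - 2 * (t / (s + t)) * ⟪w, x⟫ + (t / (s + t)) ^ 2 * ‖x‖ ^ 2 := by
    rw [norm_sub_sq_real, inner_smul_right, norm_smul, mul_pow, Real.norm_eq_abs, sq_abs]
    ring
  have e2 : ‖x - w‖ ^ 2 = ‖x‖ ^ 2 - 2 * ⟪w, x⟫ + ‖w‖ ^ 2 := by
    rw [norm_sub_sq_real, real_inner_comm]
  have e3 : Real.exp (-(‖x - w‖ ^ 2 / (4 * s))) * Real.exp (-(‖w‖ ^ 2 / (4 * t))) =
      Real.exp (-(‖x‖ ^ 2 / (4 * (s + t)))) *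
        Real.exp (-(‖w - (t / (s + t)) • x‖ ^ 2 / (4 * (s * t / (s + t))))) := by
    rw [← Real.exp_add, ← Real.exp_add, e1, e2]
    congr 1
    field_simp
    ring
  have e4 : (4 * Real.pi * s) ^ (-((Module.finrank ℝ V : ℝ) / 2)) *
      (4 * Real.pi * t) ^ (-((Module.finrank ℝ V : ℝ) / 2)) =
      (4 * Real.pi * (s + t)) ^ (-((Module.finrank ℝ V : ℝ) / 2)) *
      (4 * Real.pi * (s * t / (s + t))) ^ (-((Module.finrank ℝ V : ℝ) / 2)) := by
    rw [← Real.mul_rpow (by positivity) (by positivity),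
      ← Real.mul_rpow (by positivity) (by positivity)]
    congr 1
    field_simp
  calc _ = ((4 * Real.pi * s) ^ (-((Module.finrank ℝ V : ℝ) / 2)) *
      (4 * Real.pi * t) ^ (-((Module.finrank ℝ V : ℝ) / 2))) *
      (Real.exp (-(‖x - w‖ ^ 2 / (4 * s))) * Real.exp (-(‖w‖ ^ 2 / (4 * t)))) := by ring
    _ = _ := by rw [e3, e4]; ring

/-- the semigroup property of the kernels -/
theorem gs_conv {s t : ℝ} (hs : 0 < s) (ht : 0 < t) (x y : V) :
    ∫⁻ z, gs s (x - z) * gs t (z - y) = gs (s + t) (x - y) := by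
  have hst : 0 < s + t := by positivity
  have hτ : 0 < s * t / (s + t) := by positivity
  rw [← lintegral_add_right_eq_self _ y]
  have h1 : ∀ w : V, gs s (x - (w + y)) * gs t (w + y - y) =
      gs (s + t) (x - y) * gs (s * t / (s + t)) (w - (t / (s + t)) • (x - y)) := by
    intro w
    have e1 : x - (w + y) = (x - y) - w := by abel
    have e2 : w + y - y = w := by abel
    rw [e1, e2]
    unfold gs
    rw [← ENNReal.ofReal_mul (gr_nonneg hs _), ← ENNReal.ofReal_mul (gr_nonneg hst _),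
      gr_mul hs ht]
  simp_rw [h1]
  have m1 : Measurable (gs (s * t / (s + t)) : V → ℝ≥0∞) := measurable_gs' _
  rw [lintegral_const_mul _ (by fun_prop)]
  have h2 : ∫⁻ w : V, gs (s * t / (s + t)) (w - (t / (s + t)) • (x - y)) = 1 := by
    rw [lintegral_sub_right_eq_self (fun w : V => gs (s * t / (s + t)) w), lintegral_gs hτ]
  rw [h2, mul_one]

/-- the semigroup property of the operators -/
theorem op_gs_gs {s t : ℝ} (hs : 0 < s) (ht : 0 < t) {f : V → ℝ≥0∞} (hf : Measurable f) (x : V) :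
    op (gs s) (op (gs t) f) x = op (gs (s + t)) f x := by
  have m1 : Measurable (gs s : V → ℝ≥0∞) := measurable_gs' s
  have m2 : Measurable (gs t : V → ℝ≥0∞) := measurable_gs' t
  unfold op
  have h1 : ∀ y : V, gs s (x - y) * ∫⁻ z, gs t (y - z) * f z =
      ∫⁻ z, gs s (x - y) * (gs t (y - z) * f z) := by
    intro y
    rw [lintegral_const_mul _ (by fun_prop)]
  simp_rw [h1]
  rw [lintegral_lintegral_swap (by
    have : Measurable fun z : V × V => gs s (x - z.1) * (gs t (z.1 - z.2) * f z.2) := by fun_prop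
    exact this.aemeasurable)]
  apply lintegral_congr
  intro z
  have h2 : ∀ y : V, gs s (x - y) * (gs t (y - z) * f z) = (gs s (x - y) * gs t (y - z)) * f z :=
    fun y => by ring
  simp_rw [h2]
  rw [lintegral_mul_const _ (by fun_prop), gs_conv hs ht]

theorem op_symm' {p : V → ℝ≥0∞} (hp : Measurable p) (hs : ∀ x : V, p (-x) = p x)
    {f g : V → ℝ≥0∞} (hf : Measurable f) (hg : Measurable g) :
    ∫⁻ x, f x * op p g x = ∫⁻ x, g x * op p f x := by
  unfold op
  have h1 : ∀ x : V, f x * ∫⁻ y, p (x - y) * g y = ∫⁻ y, f x * (p (x - y) * g y) := by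
    intro x
    rw [lintegral_const_mul _ (by fun_prop)]
  have h2 : ∀ x : V, g x * ∫⁻ y, p (x - y) * f y = ∫⁻ y, g x * (p (x - y) * f y) := by
    intro x
    rw [lintegral_const_mul _ (by fun_prop)]
  simp_rw [h1, h2]
  rw [lintegral_lintegral_swap]
  · apply lintegral_congr
    intro y
    apply lintegral_congr
    intro x
    rw [← hs (x - y), neg_sub]
    ring
  · have : Measurable fun z : V × V => f z.1 * (p (z.1 - z.2) * g z.2) := by fun_prop
    exact this.aemeasurable

theorem two_mul_le_sq (a b : ℝ≥0∞) : 2 * (a * b) ≤ a * a + b * b := by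
  rcases eq_or_ne a ∞ with rfl | ha
  · simp
  rcases eq_or_ne b ∞ with rfl | hb
  · simp
  lift a to NNReal using ha
  lift b to NNReal using hb
  norm_cast
  rw [← NNReal.coe_le_coe]
  push_cast
  nlinarith [sq_nonneg ((a : ℝ) - b)]

/-- the Gaussian form is bounded by the square norm -/
theorem form_gs_le {t : ℝ} (ht : 0 < t) {f : V → ℝ≥0∞} (hf : Measurable f) :
    ∫⁻ x, f x * op (gs t) f x ≤ ∫⁻ x, f x * f x := by
  have m1 : Measurable (gs t : V → ℝ≥0∞) := measurable_gs' t
  have h0 : 2 * ∫⁻ x, f x * op (gs t) f x ≤ 2 * ∫⁻ x, f x * f x := by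
    calc 2 * ∫⁻ x, f x * op (gs t) f x = ∫⁻ x, ∫⁻ y, gs t (x - y) * (2 * (f x * f y)) := by
          have mo := measurable_op m1 hf
          rw [← lintegral_const_mul _ (by fun_prop)]
          apply lintegral_congr
          intro x
          unfold op
          rw [← lintegral_const_mul _ (by fun_prop), ← lintegral_const_mul _ (by fun_prop)]
          apply lintegral_congr
          intro y
          ring
      _ ≤ ∫⁻ x, ∫⁻ y, gs t (x - y) * (f x * f x + f y * f y) := by
          apply lintegral_mono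
          intro x
          apply lintegral_mono
          intro y
          exact mul_le_mul_right (two_mul_le_sq _ _) _
      _ = ∫⁻ x, (f x * f x + op (gs t) (fun y => f y * f y) x) := by
          apply lintegral_congr
          intro x
          unfold op
          have e : ∀ y : V, gs t (x - y) * (f x * f x + f y * f y) =
              gs t (x - y) * (f x * f x) + gs t (x - y) * (f y * f y) := fun y => by ring
          simp_rw [e]
          rw [lintegral_add_left (by fun_prop), lintegral_mul_const _ (by fun_prop),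
            lintegral_kernel_left, lintegral_gs ht, one_mul]
      _ = 2 * ∫⁻ x, f x * f x := by
          rw [lintegral_add_left (by fun_prop), lintegral_op m1 (by fun_prop), lintegral_gs ht]
          ring
  exact (ENNReal.mul_le_mul_iff_right (by norm_num) (by norm_num)).1 h0

/-- splitting the Gaussian form -/
theorem form_gs_split {s t : ℝ} (hs : 0 < s) (ht : 0 < t) {f g : V → ℝ≥0∞} (hf : Measurable f)
    (hg : Measurable g) :
    ∫⁻ x, f x * op (gs (s + t)) g x = ∫⁻ x, op (gs s) f x * op (gs t) g x := by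
  have m1 : Measurable (gs s : V → ℝ≥0∞) := measurable_gs' s
  have m2 : Measurable (gs t : V → ℝ≥0∞) := measurable_gs' t
  have h1 : ∀ x, f x * op (gs (s + t)) g x = f x * op (gs s) (op (gs t) g) x := by
    intro x
    rw [op_gs_gs hs ht hg]
  simp_rw [h1]
  rw [op_symm' m1 gs_neg hf (measurable_op m2 hg)]
  apply lintegral_congr
  intro x
  ring

/-- the form decreases in time -/
theorem form_gs_anti {s t : ℝ} (hs : 0 < s) (hst : s ≤ t) {f : V → ℝ≥0∞} (hf : Measurable f) :
    ∫⁻ x, f x * op (gs t) f x ≤ ∫⁻ x, f x * op (gs s) f x := by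
  rcases hst.eq_or_lt with rfl | hlt
  · exact le_rfl
  have hd : 0 < t - s := by linarith
  have h2 : 0 < s / 2 := by positivity
  have mF : Measurable (op (gs (s / 2)) f) := measurable_op (measurable_gs' _) hf
  have e1 : ∫⁻ x, f x * op (gs t) f x =
      ∫⁻ x, op (gs (s / 2)) f x * op (gs (t - s)) (op (gs (s / 2)) f) x := by
    have e : t = s / 2 + ((t - s) + s / 2) := by ring
    conv_lhs => rw [e]
    rw [form_gs_split h2 (by positivity) hf hf]
    apply lintegral_congr
    intro x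
    rw [op_gs_gs hd h2 hf]
  have e2 : ∫⁻ x, f x * op (gs s) f x = ∫⁻ x, op (gs (s / 2)) f x * op (gs (s / 2)) f x := by
    have e : s = s / 2 + s / 2 := by ring
    conv_lhs => rw [e]
    exact form_gs_split h2 h2 hf hf
  rw [e1, e2]
  exact form_gs_le hd mF

/-- weighted arithmetic-geometric inequality for the form -/
theorem form_gs_amgm {t : ℝ} (ht : 0 < t) {f g : V → ℝ≥0∞} (hf : Measurable f)
    (hg : Measurable g) :
    2 * ∫⁻ x, f x * op (gs t) g x ≤
      (∫⁻ x, f x * op (gs t) f x) + ∫⁻ x, g x * op (gs t) g x := by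
  have h2 : 0 < t / 2 := by positivity
  have e : t = t / 2 + t / 2 := by ring
  have mF : Measurable (op (gs (t / 2)) f) := measurable_op (measurable_gs' _) hf
  have mG : Measurable (op (gs (t / 2)) g) := measurable_op (measurable_gs' _) hg
  rw [e, form_gs_split h2 h2 hf hg, form_gs_split h2 h2 hf hf, form_gs_split h2 h2 hg hg,
    ← lintegral_const_mul _ (by fun_prop), ← lintegral_add_left (by fun_prop)]
  apply lintegral_mono
  intro x
  exact two_mul_le_sq _ _

/-! ### the potential kernel -/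

/-- scaling on the half line -/
theorem lint_scale {c : ℝ} (hc : 0 < c) {F : ℝ → ℝ≥0∞} (hF : Measurable F) :
    ∫⁻ s in Ioi (0 : ℝ), F s = ENNReal.ofReal c * ∫⁻ v in Ioi (0 : ℝ), F (c * v) := by
  have hG : Measurable ((Ioi (0 : ℝ)).indicator F) := hF.indicator measurableSet_Ioi
  rw [← lintegral_indicator measurableSet_Ioi, ← lintegral_indicator measurableSet_Ioi]
  conv_lhs => rw [← Real.smul_map_volume_mul_left hc.ne']
  rw [lintegral_smul_measure, lintegral_map hG (measurable_const_mul c), abs_of_pos hc, smul_eq_mul]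
  congr 1
  apply lintegral_congr
  intro v
  by_cases hv : 0 < v
  · rw [indicator_of_mem (show v ∈ Ioi (0 : ℝ) from hv),
      indicator_of_mem (show c * v ∈ Ioi (0 : ℝ) from mul_pos hc hv)]
  · have h1 : v ∉ Ioi (0 : ℝ) := hv
    have h2 : c * v ∉ Ioi (0 : ℝ) := by
      intro h
      exact hv ((mul_pos_iff_of_pos_left hc).1 h)
    rw [indicator_of_notMem h1, indicator_of_notMem h2]

/-- bracket -/
noncomputable def brk (n : ℕ) (v : ℝ) : ℝ :=
  (4 * Real.pi * v) ^ (-((n : ℝ) / 2)) * Real.exp (-(1 / (4 * v)))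

/-- the constant of the potential kernel -/
noncomputable def kap (n : ℕ) (δ : ℝ) : ℝ≥0∞ :=
  ∫⁻ v in Ioi (0 : ℝ), ENNReal.ofReal (v ^ (-(1 / 2) : ℝ) * Real.exp (-(δ * v)) * brk n v)

theorem pk_eq {x : V} (hx : x ≠ 0) (ε : ℝ) :
    ∫⁻ s in Ioi (0 : ℝ), ENNReal.ofReal (s ^ (-(1 / 2) : ℝ) * Real.exp (-(ε * s))) * gs s x =
      kap (Module.finrank ℝ V) (ε * ‖x‖ ^ 2) * rz x := by
  set r := ‖x‖ with hr
  have hr0 : 0 < r := norm_pos_iff.2 hx
  have : Nontrivial V := ⟨x, 0, hx⟩
  set n := Module.finrank ℝ V with hn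
  have hn1 : 1 ≤ n := Module.finrank_pos
  have hrz : rz x = ENNReal.ofReal ((r ^ (n - 1))⁻¹) := by
    unfold rz
    rw [ENNReal.ofReal_inv_of_pos (pow_pos hr0 _)]
  have hm : Measurable fun s : ℝ =>
      ENNReal.ofReal (s ^ (-(1 / 2) : ℝ) * Real.exp (-(ε * s))) * gs s x := by
    have m1 : Measurable fun s : ℝ => gs s x :=
      (measurable_gs (V := V)).comp (measurable_id.prodMk measurable_const)
    fun_prop
  rw [lint_scale (c := r ^ 2) (by positivity) hm]
  unfold kap
  rw [← lintegral_const_mul' _ _ ENNReal.ofReal_ne_top, ← lintegral_mul_const' _ _ (by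
    rw [hrz]; exact ENNReal.ofReal_ne_top)]
  apply setLIntegral_congr_fun measurableSet_Ioi
  intro v hv
  have hv0 : 0 < v := hv
  have hb : 0 ≤ brk n v := by unfold brk; positivity
  show ENNReal.ofReal (r ^ 2) * (ENNReal.ofReal ((r ^ 2 * v) ^ (-(1 / 2) : ℝ) *
    Real.exp (-(ε * (r ^ 2 * v)))) * gs (r ^ 2 * v) x) =
    ENNReal.ofReal (v ^ (-(1 / 2) : ℝ) * Real.exp (-(ε * r ^ 2 * v)) * brk n v) * rz x
  unfold gs
  rw [hrz, ← ENNReal.ofReal_mul (by positivity), ← ENNReal.ofReal_mul (by positivity),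
    ← ENNReal.ofReal_mul (mul_nonneg (by positivity) hb)]
  congr 1
  unfold gr brk
  rw [← hn, ← hr]
  have e1 : (r ^ 2 * v) ^ (-(1 / 2) : ℝ) = r⁻¹ * v ^ (-(1 / 2) : ℝ) := by
    rw [Real.mul_rpow (by positivity) hv0.le]
    congr 1
    rw [← Real.rpow_natCast r 2, ← Real.rpow_mul hr0.le]
    norm_num
    rw [Real.rpow_neg_one]
  have e2 : (4 * Real.pi * (r ^ 2 * v)) ^ (-((n : ℝ) / 2)) =
      (r ^ n)⁻¹ * (4 * Real.pi * v) ^ (-((n : ℝ) / 2)) := by
    have : 4 * Real.pi * (r ^ 2 * v) = r ^ 2 * (4 * Real.pi * v) := by ring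
    rw [this, Real.mul_rpow (by positivity) (by positivity)]
    congr 1
    rw [← Real.rpow_natCast r 2, ← Real.rpow_mul hr0.le]
    have : ((2 : ℕ) : ℝ) * (-((n : ℝ) / 2)) = -(n : ℝ) := by push_cast; ring
    rw [this, Real.rpow_neg hr0.le, Real.rpow_natCast]
  have e3 : r ^ 2 / (4 * (r ^ 2 * v)) = 1 / (4 * v) := by
    field_simp
  have e4 : ε * (r ^ 2 * v) = ε * r ^ 2 * v := by ring
  rw [e1, e2, e3, e4]
  obtain ⟨k, hk⟩ : ∃ k, n = k + 1 := ⟨n - 1, by omega⟩
  rw [hk, Nat.add_sub_cancel, pow_succ]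
  field_simp
  ring

theorem brk_nonneg (n : ℕ) {v : ℝ} (hv : 0 < v) : 0 ≤ brk n v := by unfold brk; positivity

theorem brk_le (n : ℕ) {v : ℝ} (hv : 0 < v) : brk n v ≤ 1 + n.factorial := by
  unfold brk
  set y := 1 / (4 * v) with hy
  have hy0 : 0 < y := by positivity
  have e1 : 4 * Real.pi * v = Real.pi / y := by
    rw [hy]; field_simp
  have e2 : (4 * Real.pi * v) ^ (-((n : ℝ) / 2)) = (y / Real.pi) ^ ((n : ℝ) / 2) := by
    rw [e1, Real.rpow_neg (by positivity), ← Real.inv_rpow (by positivity), inv_div]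
  have e3 : (y / Real.pi) ^ ((n : ℝ) / 2) ≤ y ^ ((n : ℝ) / 2) := by
    apply Real.rpow_le_rpow (by positivity) _ (by positivity)
    apply div_le_self hy0.le
    linarith [Real.pi_gt_three]
  have e4 : y ^ ((n : ℝ) / 2) ≤ 1 + y ^ n := by
    rcases le_total y 1 with h | h
    · have := Real.rpow_le_one hy0.le h (show (0 : ℝ) ≤ (n : ℝ) / 2 by positivity)
      have h2 : 0 ≤ y ^ n := by positivity
      linarith
    · have h1 : y ^ ((n : ℝ) / 2) ≤ y ^ (n : ℝ) := by
        apply Real.rpow_le_rpow_of_exponent_le h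
        have : (0 : ℝ) ≤ n := by positivity
        linarith
      rw [Real.rpow_natCast] at h1
      linarith
  have e5 : y ^ n ≤ n.factorial * Real.exp y := by
    have := Real.pow_div_factorial_le_exp y hy0.le n
    rw [div_le_iff₀ (by positivity)] at this
    linarith
  have e6 : 1 ≤ Real.exp y := Real.one_le_exp hy0.le
  rw [e2]
  calc (y / Real.pi) ^ ((n : ℝ) / 2) * Real.exp (-y) ≤ (1 + y ^ n) * Real.exp (-y) := by
        gcongr
        exact e3.trans e4
    _ ≤ ((1 + n.factorial) * Real.exp y) * Real.exp (-y) := by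
        gcongr
        nlinarith
    _ = 1 + n.factorial := by
        rw [mul_assoc, ← Real.exp_add]
        simp

theorem brk_le' {n : ℕ} (hn : 2 ≤ n) {v : ℝ} (hv : 1 ≤ v) : brk n v ≤ v ^ (-1 : ℝ) := by
  unfold brk
  have hv0 : 0 < v := by linarith
  have hpi := Real.pi_gt_three
  have hn' : (2 : ℝ) ≤ n := by exact_mod_cast hn
  calc (4 * Real.pi * v) ^ (-((n : ℝ) / 2)) * Real.exp (-(1 / (4 * v)))
      ≤ (4 * Real.pi * v) ^ (-((n : ℝ) / 2)) * 1 := by
        gcongr
        rw [Real.exp_le_one_iff]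
        have : 0 < 1 / (4 * v) := by positivity
        linarith
    _ = (4 * Real.pi * v) ^ (-((n : ℝ) / 2)) := mul_one _
    _ ≤ v ^ (-((n : ℝ) / 2)) := by
        apply Real.rpow_le_rpow_of_nonpos hv0
        · nlinarith
        · linarith
    _ ≤ v ^ (-1 : ℝ) := by
        apply Real.rpow_le_rpow_of_exponent_le hv
        linarith

theorem measurable_kapi (n : ℕ) (δ : ℝ) : Measurable fun v : ℝ =>
    ENNReal.ofReal (v ^ (-(1 / 2) : ℝ) * Real.exp (-(δ * v)) * brk n v) := by
  unfold brk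
  fun_prop

theorem kap_lt_top {n : ℕ} (hn : 2 ≤ n) {δ : ℝ} (hδ : 0 ≤ δ) : kap n δ < ∞ := by
  unfold kap
  rw [← Ioc_union_Ioi_eq_Ioi (zero_le_one' ℝ),
    lintegral_union measurableSet_Ioi (Ioc_disjoint_Ioi le_rfl)]
  refine ENNReal.add_lt_top.2 ⟨?_, ?_⟩
  · have hi : IntegrableOn (fun v : ℝ => v ^ (-(1 / 2) : ℝ) * (1 + n.factorial)) (Ioc 0 1) := by
      apply Integrable.mul_const
      have := intervalIntegral.intervalIntegrable_rpow' (a := 0) (b := 1)
        (show (-1 : ℝ) < -(1 / 2) by norm_num)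
      rwa [intervalIntegrable_iff_integrableOn_Ioc_of_le zero_le_one] at this
    refine lt_of_le_of_lt ?_ hi.setLIntegral_lt_top
    apply setLIntegral_mono' measurableSet_Ioc
    intro v hv
    have hv0 : 0 < v := hv.1
    apply ENNReal.ofReal_le_ofReal
    have h1 := brk_le n hv0
    have h0 := brk_nonneg n hv0
    have h2 : Real.exp (-(δ * v)) ≤ 1 := by
      rw [Real.exp_le_one_iff]
      have := mul_nonneg hδ hv0.le
      linarith
    have h3 : 0 < v ^ (-(1 / 2) : ℝ) := Real.rpow_pos_of_pos hv0 _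
    calc v ^ (-(1 / 2) : ℝ) * Real.exp (-(δ * v)) * brk n v
        ≤ v ^ (-(1 / 2) : ℝ) * 1 * (1 + n.factorial) := by gcongr
      _ = _ := by ring
  · have hi : IntegrableOn (fun v : ℝ => v ^ (-(3 / 2) : ℝ)) (Ioi 1) :=
      integrableOn_Ioi_rpow_of_lt (by norm_num) one_pos
    refine lt_of_le_of_lt ?_ hi.setLIntegral_lt_top
    apply setLIntegral_mono' measurableSet_Ioi
    intro v hv
    have hv1 : 1 < v := hv
    have hv0 : 0 < v := by linarith
    apply ENNReal.ofReal_le_ofReal
    have h1 := brk_le' hn hv1.le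
    have h0 := brk_nonneg n hv0
    have h2 : Real.exp (-(δ * v)) ≤ 1 := by
      rw [Real.exp_le_one_iff]
      have := mul_nonneg hδ hv0.le
      linarith
    have h3 : 0 < v ^ (-(1 / 2) : ℝ) := Real.rpow_pos_of_pos hv0 _
    calc v ^ (-(1 / 2) : ℝ) * Real.exp (-(δ * v)) * brk n v
        ≤ v ^ (-(1 / 2) : ℝ) * 1 * v ^ (-1 : ℝ) := by gcongr
      _ = v ^ (-(3 / 2) : ℝ) := by
          rw [mul_one, ← Real.rpow_add hv0]
          norm_num

theorem kap_pos (n : ℕ) (δ : ℝ) : 0 < kap n δ := by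
  unfold kap
  rw [setLIntegral_pos_iff (measurable_kapi n δ)]
  have : Function.support (fun v : ℝ =>
      ENNReal.ofReal (v ^ (-(1 / 2) : ℝ) * Real.exp (-(δ * v)) * brk n v)) ∩ Ioi 0 = Ioi 0 := by
    apply inter_eq_right.2
    intro v hv
    have hv0 : 0 < v := hv
    rw [Function.mem_support]
    apply ne_of_gt
    rw [ENNReal.ofReal_pos]
    unfold brk
    positivity
  rw [this]
  simp

theorem kap_anti (n : ℕ) {δ δ' : ℝ} (h : δ ≤ δ') : kap n δ' ≤ kap n δ := by
  unfold kap
  apply setLIntegral_mono' measurableSet_Ioi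
  intro v hv
  have hv0 : 0 < v := hv
  apply ENNReal.ofReal_le_ofReal
  have h0 := brk_nonneg n hv0
  gcongr

theorem exists_kap (n : ℕ) {θ : ℝ≥0∞} (hθ : θ < kap n 0) : ∃ δ : ℝ, 0 < δ ∧ θ < kap n δ := by
  have h1 : kap n 0 = ⨆ k : ℕ, kap n (1 / ((k : ℝ) + 1)) := by
    unfold kap
    rw [← lintegral_iSup_ae]
    · apply setLIntegral_congr_fun measurableSet_Ioi
      intro v hv
      have hv0 : 0 < v := hv
      have h0 := brk_nonneg n hv0
      symm
      apply iSup_eq_of_tendsto
      · intro i j hij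
        apply ENNReal.ofReal_le_ofReal
        have : 1 / ((j : ℝ) + 1) ≤ 1 / ((i : ℝ) + 1) := by
          apply one_div_le_one_div_of_le (by positivity)
          have : (i : ℝ) ≤ j := by exact_mod_cast hij
          linarith
        gcongr
      · apply ENNReal.tendsto_ofReal
        have h2 : Tendsto (fun k : ℕ => 1 / ((k : ℝ) + 1)) atTop (𝓝 0) :=
          tendsto_one_div_add_atTop_nhds_zero_nat
        have h3 : Tendsto (fun k : ℕ => v ^ (-(1 / 2) : ℝ) *
            Real.exp (-(1 / ((k : ℝ) + 1) * v)) * brk n v) atTop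
            (𝓝 (v ^ (-(1 / 2) : ℝ) * Real.exp (-(0 * v)) * brk n v)) := by
          apply Tendsto.mul_const
          apply Tendsto.const_mul
          exact (Real.continuous_exp.tendsto _).comp ((h2.mul_const v).neg)
        exact h3
    · intro k
      exact measurable_kapi n _
    · intro i
      filter_upwards [ae_restrict_mem measurableSet_Ioi] with v hv
      have hv0 : 0 < v := hv
      have h0 := brk_nonneg n hv0
      apply ENNReal.ofReal_le_ofReal
      have : 1 / (((i.succ : ℕ) : ℝ) + 1) ≤ 1 / ((i : ℝ) + 1) := by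
        apply one_div_le_one_div_of_le (by positivity)
        push_cast
        linarith
      gcongr
  rw [h1] at hθ
  obtain ⟨k, hk⟩ := lt_iSup_iff.1 hθ
  exact ⟨1 / ((k : ℝ) + 1), by positivity, hk⟩

end Pool.Agent.K4H28.HP
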