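import Pool.Agent.K4H28.HP.Tower

set_option autoImplicit false
set_option linter.unusedSectionVars false

/-!
Harmonic means of the volumes of projections of compact sets, all dimensions.
-/

open MeasureTheory Set Filter Topology Metric Module
open scoped ENNReal RealInnerProductSpace

namespace Pool.Agent.K4H28.HP

variable {V : Type*} [NormedAddCommGroup V] [InnerProductSpace ℝ V] [FiniteDimensional ℝ V]
variable [MeasurableSpace V] [BorelSpace V]

/-- volume of the image of a rotated copy -/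
noncomputable def vp (E : Set V) (S : Submodule ℝ V) (g : OG V) : ℝ≥0∞ :=
  volume ((fun x => prj S (ap g⁻¹ x)) '' E)

theorem continuous_vpmap (S : Submodule ℝ V) :
    Continuous fun z : OG V × V => prj S (ap z.1⁻¹ z.2) :=
  (continuous_prj S).comp (ap_continuous.comp (continuous_fst.inv.prodMk continuous_snd))

theorem measurable_vp {E : Set V} (hE : IsCompact E) (S : Submodule ℝ V) :
    Measurable (vp E S) :=
  measurable_vol_image hE (Φ := fun z : OG V × V => prj S (ap z.1⁻¹ z.2)) (continuous_vpmap S)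

theorem vp_top (E : Set V) (S : Submodule ℝ V) (hS : S = ⊤) (g : OG V) : vp E S g = volume E := by
  subst hS
  unfold vp
  let G : V ≃ₗᵢ[ℝ] V := Unitary.linearIsometryEquiv g⁻¹
  let Θ : V ≃ₗᵢ[ℝ] (⊤ : Submodule ℝ V) := G.trans (LinearIsometryEquiv.ofTop V ⊤ rfl).symm
  have h : (fun x => prj (⊤ : Submodule ℝ V) (ap g⁻¹ x)) = Θ := by
    funext x
    apply prj_eq
    intro w _
    have : (Θ x : V) = ap g⁻¹ x := rfl
    rw [this, sub_self, inner_zero_left]
  rw [h]
  exact vol_image_isom Θ E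

theorem rpow_arith {a b c d : ℝ≥0∞} (hb0 : b ≠ 0) (hbt : b ≠ ∞) {p q r : ℝ} (hp : 0 < p)
    (hr : q * p = r) :
    a * (b ^ p * (b⁻¹ * (c * d) ^ q) ^ p) = a * (c * d) ^ r := by
  rw [ENNReal.mul_rpow_of_nonneg _ _ hp.le, ← ENNReal.rpow_mul, hr, ← mul_assoc (b ^ p),
    ← ENNReal.mul_rpow_of_nonneg _ _ hp.le, ENNReal.mul_inv_cancel hb0 hbt, ENNReal.one_rpow,
    one_mul]

/-- projection of a rotated copy -/
def sh (E : Set V) (S : Submodule ℝ V) (g : OG V) : Set S := (fun x => prj S (ap g⁻¹ x)) '' E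

theorem isCompact_sh {E : Set V} (hE : IsCompact E) (S : Submodule ℝ V) (g : OG V) :
    IsCompact (sh E S g) := by
  have h1 : Continuous (ap (g⁻¹)) := (g⁻¹ : OG V).1.continuous
  exact hE.image (f := prj S ∘ ap g⁻¹) ((continuous_prj S).comp h1)

theorem vp_eq_sh (E : Set V) (S : Submodule ℝ V) (g : OG V) : vp E S g = volume (sh E S g) := rfl

variable {U : Type*} [NormedAddCommGroup U] [InnerProductSpace ℝ U] [FiniteDimensional ℝ U]
  [MeasurableSpace U] [BorelSpace U]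

/-- volume of the codimension one projection of a rotated copy -/
noncomputable def wv {S' : Submodule ℝ V} (Ψ : WithLp 2 (U × ℝ) ≃ₗᵢ[ℝ] S') (F : Set S')
    (h : OG S') : ℝ≥0∞ :=
  volume ((fun x => pr Ψ (ap h⁻¹ x)) '' F)

theorem measurable_wv {E : Set V} (hE : IsCompact E) {S' : Submodule ℝ V}
    (Ψ : WithLp 2 (U × ℝ) ≃ₗᵢ[ℝ] S') :
    Measurable fun x : OG S' × OG V => wv Ψ (sh E S' x.2) x.1 := by
  have h1 : Continuous fun z : (OG S' × OG V) × V => ap z.1.2⁻¹ z.2 :=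
    ap_continuous.comp (((continuous_snd.comp continuous_fst).inv).prodMk continuous_snd)
  have h2 : Continuous fun z : (OG S' × OG V) × V => prj S' (ap z.1.2⁻¹ z.2) :=
    (continuous_prj S').comp h1
  have h3 : Continuous fun z : (OG S' × OG V) × V => ap z.1.1⁻¹ (prj S' (ap z.1.2⁻¹ z.2)) :=
    ap_continuous.comp (((continuous_fst.comp continuous_fst).inv).prodMk h2)
  have hmeas := measurable_vol_image hE ((continuous_pr Ψ).comp h3)
  have h4 : (fun x : OG S' × OG V => wv Ψ (sh E S' x.2) x.1) = fun x : OG S' × OG V =>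
      volume ((fun z => ((pr Ψ) ∘ fun z : (OG S' × OG V) × V =>
        ap z.1.1⁻¹ (prj S' (ap z.1.2⁻¹ z.2))) (x, z)) '' E) := by
    funext x
    unfold wv sh
    rw [image_image]
    rfl
  rw [h4]
  exact hmeas

theorem wv_inv (E : Set V) {S S' : Submodule ℝ V} (Ψ : WithLp 2 (S × ℝ) ≃ₗᵢ[ℝ] S')
    (hΨ : ∀ x, pr Ψ (prj S' x) = prj S x) (h : OG S') :
    ∫⁻ g, (vp E S g)⁻¹ ∂(rot V) = ∫⁻ g, (wv Ψ (sh E S' g) h)⁻¹ ∂(rot V) := by
  obtain ⟨k, hk⟩ := exists_ext S' h
  rw [← lintegral_mul_right_eq_self (fun g => (vp E S g)⁻¹) k]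
  apply lintegral_congr
  intro g
  unfold vp wv sh
  rw [image_image]
  congr 2
  apply Set.image_congr'
  intro x
  rw [mul_inv_rev, ap_mul, ← hΨ, hk]

/-- the descent step -/
theorem descent {E : Set V} (hE : IsCompact E) {S S' : Submodule ℝ V} (hle : S ≤ S') {j : ℕ}
    (hj : 1 ≤ j) (hS : finrank ℝ S = j) (hS' : finrank ℝ S' = j + 1) :
    ∫⁻ g, (vp E S g)⁻¹ ∂(rot V) ≤
      (om j)⁻¹ * (om (j + 1) ^ ((j : ℝ) / (j + 1)) *
        (∫⁻ g, (vp E S' g)⁻¹ ∂(rot V)) ^ ((j : ℝ) / (j + 1))) := by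
  obtain ⟨Ψ, hΨ⟩ := exists_dec hle (by omega)
  have hj0 : (0 : ℝ) < j := by exact_mod_cast hj
  have hp0 : 0 < (j : ℝ) / (j + 1) := by positivity
  have hp1 : (j : ℝ) / (j + 1) < 1 := by rw [div_lt_one (by positivity)]; linarith
  have h3 : ∀ g : OG V, ∫⁻ h, (wv Ψ (sh E S' g) h)⁻¹ ∂(rot S') ≤
      (om j)⁻¹ * (om (j + 1) * (volume (sh E S' g))⁻¹) ^ ((j : ℝ) / (j + 1)) :=
    fun g => codim_one_pow Ψ hj hS hS' (isCompact_sh hE S' g)
  generalize (j : ℝ) / (j + 1) = p at hp0 hp1 h3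
  have h1 : ∫⁻ g, (vp E S g)⁻¹ ∂(rot V) =
      ∫⁻ h, ∫⁻ g, (wv Ψ (sh E S' g) h)⁻¹ ∂(rot V) ∂(rot S') := by
    calc ∫⁻ g, (vp E S g)⁻¹ ∂(rot V) = ∫⁻ _h, ∫⁻ g, (vp E S g)⁻¹ ∂(rot V) ∂(rot S') := by
          rw [lintegral_const, measure_univ, mul_one]
      _ = _ := lintegral_congr fun h => wv_inv E Ψ hΨ h
  have h2 : ∫⁻ h, ∫⁻ g, (wv Ψ (sh E S' g) h)⁻¹ ∂(rot V) ∂(rot S') =
      ∫⁻ g, ∫⁻ h, (wv Ψ (sh E S' g) h)⁻¹ ∂(rot S') ∂(rot V) :=
    lintegral_lintegral_swap (f := fun h g => (wv Ψ (sh E S' g) h)⁻¹)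
      (measurable_wv hE Ψ).inv.aemeasurable
  rw [h1, h2]
  calc ∫⁻ g, ∫⁻ h, (wv Ψ (sh E S' g) h)⁻¹ ∂(rot S') ∂(rot V)
      ≤ ∫⁻ g, (om j)⁻¹ * (om (j + 1) * (vp E S' g)⁻¹) ^ p ∂(rot V) := lintegral_mono h3
    _ = (om j)⁻¹ * (om (j + 1) ^ p * ∫⁻ g, ((vp E S' g)⁻¹) ^ p ∂(rot V)) := by
        rw [lintegral_const_mul' _ _ (ENNReal.inv_ne_top.2 (om_ne_zero _))]
        congr 1
        rw [← lintegral_const_mul' _ _ (ENNReal.rpow_ne_top_of_nonneg hp0.le (om_ne_top _))]
        apply lintegral_congr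
        intro g
        rw [ENNReal.mul_rpow_of_nonneg _ _ hp0.le]
    _ ≤ (om j)⁻¹ * (om (j + 1) ^ p * (∫⁻ g, (vp E S' g)⁻¹ ∂(rot V)) ^ p) := by
        gcongr
        exact jensen (rot V) (measurable_vp hE S').inv hp0 hp1

/-- the inequality for compact sets, in all dimensions -/
theorem compact_ineq {E : Set V} (hE : IsCompact E) (k : ℕ) :
    ∀ S : Submodule ℝ V, 1 ≤ finrank ℝ S → finrank ℝ S + k = finrank ℝ V →
      ∫⁻ g, (vp E S g)⁻¹ ∂(rot V) ≤ (om (finrank ℝ S))⁻¹ *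
        (om (finrank ℝ V) * (volume E)⁻¹) ^ ((finrank ℝ S : ℝ) / finrank ℝ V) := by
  induction k with
  | zero =>
    intro S h1 h2
    have hS : S = ⊤ := Submodule.eq_top_of_finrank_eq (by omega)
    have h3 : finrank ℝ S = finrank ℝ V := by omega
    have h4 : (0 : ℝ) < finrank ℝ V := by
      have : 0 < finrank ℝ V := by omega
      exact_mod_cast this
    rw [h3, div_self h4.ne', ENNReal.rpow_one, ← mul_assoc,
      ENNReal.inv_mul_cancel (om_ne_zero _) (om_ne_top _), one_mul]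
    simp only [vp_top E S hS]
    rw [lintegral_const, measure_univ, mul_one]
  | succ k ih =>
    intro S h1 h2
    -- a larger subspace
    obtain ⟨S', hle, hd⟩ : ∃ S' : Submodule ℝ V, S ≤ S' ∧ finrank ℝ S' = finrank ℝ S + 1 := by
      have hne : Sᗮ ≠ ⊥ := by
        intro h
        have h3 := Submodule.finrank_add_finrank_orthogonal S
        rw [h, finrank_bot] at h3
        omega
      obtain ⟨v, hv, hv0⟩ := Submodule.exists_mem_ne_zero_of_ne_bot hne
      refine ⟨S ⊔ Submodule.span ℝ {v}, le_sup_left, ?_⟩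
      have h3 := Submodule.finrank_sup_add_finrank_inf_eq S (Submodule.span ℝ {v})
      have h4 : S ⊓ Submodule.span ℝ {v} = ⊥ := by
        rw [eq_bot_iff]
        intro x hx
        have hx2 : x ∈ Sᗮ := by
          have : Submodule.span ℝ {v} ≤ Sᗮ := by
            rw [Submodule.span_singleton_le_iff_mem]; exact hv
          exact this hx.2
        have := (Submodule.mem_orthogonal S x).1 hx2 x hx.1
        rw [Submodule.mem_bot]
        exact inner_self_eq_zero.1 this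
      rw [h4, finrank_bot, add_zero, finrank_span_singleton hv0] at h3
      exact h3
    have ih' := ih S' (by omega) (by omega)
    set j := finrank ℝ S with hj
    have hs := descent hE hle (j := j) h1 rfl hd
    rw [hd] at ih'
    have hj0 : (0 : ℝ) < j := by exact_mod_cast h1
    have hn0 : (0 : ℝ) < finrank ℝ V := by
      have : 0 < finrank ℝ V := by omega
      exact_mod_cast this
    refine hs.trans ?_
    rw [← rpow_arith (a := (om j)⁻¹) (b := om (j + 1)) (c := om (finrank ℝ V)) (d := (volume E)⁻¹)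
      (om_ne_zero _) (om_ne_top _) (p := (j : ℝ) / (j + 1)) (q := ((j + 1 : ℕ) : ℝ) / finrank ℝ V)
      (by positivity)]
    · gcongr
      
    · push_cast
      field_simp

end Pool.Agent.K4H28.HP
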