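import Pool.Agent.K4H28.HP.Cap

set_option autoImplicit false
set_option linter.unusedSectionVars false

/-!
Two point symmetrisation (polarisation) of functions and sets, and its effect on the capacity.
-/

open MeasureTheory Set Filter Topology
open scoped ENNReal RealInnerProductSpace

namespace Pool.Agent.K4H28.HP

variable {V : Type*} [NormedAddCommGroup V] [InnerProductSpace ℝ V] [FiniteDimensional ℝ V]
  [MeasurableSpace V] [BorelSpace V]

/-- reflection in the hyperplane `⟪x, ν⟫ = s` -/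
def rfl' (ν : V) (s : ℝ) (x : V) : V := x - (2 * (⟪x, ν⟫ - s)) • ν

section rfl'

omit [FiniteDimensional ℝ V] [MeasurableSpace V] [BorelSpace V]

variable {ν : V} {s : ℝ}

theorem inner_rfl (hν : ‖ν‖ = 1) (x : V) : ⟪rfl' ν s x, ν⟫ = 2 * s - ⟪x, ν⟫ := by
  unfold rfl'
  rw [inner_sub_left, inner_smul_left, real_inner_self_eq_norm_sq, hν]
  simp only [conj_trivial]
  ring

theorem rfl_rfl (hν : ‖ν‖ = 1) (x : V) : rfl' ν s (rfl' ν s x) = x := by
  have h1 : rfl' ν s (rfl' ν s x) = rfl' ν s x - (2 * (⟪rfl' ν s x, ν⟫ - s)) • ν := by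
    rw [rfl']
  rw [h1, inner_rfl hν]
  unfold rfl'
  rw [sub_sub, ← add_smul]
  have : 2 * (⟪x, ν⟫ - s) + 2 * (2 * s - ⟪x, ν⟫ - s) = 0 := by ring
  rw [this, zero_smul, sub_zero]

theorem norm_rfl_sq (hν : ‖ν‖ = 1) (x : V) :
    ‖rfl' ν s x‖ ^ 2 = ‖x‖ ^ 2 + 4 * (s - ⟪x, ν⟫) * s := by
  unfold rfl'
  rw [norm_sub_sq_real, inner_smul_right, norm_smul, mul_pow, hν, Real.norm_eq_abs, sq_abs]
  ring

theorem norm_sub_rfl_sq (hν : ‖ν‖ = 1) (x y : V) :
    ‖x - rfl' ν s y‖ ^ 2 = ‖x - y‖ ^ 2 + 4 * (s - ⟪x, ν⟫) * (s - ⟪y, ν⟫) := by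
  unfold rfl'
  have : x - (y - (2 * (⟪y, ν⟫ - s)) • ν) = (x - y) + (2 * (⟪y, ν⟫ - s)) • ν := by abel
  rw [this, norm_add_sq_real, inner_smul_right, norm_smul, mul_pow, hν, Real.norm_eq_abs, sq_abs,
    inner_sub_left]
  ring

theorem norm_rfl_sub_rfl (hν : ‖ν‖ = 1) (x y : V) :
    ‖rfl' ν s x - rfl' ν s y‖ = ‖x - y‖ := by
  have h : ‖rfl' ν s x - rfl' ν s y‖ ^ 2 = ‖x - y‖ ^ 2 := by
    have e1 := norm_sub_rfl_sq (s := s) hν (rfl' ν s x) y
    have e2 := norm_sub_rfl_sq (s := s) hν y x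
    rw [inner_rfl hν] at e1
    rw [norm_sub_rev (rfl' ν s x) y, e2, norm_sub_rev y x] at e1
    rw [e1]
    ring
  exact (sq_eq_sq₀ (norm_nonneg _) (norm_nonneg _)).1 h

theorem norm_rfl_sub (hν : ‖ν‖ = 1) (x y : V) :
    ‖rfl' ν s x - y‖ = ‖x - rfl' ν s y‖ := by
  rw [← norm_rfl_sub_rfl (s := s) hν, rfl_rfl hν]

end rfl'

omit [FiniteDimensional ℝ V] [MeasurableSpace V] [BorelSpace V] in
theorem continuous_rfl (ν : V) (s : ℝ) : Continuous (rfl' ν s) := by
  unfold rfl'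
  fun_prop

theorem measurable_rfl (ν : V) (s : ℝ) : Measurable (rfl' ν s) := (continuous_rfl ν s).measurable

theorem rfl_mp {ν : V} {s : ℝ} (hν : ‖ν‖ = 1) : MeasurePreserving (rfl' ν s) := by
  let L : V ≃ₗᵢ[ℝ] V := (ℝ ∙ ν)ᗮ.reflection
  have h1 : MeasurePreserving L := LinearIsometryEquiv.measurePreserving L
  have h2 : MeasurePreserving (fun x : V => x + (2 * s) • ν) :=
    measurePreserving_add_right volume _
  have h3 := h2.comp h1
  have h4 : (fun x : V => x + (2 * s) • ν) ∘ L = rfl' ν s := by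
    funext x
    simp only [Function.comp, L]
    rw [Submodule.reflection_orthogonal_apply, Submodule.reflection_singleton_apply]
    unfold rfl'
    rw [hν]
    simp only [RCLike.ofReal_real_eq_id, id_eq, one_pow, div_one]
    rw [real_inner_comm]
    module
  rw [← h4]
  exact h3

/-- polarisation of a function -/
noncomputable def pol (ν : V) (s : ℝ) (w : V → ℝ≥0∞) (x : V) : ℝ≥0∞ :=
  if ‖x‖ < ‖rfl' ν s x‖ then max (w x) (w (rfl' ν s x))
  else if ‖rfl' ν s x‖ < ‖x‖ then min (w x) (w (rfl' ν s x)) else w x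

/-- polarisation of a set -/
def polS (ν : V) (s : ℝ) (E : Set V) : Set V :=
  {x | (‖x‖ < ‖rfl' ν s x‖ ∧ (x ∈ E ∨ rfl' ν s x ∈ E)) ∨
    (‖rfl' ν s x‖ < ‖x‖ ∧ x ∈ E ∧ rfl' ν s x ∈ E) ∨ (‖x‖ = ‖rfl' ν s x‖ ∧ x ∈ E)}

section pol

variable {ν : V} {s : ℝ} {w : V → ℝ≥0∞} {E : Set V}

theorem measurable_pol (hw : Measurable w) : Measurable (pol ν s w) := by
  have hr := measurable_rfl ν s
  unfold pol
  refine Measurable.ite (measurableSet_lt measurable_norm (hr.norm)) (hw.max (hw.comp hr)) ?_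
  exact Measurable.ite (measurableSet_lt hr.norm measurable_norm) (hw.min (hw.comp hr)) hw

theorem measurableSet_polS (hE : MeasurableSet E) : MeasurableSet (polS ν s E) := by
  have hr := measurable_rfl ν s
  have h1 : MeasurableSet (rfl' ν s ⁻¹' E) := hr hE
  refine ((measurableSet_lt measurable_norm (hr.norm)).inter (hE.union h1)).union
    (((measurableSet_lt hr.norm measurable_norm).inter (hE.inter h1)).union
      ((measurableSet_eq_fun measurable_norm hr.norm).inter hE))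

omit [FiniteDimensional ℝ V] [MeasurableSpace V] [BorelSpace V] in
theorem pol_le_one (hw : ∀ x, w x ≤ 1) (x : V) : pol ν s w x ≤ 1 := by
  unfold pol
  split_ifs
  · exact max_le (hw _) (hw _)
  · exact (min_le_left _ _).trans (hw _)
  · exact hw x

omit [FiniteDimensional ℝ V] [MeasurableSpace V] [BorelSpace V] in
theorem pol_one (hw : ∀ x, w x ≤ 1) (hE : ∀ x ∈ E, w x = 1) {x : V} (hx : x ∈ polS ν s E) :
    pol ν s w x = 1 := by
  unfold pol
  rcases hx with ⟨h1, h2⟩ | ⟨h1, h2, h3⟩ | ⟨h1, h2⟩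
  · rw [if_pos h1]
    rcases h2 with h2 | h2
    · rw [hE _ h2]; exact max_eq_left (hw _)
    · rw [hE _ h2]; exact max_eq_right (hw _)
  · rw [if_neg (not_lt.2 h1.le), if_pos h1, hE _ h2, hE _ h3, min_self]
  · rw [if_neg (by rw [h1]; exact lt_irrefl _), if_neg (by rw [h1]; exact lt_irrefl _), hE _ h2]

omit [FiniteDimensional ℝ V] [MeasurableSpace V] [BorelSpace V] in
/-- the two values at a point and its mirror image are only permuted -/
theorem pol_pair (hν : ‖ν‖ = 1) (w : V → ℝ≥0∞) (x : V) :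
    (pol ν s w x = w x ∧ pol ν s w (rfl' ν s x) = w (rfl' ν s x)) ∨
    (pol ν s w x = w (rfl' ν s x) ∧ pol ν s w (rfl' ν s x) = w x) := by
  unfold pol
  rw [rfl_rfl hν]
  rcases lt_trichotomy ‖x‖ ‖rfl' ν s x‖ with h | h | h
  · rw [if_pos h, if_neg (not_lt.2 h.le), if_pos h]
    rcases le_total (w x) (w (rfl' ν s x)) with h1 | h1
    · right
      exact ⟨max_eq_right h1, min_eq_right h1⟩
    · left
      exact ⟨max_eq_left h1, min_eq_left h1⟩
  · left
    rw [h]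
    simp
  · rw [if_neg (not_lt.2 h.le), if_pos h, if_pos h]
    rcases le_total (w x) (w (rfl' ν s x)) with h1 | h1
    · left
      exact ⟨min_eq_left h1, max_eq_left h1⟩
    · right
      exact ⟨min_eq_right h1, max_eq_right h1⟩

theorem lintegral_comp_rfl (hν : ‖ν‖ = 1) {f : V → ℝ≥0∞} (hf : Measurable f) :
    ∫⁻ x, f (rfl' ν s x) = ∫⁻ x, f x :=
  (rfl_mp hν).lintegral_comp hf

/-- integral of a symmetric combination -/
theorem two_mul_lintegral (hν : ‖ν‖ = 1) {f : V → ℝ≥0∞} (hf : Measurable f) :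
    2 * ∫⁻ x, f x = ∫⁻ x, (f x + f (rfl' ν s x)) := by
  rw [lintegral_add_left hf, lintegral_comp_rfl hν hf, two_mul]

theorem lintegral_pol_sq (hν : ‖ν‖ = 1) (hw : Measurable w) :
    ∫⁻ x, pol ν s w x * pol ν s w x = ∫⁻ x, w x * w x := by
  have h1 := two_mul_lintegral (s := s) hν (f := fun x => w x * w x) (by fun_prop)
  have hm := measurable_pol (ν := ν) (s := s) hw
  have h2 := two_mul_lintegral (s := s) hν (f := fun x => pol ν s w x * pol ν s w x) (by fun_prop)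
  have h3 : 2 * ∫⁻ x, pol ν s w x * pol ν s w x = 2 * ∫⁻ x, w x * w x := by
    rw [h1, h2]
    apply lintegral_congr
    intro x
    rcases pol_pair (s := s) hν w x with ⟨e1, e2⟩ | ⟨e1, e2⟩
    · simp only [e1, e2]
    · simp only [e1, e2]; rw [add_comm]
  exact (ENNReal.mul_right_inj (by norm_num) (by norm_num)).1 h3

/-- the four point sum -/
noncomputable def fp (p : V → ℝ≥0∞) (ν : V) (s : ℝ) (w : V → ℝ≥0∞) (x y : V) : ℝ≥0∞ :=
  p (x - y) * (w x * w y + w (rfl' ν s x) * w (rfl' ν s y)) +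
    p (x - rfl' ν s y) * (w (rfl' ν s x) * w y + w x * w (rfl' ν s y))

omit [FiniteDimensional ℝ V] [MeasurableSpace V] [BorelSpace V] in
theorem fp_swap_right (hν : ‖ν‖ = 1) (p w : V → ℝ≥0∞) (x y : V) :
    fp p ν s w x (rfl' ν s y) = fp p ν s w x y := by
  unfold fp
  rw [rfl_rfl hν]
  ring

theorem Ker.eq_of_norm {p : V → ℝ≥0∞} (hp : Ker p) {x y : V} (h : ‖x‖ = ‖y‖) : p x = p y :=
  le_antisymm (hp.anti _ _ h.symm.le) (hp.anti _ _ h.le)

theorem fp_swap_left {p : V → ℝ≥0∞} (hp : Ker p) (hν : ‖ν‖ = 1) (w : V → ℝ≥0∞) (x y : V) :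
    fp p ν s w (rfl' ν s x) y = fp p ν s w x y := by
  unfold fp
  rw [rfl_rfl hν, hp.eq_of_norm (norm_rfl_sub (s := s) hν x y),
    hp.eq_of_norm (norm_rfl_sub_rfl (s := s) hν x y)]
  ring

theorem arr {p1 p2 a a' b b' : ℝ≥0∞} (hp : p2 ≤ p1) (h1 : a ≤ a') (h2 : b ≤ b') :
    p1 * (a * b' + a' * b) + p2 * (a' * b' + a * b) ≤
      p1 * (a' * b' + a * b) + p2 * (a * b' + a' * b) := by
  obtain ⟨d, rfl⟩ := exists_add_of_le hp
  obtain ⟨e, rfl⟩ := exists_add_of_le h1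
  obtain ⟨f, rfl⟩ := exists_add_of_le h2
  calc (p2 + d) * (a * (b + f) + (a + e) * b) + p2 * ((a + e) * (b + f) + a * b)
      ≤ (p2 + d) * (a * (b + f) + (a + e) * b) + p2 * ((a + e) * (b + f) + a * b) + d * (e * f) :=
        le_self_add
    _ = _ := by ring

/-- four point inequality for points on the side of the origin -/
theorem fp_le_aux {p : V → ℝ≥0∞} (hp : Ker p) (hν : ‖ν‖ = 1) (w : V → ℝ≥0∞) {x y : V}
    (hx : ‖x‖ < ‖rfl' ν s x‖) (hy : ‖y‖ < ‖rfl' ν s y‖) :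
    fp p ν s w x y ≤ fp p ν s (pol ν s w) x y := by
  have e1 : pol ν s w x = max (w x) (w (rfl' ν s x)) := by unfold pol; rw [if_pos hx]
  have e2 : pol ν s w (rfl' ν s x) = min (w (rfl' ν s x)) (w x) := by
    unfold pol
    rw [rfl_rfl hν, if_neg (not_lt.2 hx.le), if_pos hx]
  have e3 : pol ν s w y = max (w y) (w (rfl' ν s y)) := by unfold pol; rw [if_pos hy]
  have e4 : pol ν s w (rfl' ν s y) = min (w (rfl' ν s y)) (w y) := by
    unfold pol
    rw [rfl_rfl hν, if_neg (not_lt.2 hy.le), if_pos hy]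
  have hpp : p (x - rfl' ν s y) ≤ p (x - y) := by
    apply hp.anti
    apply le_of_sq_le_sq _ (norm_nonneg _)
    rw [norm_sub_rfl_sq hν]
    have h1 : 0 < (s - ⟪x, ν⟫) * s := by
      have := norm_rfl_sq (s := s) hν x
      have h2 : ‖x‖ ^ 2 < ‖rfl' ν s x‖ ^ 2 := by gcongr
      nlinarith
    have h2 : 0 < (s - ⟪y, ν⟫) * s := by
      have := norm_rfl_sq (s := s) hν y
      have h2 : ‖y‖ ^ 2 < ‖rfl' ν s y‖ ^ 2 := by gcongr
      nlinarith
    have h3 : 0 ≤ (s - ⟪x, ν⟫) * (s - ⟪y, ν⟫) := by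
      by_contra hneg
      push Not at hneg
      have : 0 < ((s - ⟪x, ν⟫) * s) * ((s - ⟪y, ν⟫) * s) := mul_pos h1 h2
      nlinarith [sq_nonneg s]
    nlinarith
  unfold fp
  rw [e1, e2, e3, e4]
  generalize w x = a
  generalize w (rfl' ν s x) = a'
  generalize w y = b
  generalize w (rfl' ν s y) = b'
  rcases le_total a a' with h1 | h1 <;> rcases le_total b b' with h2 | h2
  · rw [max_eq_right h1, max_eq_right h2, min_eq_right h1, min_eq_right h2]
    apply le_of_eq; ring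
  · rw [max_eq_right h1, max_eq_left h2, min_eq_right h1, min_eq_left h2]
    have := arr hpp h1 h2
    refine le_trans (le_of_eq ?_) (this.trans (le_of_eq ?_)) <;> ring
  · rw [max_eq_left h1, max_eq_right h2, min_eq_left h1, min_eq_right h2]
    have := arr hpp h1 h2
    refine le_trans (le_of_eq ?_) (this.trans (le_of_eq ?_)) <;> ring
  · rw [max_eq_left h1, max_eq_left h2, min_eq_left h1, min_eq_left h2]

theorem fp_eq_of {p : V → ℝ≥0∞} (hν : ‖ν‖ = 1) (w : V → ℝ≥0∞) {x y : V}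
    (h : p (x - rfl' ν s y) = p (x - y)) : fp p ν s w x y = fp p ν s (pol ν s w) x y := by
  unfold fp
  rw [h]
  rcases pol_pair (s := s) hν w x with ⟨e1, e2⟩ | ⟨e1, e2⟩ <;>
    rcases pol_pair (s := s) hν w y with ⟨e3, e4⟩ | ⟨e3, e4⟩ <;>
    rw [e1, e2, e3, e4] <;> ring

theorem rfl_norm_eq (hν : ‖ν‖ = 1) {x : V} (h : ‖x‖ = ‖rfl' ν s x‖) :
    s = 0 ∨ s - ⟪x, ν⟫ = 0 := by
  have h1 := norm_rfl_sq (s := s) hν x
  rw [← h] at h1
  have h2 : (s - ⟪x, ν⟫) * s = 0 := by linarith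
  rcases mul_eq_zero.1 h2 with h3 | h3
  · exact Or.inr h3
  · exact Or.inl h3

theorem pol_zero (hν : ‖ν‖ = 1) (hs : s = 0) (w : V → ℝ≥0∞) : pol ν s w = w := by
  funext x
  unfold pol
  have h1 := norm_rfl_sq (s := s) hν x
  rw [hs, mul_zero, add_zero] at h1
  have h2 : ‖rfl' ν 0 x‖ = ‖x‖ := (sq_eq_sq₀ (norm_nonneg _) (norm_nonneg _)).1 h1
  rw [hs, h2, if_neg (lt_irrefl _), if_neg (lt_irrefl _)]

/-- the four point inequality -/
theorem fp_le {p : V → ℝ≥0∞} (hp : Ker p) (hν : ‖ν‖ = 1) (w : V → ℝ≥0∞) (x y : V) :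
    fp p ν s w x y ≤ fp p ν s (pol ν s w) x y := by
  have eqx : ‖x‖ = ‖rfl' ν s x‖ → fp p ν s w x y ≤ fp p ν s (pol ν s w) x y := by
    intro h
    rcases rfl_norm_eq hν h with h0 | h0
    · rw [pol_zero hν h0]
    · apply le_of_eq
      apply fp_eq_of hν
      apply hp.eq_of_norm
      apply (sq_eq_sq₀ (norm_nonneg _) (norm_nonneg _)).1
      rw [norm_sub_rfl_sq hν, h0]
      ring
  have eqy : ‖y‖ = ‖rfl' ν s y‖ → fp p ν s w x y ≤ fp p ν s (pol ν s w) x y := by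
    intro h
    rcases rfl_norm_eq hν h with h0 | h0
    · rw [pol_zero hν h0]
    · apply le_of_eq
      apply fp_eq_of hν
      apply hp.eq_of_norm
      apply (sq_eq_sq₀ (norm_nonneg _) (norm_nonneg _)).1
      rw [norm_sub_rfl_sq hν, h0]
      ring
  rcases lt_trichotomy ‖x‖ ‖rfl' ν s x‖ with hx | hx | hx
  · rcases lt_trichotomy ‖y‖ ‖rfl' ν s y‖ with hy | hy | hy
    · exact fp_le_aux hp hν w hx hy
    · exact eqy hy
    · rw [← fp_swap_right hν p w x y, ← fp_swap_right hν p (pol ν s w) x y]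
      exact fp_le_aux hp hν w hx (by rwa [rfl_rfl hν])
  · exact eqx hx
  · rcases lt_trichotomy ‖y‖ ‖rfl' ν s y‖ with hy | hy | hy
    · rw [← fp_swap_left hp hν w x y, ← fp_swap_left hp hν (pol ν s w) x y]
      exact fp_le_aux hp hν w (by rwa [rfl_rfl hν]) hy
    · exact eqy hy
    · rw [← fp_swap_left hp hν w x y, ← fp_swap_left hp hν (pol ν s w) x y,
        ← fp_swap_right hν p w _ y, ← fp_swap_right hν p (pol ν s w) _ y]
      exact fp_le_aux hp hν w (by rwa [rfl_rfl hν]) (by rwa [rfl_rfl hν])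

/-- the energy as an average of four point sums -/
theorem four_form {p : V → ℝ≥0∞} (hp : Ker p) (hν : ‖ν‖ = 1) {w : V → ℝ≥0∞} (hw : Measurable w) :
    4 * ∫⁻ x, w x * op p w x = ∫⁻ x, ∫⁻ y, fp p ν s w x y := by
  have hpp : Measurable p := hp.meas
  have hr := measurable_rfl ν s
  have hwr : Measurable fun x => w (rfl' ν s x) := hw.comp hr
  have hop := measurable_op hpp hw
  -- the inner integral
  have inner : ∀ x, ∫⁻ y, fp p ν s w x y =
      (w x * op p w x + w (rfl' ν s x) * op p w (rfl' ν s x)) +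
      (w (rfl' ν s x) * op p w (rfl' ν s x) + w x * op p w x) := by
    intro x
    have t1 : ∫⁻ y, p (x - y) * (w x * w y) = w x * op p w x := by
      unfold op
      rw [← lintegral_const_mul _ (by fun_prop)]
      apply lintegral_congr
      intro y
      ring
    have t2 : ∫⁻ y, p (x - y) * (w (rfl' ν s x) * w (rfl' ν s y)) =
        w (rfl' ν s x) * op p w (rfl' ν s x) := by
      unfold op
      rw [← lintegral_const_mul _ (by fun_prop),
        ← lintegral_comp_rfl (s := s) hν (f := fun y => w (rfl' ν s x) *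
          (p (rfl' ν s x - y) * w y)) (by fun_prop)]
      apply lintegral_congr
      intro y
      rw [hp.eq_of_norm (norm_rfl_sub_rfl (s := s) hν x y)]
      ring
    have t3 : ∫⁻ y, p (x - rfl' ν s y) * (w (rfl' ν s x) * w y) =
        w (rfl' ν s x) * op p w (rfl' ν s x) := by
      unfold op
      rw [← lintegral_const_mul _ (by fun_prop)]
      apply lintegral_congr
      intro y
      rw [hp.eq_of_norm (norm_rfl_sub (s := s) hν x y)]
      ring
    have t4 : ∫⁻ y, p (x - rfl' ν s y) * (w x * w (rfl' ν s y)) = w x * op p w x := by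
      unfold op
      rw [← lintegral_const_mul _ (by fun_prop),
        ← lintegral_comp_rfl (s := s) hν (f := fun y => w x * (p (x - y) * w y)) (by fun_prop)]
      apply lintegral_congr
      intro y
      ring
    calc ∫⁻ y, fp p ν s w x y
        = ∫⁻ y, ((p (x - y) * (w x * w y) + p (x - y) * (w (rfl' ν s x) * w (rfl' ν s y))) +
          (p (x - rfl' ν s y) * (w (rfl' ν s x) * w y) +
            p (x - rfl' ν s y) * (w x * w (rfl' ν s y)))) := by
          apply lintegral_congr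
          intro y
          unfold fp
          ring
      _ = _ := by
          rw [lintegral_add_left (by fun_prop), lintegral_add_left (by fun_prop),
            lintegral_add_left (by fun_prop), t1, t2, t3, t4]
  simp_rw [inner]
  have hopr : Measurable fun x => op p w (rfl' ν s x) := hop.comp hr
  rw [lintegral_add_left (by fun_prop), lintegral_add_left (by fun_prop),
    lintegral_add_left (by fun_prop),
    lintegral_comp_rfl (s := s) hν (f := fun x => w x * op p w x) (by fun_prop)]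
  ring

/-- polarisation increases the energy -/
theorem form_le_pol {p : V → ℝ≥0∞} (hp : Ker p) (hν : ‖ν‖ = 1) {w : V → ℝ≥0∞}
    (hw : Measurable w) :
    ∫⁻ x, w x * op p w x ≤ ∫⁻ x, pol ν s w x * op p (pol ν s w) x := by
  have h : 4 * ∫⁻ x, w x * op p w x ≤ 4 * ∫⁻ x, pol ν s w x * op p (pol ν s w) x := by
    rw [four_form (s := s) hp hν hw, four_form (s := s) hp hν (measurable_pol hw)]
    apply lintegral_mono
    intro x
    apply lintegral_mono
    intro y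
    exact fp_le hp hν w x y
  exact (ENNReal.mul_le_mul_iff_right (by norm_num) (by norm_num)).1 h

theorem vol_polS (hν : ‖ν‖ = 1) (hE : MeasurableSet E) : volume (polS ν s E) = volume E := by
  have hP := measurableSet_polS (ν := ν) (s := s) hE
  have e : ∀ A : Set V, MeasurableSet A → 2 * volume A =
      ∫⁻ x, (A.indicator 1 x + A.indicator 1 (rfl' ν s x)) := by
    intro A hA
    rw [← two_mul_lintegral hν (measurable_one.indicator hA), lintegral_indicator_one hA]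
  have h : 2 * volume (polS ν s E) = 2 * volume E := by
    rw [e _ hP, e _ hE]
    apply lintegral_congr
    intro x
    have h1 : x ∈ polS ν s E ↔ (‖x‖ < ‖rfl' ν s x‖ ∧ (x ∈ E ∨ rfl' ν s x ∈ E)) ∨
      (‖rfl' ν s x‖ < ‖x‖ ∧ x ∈ E ∧ rfl' ν s x ∈ E) ∨ (‖x‖ = ‖rfl' ν s x‖ ∧ x ∈ E) := Iff.rfl
    have h2 : rfl' ν s x ∈ polS ν s E ↔
      (‖rfl' ν s x‖ < ‖x‖ ∧ (rfl' ν s x ∈ E ∨ x ∈ E)) ∨
      (‖x‖ < ‖rfl' ν s x‖ ∧ rfl' ν s x ∈ E ∧ x ∈ E) ∨ (‖rfl' ν s x‖ = ‖x‖ ∧ rfl' ν s x ∈ E) := by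
      have : rfl' ν s x ∈ polS ν s E ↔ (‖rfl' ν s x‖ < ‖rfl' ν s (rfl' ν s x)‖ ∧
          (rfl' ν s x ∈ E ∨ rfl' ν s (rfl' ν s x) ∈ E)) ∨
        (‖rfl' ν s (rfl' ν s x)‖ < ‖rfl' ν s x‖ ∧ rfl' ν s x ∈ E ∧ rfl' ν s (rfl' ν s x) ∈ E) ∨
        (‖rfl' ν s x‖ = ‖rfl' ν s (rfl' ν s x)‖ ∧ rfl' ν s x ∈ E) := Iff.rfl
      rwa [rfl_rfl hν] at this
    classical
    simp only [indicator_apply, h1, h2, Pi.one_apply]
    rcases lt_trichotomy ‖x‖ ‖rfl' ν s x‖ with h | h | h
    · have a1 := h.not_gt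
      have a2 := h.ne
      have a3 := h.ne'
      by_cases b1 : x ∈ E <;> by_cases b2 : rfl' ν s x ∈ E <;> simp [h, a1, a2, a3, b1, b2]
    · by_cases b1 : x ∈ E <;> by_cases b2 : rfl' ν s x ∈ E <;> simp [h, b1, b2]
    · have a1 := h.not_gt
      have a2 := h.ne
      have a3 := h.ne'
      by_cases b1 : x ∈ E <;> by_cases b2 : rfl' ν s x ∈ E <;> simp [h, a1, a2, a3, b1, b2]
  exact (ENNReal.mul_right_inj (by norm_num) (by norm_num)).1 h

/-- polarisation decreases the capacity -/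
theorem cap_polS_le {p : V → ℝ≥0∞} (hp : Ker p) (hν : ‖ν‖ = 1) (hE : MeasurableSet E)
    (hv : volume E ≠ ∞) : cap p (polS ν s E) ≤ cap p E := by
  have hu := measurable_pot hp.meas hE
  have h := cap_le_of_test hp hE hv (measurableSet_polS (ν := ν) (s := s) hE)
    (by rw [vol_polS hν hE]; exact hv) (w := pol ν s (pot p E)) (r := 0) (measurable_pol hu)
    (pol_le_one (pot_le_one hp)) (fun x hx => pol_one (pot_le_one hp) (fun y hy => pot_on hy) hx)
    (by rw [lintegral_pol_sq hν hu, add_zero]) (form_le_pol hp hν hu)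
  rwa [add_zero] at h

theorem polS_subset_ball (_hν : ‖ν‖ = 1) {D : ℝ} (hD : E ⊆ Metric.closedBall 0 D) :
    polS ν s E ⊆ Metric.closedBall 0 D := by
  have hD' : ∀ x ∈ E, ‖x‖ ≤ D := fun x hx => by simpa using hD hx
  intro x hx
  rw [mem_closedBall_zero_iff]
  rcases hx with ⟨h1, h2⟩ | ⟨h1, h2, h3⟩ | ⟨h1, h2⟩
  · rcases h2 with h2 | h2
    · exact hD' _ h2
    · exact h1.le.trans (hD' _ h2)
  · exact hD' _ h2
  · exact hD' _ h2

/-- the gain of a polarisation -/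
theorem gain (hν : ‖ν‖ = 1) (hE : MeasurableSet E) (R : ℝ) :
    volume (Metric.ball 0 R \ polS ν s E) +
      (∫⁻ x, (Metric.ball 0 R \ E).indicator 1 x * (E \ Metric.ball 0 R).indicator 1 (rfl' ν s x)) ≤
      volume (Metric.ball (0 : V) R \ E) := by
  have hP := measurableSet_polS (ν := ν) (s := s) hE
  set B := Metric.ball (0 : V) R with hB
  have hBm : MeasurableSet B := measurableSet_ball
  have hr := measurable_rfl ν s
  have e : ∀ A : Set V, MeasurableSet A → 2 * volume A =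
      ∫⁻ x, (A.indicator 1 x + A.indicator 1 (rfl' ν s x)) := by
    intro A hA
    rw [← two_mul_lintegral hν (measurable_one.indicator hA), lintegral_indicator_one hA]
  have m1 : Measurable ((B \ E).indicator (1 : V → ℝ≥0∞)) :=
    measurable_one.indicator (hBm.diff hE)
  have m2 : Measurable ((E \ B).indicator (1 : V → ℝ≥0∞)) :=
    measurable_one.indicator (hE.diff hBm)
  have m3 : Measurable fun x => (E \ B).indicator (1 : V → ℝ≥0∞) (rfl' ν s x) := m2.comp hr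
  have h : 2 * (volume (B \ polS ν s E) +
      (∫⁻ x, (B \ E).indicator 1 x * (E \ B).indicator 1 (rfl' ν s x))) ≤ 2 * volume (B \ E) := by
    rw [mul_add, e _ (hBm.diff hP), e _ (hBm.diff hE), two_mul_lintegral (s := s) hν (by fun_prop)]
    have m4 : Measurable ((B \ polS ν s E).indicator (1 : V → ℝ≥0∞)) :=
      measurable_one.indicator (hBm.diff hP)
    have m5 : Measurable fun x => (B \ polS ν s E).indicator (1 : V → ℝ≥0∞) (rfl' ν s x) :=
      m4.comp hr
    rw [← lintegral_add_left (by fun_prop)]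
    apply lintegral_mono
    intro x
    have h1 : x ∈ polS ν s E ↔ (‖x‖ < ‖rfl' ν s x‖ ∧ (x ∈ E ∨ rfl' ν s x ∈ E)) ∨
      (‖rfl' ν s x‖ < ‖x‖ ∧ x ∈ E ∧ rfl' ν s x ∈ E) ∨ (‖x‖ = ‖rfl' ν s x‖ ∧ x ∈ E) := Iff.rfl
    have h2 : rfl' ν s x ∈ polS ν s E ↔
      (‖rfl' ν s x‖ < ‖x‖ ∧ (rfl' ν s x ∈ E ∨ x ∈ E)) ∨
      (‖x‖ < ‖rfl' ν s x‖ ∧ rfl' ν s x ∈ E ∧ x ∈ E) ∨ (‖rfl' ν s x‖ = ‖x‖ ∧ rfl' ν s x ∈ E) := by
      have : rfl' ν s x ∈ polS ν s E ↔ (‖rfl' ν s x‖ < ‖rfl' ν s (rfl' ν s x)‖ ∧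
          (rfl' ν s x ∈ E ∨ rfl' ν s (rfl' ν s x) ∈ E)) ∨
        (‖rfl' ν s (rfl' ν s x)‖ < ‖rfl' ν s x‖ ∧ rfl' ν s x ∈ E ∧ rfl' ν s (rfl' ν s x) ∈ E) ∨
        (‖rfl' ν s x‖ = ‖rfl' ν s (rfl' ν s x)‖ ∧ rfl' ν s x ∈ E) := Iff.rfl
      rwa [rfl_rfl hν] at this
    have c1 : x ∈ B ↔ ‖x‖ < R := mem_ball_zero_iff
    have c2 : rfl' ν s x ∈ B ↔ ‖rfl' ν s x‖ < R := mem_ball_zero_iff
    classical
    simp only [indicator_apply, Set.mem_sdiff, h1, h2, Pi.one_apply, c1, c2, rfl_rfl hν]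
    rcases lt_trichotomy ‖x‖ ‖rfl' ν s x‖ with h | h | h
    · have a1 := h.not_gt
      have a2 := h.ne
      have a3 := h.ne'
      by_cases d2 : ‖rfl' ν s x‖ < R
      · have d1 : ‖x‖ < R := h.trans d2
        by_cases b1 : x ∈ E <;> by_cases b2 : rfl' ν s x ∈ E <;>
          simp [h, a1, a2, a3, b1, b2, d1, d2]
      · by_cases d1 : ‖x‖ < R <;> by_cases b1 : x ∈ E <;> by_cases b2 : rfl' ν s x ∈ E <;>
          simp [h, a1, a2, a3, b1, b2, d1, d2]
    · by_cases d1 : ‖rfl' ν s x‖ < R <;> by_cases b1 : x ∈ E <;> by_cases b2 : rfl' ν s x ∈ E <;>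
        simp [h, b1, b2, d1]
    · have a1 := h.not_gt
      have a2 := h.ne
      have a3 := h.ne'
      by_cases d2 : ‖x‖ < R
      · have d1 : ‖rfl' ν s x‖ < R := h.trans d2
        by_cases b1 : x ∈ E <;> by_cases b2 : rfl' ν s x ∈ E <;>
          simp [h, a1, a2, a3, b1, b2, d1, d2]
      · by_cases d1 : ‖rfl' ν s x‖ < R <;> by_cases b1 : x ∈ E <;>
          by_cases b2 : rfl' ν s x ∈ E <;> simp [h, a1, a2, a3, b1, b2, d1, d2]
  exact (ENNReal.mul_le_mul_iff_right (by norm_num) (by norm_num)).1 h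

end pol

end Pool.Agent.K4H28.HP
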