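import Pool.Agent.K4H28.HP.Energy

set_option autoImplicit false
set_option linter.unusedSectionVars false

/-!
From the discrete energies to Riesz energies.
-/

open MeasureTheory Set Filter Topology Metric
open scoped ENNReal RealInnerProductSpace

namespace Pool.Agent.K4H28.HP

theorem lint_partition {h : ℝ} (hh : 0 < h) (F : ℝ → ℝ≥0∞) :
    ∫⁻ s in Ioi (0 : ℝ), F s = ∑' j : ℕ, ∫⁻ s in Ioc ((j : ℝ) * h) (((j : ℝ) + 1) * h), F s := by
  rw [← lintegral_iUnion (fun j => measurableSet_Ioc)]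
  · congr 1
    congr 1
    ext x
    simp only [mem_Ioi, mem_iUnion, mem_Ioc]
    constructor
    · intro hx
      have hxh : 0 < x / h := by positivity
      obtain ⟨k, hk⟩ : ∃ k, ⌈x / h⌉₊ = k + 1 :=
        ⟨⌈x / h⌉₊ - 1, (Nat.succ_pred_eq_of_pos (Nat.ceil_pos.2 hxh)).symm⟩
      refine ⟨k, ?_, ?_⟩
      · have h1 := Nat.ceil_lt_add_one hxh.le
        rw [hk] at h1
        push_cast at h1
        have h2 : (k : ℝ) < x / h := by linarith
        rwa [lt_div_iff₀ hh] at h2
      · have h1 := Nat.le_ceil (x / h)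
        rw [hk] at h1
        push_cast at h1
        rwa [div_le_iff₀ hh] at h1
    · rintro ⟨j, h1, _⟩
      have : 0 ≤ (j : ℝ) * h := by positivity
      linarith
  · have key : ∀ i j : ℕ, i < j →
        Disjoint (Ioc ((i : ℝ) * h) (((i : ℝ) + 1) * h)) (Ioc ((j : ℝ) * h) (((j : ℝ) + 1) * h)) := by
      intro i j hij
      rw [Set.disjoint_left]
      intro x h1 h2
      have h3 : ((i : ℝ) + 1) ≤ j := by exact_mod_cast hij
      have h4 : ((i : ℝ) + 1) * h ≤ j * h := by gcongr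
      linarith [h1.2, h2.1]
    intro i j hij
    rcases lt_or_gt_of_ne hij with h1 | h1
    · exact key i j h1
    · exact (key j i h1).symm

theorem lint_rpow {a b : ℝ} (ha : 0 ≤ a) (hab : a ≤ b) :
    ∫⁻ s in Ioc a b, ENNReal.ofReal (s ^ (-(1 / 2) : ℝ)) =
      ENNReal.ofReal (2 * (Real.sqrt b - Real.sqrt a)) := by
  have hi : IntegrableOn (fun s : ℝ => s ^ (-(1 / 2) : ℝ)) (Ioc a b) := by
    have := intervalIntegral.intervalIntegrable_rpow' (a := a) (b := b)
      (show (-1 : ℝ) < -(1 / 2) by norm_num)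
    rwa [intervalIntegrable_iff_integrableOn_Ioc_of_le hab] at this
  rw [← ofReal_integral_eq_lintegral_ofReal hi]
  · congr 1
    rw [← intervalIntegral.integral_of_le hab, integral_rpow (Or.inl (by norm_num))]
    rw [Real.sqrt_eq_rpow, Real.sqrt_eq_rpow]
    norm_num
    ring
  · filter_upwards [ae_restrict_mem measurableSet_Ioc] with s hs
    have : 0 ≤ s := ha.trans hs.1.le
    positivity

theorem cs_anti (j : ℕ) : cs (j + 1) ≤ cs j := by
  rw [cs_eq, cs_eq]
  apply one_div_le_one_div_of_le (by positivity)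
  push_cast
  have h1 : Real.sqrt (j : ℝ) ≤ Real.sqrt ((j : ℝ) + 1) := Real.sqrt_le_sqrt (by linarith)
  have h2 : Real.sqrt ((j : ℝ) + 1) ≤ Real.sqrt ((j : ℝ) + 1 + 1) :=
    Real.sqrt_le_sqrt (by linarith)
  linarith

theorem cell {h : ℝ} (hh : 0 < h) (j : ℕ) :
    ∫⁻ s in Ioc ((j : ℝ) * h) (((j : ℝ) + 1) * h), ENNReal.ofReal (s ^ (-(1 / 2) : ℝ)) =
      ENNReal.ofReal (2 * Real.sqrt h) * ENNReal.ofReal (cs j) := by
  rw [lint_rpow (by positivity) (by nlinarith), ← ENNReal.ofReal_mul (by positivity)]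
  congr 1
  rw [Real.sqrt_mul (by positivity), Real.sqrt_mul (by positivity)]
  unfold cs
  ring

/-- values of the energies at multiples of `h` -/
noncomputable def vals (h : ℝ) (φ0 : ℝ≥0∞) (φ : ℝ → ℝ≥0∞) : ℕ → ℝ≥0∞
  | 0 => φ0
  | j + 1 => φ ((j + 1 : ℕ) * h)

theorem riem_lower {h ε : ℝ} (hh : 0 < h) (hε : 0 ≤ ε) {φ0 : ℝ≥0∞} {φ : ℝ → ℝ≥0∞}
    (h0 : ∀ s, 0 < s → φ s ≤ φ0) (anti : ∀ s t, 0 < s → s ≤ t → φ t ≤ φ s) :
    ∫⁻ s in Ioi (0 : ℝ), ENNReal.ofReal (s ^ (-(1 / 2) : ℝ) * Real.exp (-(ε * s))) * φ s ≤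
      ENNReal.ofReal (2 * Real.sqrt h) *
        ∑' j, ENNReal.ofReal (cs j * (Real.exp (-(ε * h))) ^ j) * vals h φ0 φ j := by
  rw [lint_partition hh, ← ENNReal.tsum_mul_left]
  apply ENNReal.tsum_le_tsum
  intro j
  set q := Real.exp (-(ε * h)) with hq
  calc ∫⁻ s in Ioc ((j : ℝ) * h) (((j : ℝ) + 1) * h),
        ENNReal.ofReal (s ^ (-(1 / 2) : ℝ) * Real.exp (-(ε * s))) * φ s
      ≤ ∫⁻ s in Ioc ((j : ℝ) * h) (((j : ℝ) + 1) * h),
        ENNReal.ofReal (s ^ (-(1 / 2) : ℝ)) * (ENNReal.ofReal (q ^ j) * vals h φ0 φ j) := by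
        apply setLIntegral_mono' measurableSet_Ioc
        intro s hs
        have hjh : 0 ≤ (j : ℝ) * h := by positivity
        have hs0 : 0 < s := lt_of_le_of_lt hjh hs.1
        have e1 : Real.exp (-(ε * s)) ≤ q ^ j := by
          rw [hq, ← Real.exp_nat_mul]
          apply Real.exp_le_exp.2
          have := mul_le_mul_of_nonneg_left hs.1.le hε
          nlinarith
        have e2 : φ s ≤ vals h φ0 φ j := by
          cases j with
          | zero => exact h0 s hs0
          | succ j =>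
            refine anti _ s (by positivity) ?_
            exact_mod_cast hs.1.le
        have e3 : 0 ≤ s ^ (-(1 / 2) : ℝ) := by positivity
        rw [ENNReal.ofReal_mul e3, mul_assoc]
        gcongr
    _ = (∫⁻ s in Ioc ((j : ℝ) * h) (((j : ℝ) + 1) * h), ENNReal.ofReal (s ^ (-(1 / 2) : ℝ))) *
          (ENNReal.ofReal (q ^ j) * vals h φ0 φ j) := by
        rw [lintegral_mul_const]
        fun_prop
    _ = _ := by
        rw [cell hh, ENNReal.ofReal_mul (cs_pos j).le]
        ring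

theorem riem_upper {h q : ℝ} (hh : 0 < h) (hq0 : 0 ≤ q) (hq1 : q ≤ 1) {φ0 : ℝ≥0∞}
    {φ : ℝ → ℝ≥0∞} (anti : ∀ s t, 0 < s → s ≤ t → φ t ≤ φ s) :
    ENNReal.ofReal (2 * Real.sqrt h) * ∑' j, ENNReal.ofReal (cs j * q ^ j) * vals h φ0 φ j ≤
      ENNReal.ofReal (2 * Real.sqrt h) * φ0 +
        ∫⁻ s in Ioi (0 : ℝ), ENNReal.ofReal (s ^ (-(1 / 2) : ℝ)) * φ s := by
  rw [tsum_eq_zero_add' (f := fun j => ENNReal.ofReal (cs j * q ^ j) * vals h φ0 φ j)
    ENNReal.summable, mul_add]
  have e0 : ENNReal.ofReal (cs 0 * q ^ 0) * vals h φ0 φ 0 = φ0 := by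
    rw [cs_zero, pow_zero, mul_one, ENNReal.ofReal_one, one_mul]
    rfl
  rw [e0, lint_partition hh, ← ENNReal.tsum_mul_left]
  gcongr with j
  calc ENNReal.ofReal (2 * Real.sqrt h) *
        (ENNReal.ofReal (cs (j + 1) * q ^ (j + 1)) * vals h φ0 φ (j + 1))
      ≤ ENNReal.ofReal (2 * Real.sqrt h) * (ENNReal.ofReal (cs j) * vals h φ0 φ (j + 1)) := by
        gcongr
        calc cs (j + 1) * q ^ (j + 1) ≤ cs (j + 1) * 1 := by
              have := cs_pos (j + 1)
              gcongr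
              exact pow_le_one₀ hq0 hq1
          _ ≤ cs j := by rw [mul_one]; exact cs_anti j
    _ = (∫⁻ s in Ioc ((j : ℝ) * h) (((j : ℝ) + 1) * h), ENNReal.ofReal (s ^ (-(1 / 2) : ℝ))) *
          vals h φ0 φ (j + 1) := by rw [cell hh]; ring
    _ = ∫⁻ s in Ioc ((j : ℝ) * h) (((j : ℝ) + 1) * h),
          ENNReal.ofReal (s ^ (-(1 / 2) : ℝ)) * vals h φ0 φ (j + 1) := by
        rw [lintegral_mul_const]
        fun_prop
    _ ≤ _ := by
        apply setLIntegral_mono' measurableSet_Ioc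
        intro s hs
        have hjh : 0 ≤ (j : ℝ) * h := by positivity
        have hs0 : 0 < s := lt_of_le_of_lt hjh hs.1
        have : vals h φ0 φ (j + 1) ≤ φ s := by
          apply anti s _ hs0
          push_cast
          exact hs.2
        gcongr

variable {V : Type*} [NormedAddCommGroup V] [InnerProductSpace ℝ V] [FiniteDimensional ℝ V]
  [MeasurableSpace V] [BorelSpace V]

/-- the Riesz energy -/
noncomputable def ri (f : V → ℝ≥0∞) : ℝ≥0∞ := ∫⁻ x, f x * op rz f x

theorem energy_swap [Nontrivial V] (ε : ℝ) {f : V → ℝ≥0∞} (hf : Measurable f) :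
    ∫⁻ s in Ioi (0 : ℝ), ENNReal.ofReal (s ^ (-(1 / 2) : ℝ) * Real.exp (-(ε * s))) *
        (∫⁻ x, f x * op (gs s) f x) =
      ∫⁻ x, f x * ∫⁻ y, (kap (Module.finrank ℝ V) (ε * ‖x - y‖ ^ 2) * rz (x - y)) * f y := by
  set w : ℝ → ℝ≥0∞ := fun s => ENNReal.ofReal (s ^ (-(1 / 2) : ℝ) * Real.exp (-(ε * s))) with hw
  have hwm : Measurable w := by simp only [hw]; fun_prop
  have mg : Measurable fun z : ℝ × V => gs z.1 z.2 := measurable_gs
  have mg3 : Measurable fun z : (ℝ × V) × V => gs z.1.1 (z.1.2 - z.2) :=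
    mg.comp ((measurable_fst.comp measurable_fst).prodMk
      ((measurable_snd.comp measurable_fst).sub measurable_snd))
  have mop : Measurable fun z : ℝ × V => op (gs z.1) f z.2 := by
    unfold op
    have : Measurable fun z : (ℝ × V) × V => gs z.1.1 (z.1.2 - z.2) * f z.2 :=
      mg3.mul (hf.comp measurable_snd)
    exact this.lintegral_prod_right'
  calc ∫⁻ s in Ioi (0 : ℝ), w s * (∫⁻ x, f x * op (gs s) f x)
      = ∫⁻ s in Ioi (0 : ℝ), ∫⁻ x, w s * (f x * op (gs s) f x) := by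
        apply lintegral_congr
        intro s
        have : Measurable fun x => op (gs s) f x := measurable_op (measurable_gs' s) hf
        rw [lintegral_const_mul _ (by fun_prop)]
    _ = ∫⁻ x, ∫⁻ s in Ioi (0 : ℝ), w s * (f x * op (gs s) f x) := by
        have : Measurable fun z : ℝ × V => w z.1 * (f z.2 * op (gs z.1) f z.2) :=
          (hwm.comp measurable_fst).mul ((hf.comp measurable_snd).mul mop)
        exact lintegral_lintegral_swap this.aemeasurable
    _ = ∫⁻ x, f x * ∫⁻ y, (kap (Module.finrank ℝ V) (ε * ‖x - y‖ ^ 2) * rz (x - y)) * f y := by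
        apply lintegral_congr
        intro x
        have m1 : Measurable fun s : ℝ => op (gs s) f x :=
          mop.comp (measurable_id.prodMk measurable_const)
        have e1 : ∀ s, w s * (f x * op (gs s) f x) = f x * (w s * op (gs s) f x) :=
          fun s => by ring
        simp_rw [e1]
        rw [lintegral_const_mul _ (by fun_prop)]
        congr 1
        have m2 : Measurable fun z : ℝ × V => gs z.1 (x - z.2) :=
          mg.comp (measurable_fst.prodMk (measurable_const.sub measurable_snd))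
        calc ∫⁻ s in Ioi (0 : ℝ), w s * op (gs s) f x
            = ∫⁻ s in Ioi (0 : ℝ), ∫⁻ y, w s * (gs s (x - y) * f y) := by
              apply lintegral_congr
              intro s
              unfold op
              have : Measurable fun y : V => gs s (x - y) :=
                m2.comp (measurable_const.prodMk measurable_id)
              rw [lintegral_const_mul _ (by fun_prop)]
          _ = ∫⁻ y, ∫⁻ s in Ioi (0 : ℝ), w s * (gs s (x - y) * f y) := by
              have : Measurable fun z : ℝ × V => w z.1 * (gs z.1 (x - z.2) * f z.2) :=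
                (hwm.comp measurable_fst).mul (m2.mul (hf.comp measurable_snd))
              exact lintegral_lintegral_swap this.aemeasurable
          _ = _ := by
              have hne : ∀ᵐ y : V, y ≠ x := by
                rw [ae_iff]
                simp
              apply lintegral_congr_ae
              filter_upwards [hne] with y hy
              have e2 : ∀ s, w s * (gs s (x - y) * f y) = (w s * gs s (x - y)) * f y :=
                fun s => by ring
              simp_rw [e2]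
              have m3 : Measurable fun s : ℝ => gs s (x - y) :=
                mg.comp (measurable_id.prodMk measurable_const)
              rw [lintegral_mul_const _ (by fun_prop)]
              congr 1
              exact pk_eq (sub_ne_zero.2 hy.symm) ε

theorem ri_lower [Nontrivial V] {ε D : ℝ} (hε : 0 ≤ ε) {f : V → ℝ≥0∞} (hf : Measurable f)
    (hfD : ∀ x, x ∉ closedBall (0 : V) D → f x = 0) :
    kap (Module.finrank ℝ V) (ε * (2 * D) ^ 2) * ri f ≤
      ∫⁻ s in Ioi (0 : ℝ), ENNReal.ofReal (s ^ (-(1 / 2) : ℝ) * Real.exp (-(ε * s))) *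
        (∫⁻ x, f x * op (gs s) f x) := by
  rw [energy_swap ε hf]
  have mr : Measurable (rz : V → ℝ≥0∞) := measurable_rz
  have mo : Measurable (op rz f) := measurable_op mr hf
  unfold ri
  rw [← lintegral_const_mul _ (by fun_prop)]
  apply lintegral_mono
  intro x
  show kap (Module.finrank ℝ V) (ε * (2 * D) ^ 2) * (f x * op rz f x) ≤
    f x * ∫⁻ y, (kap (Module.finrank ℝ V) (ε * ‖x - y‖ ^ 2) * rz (x - y)) * f y
  by_cases hx : x ∈ closedBall (0 : V) D
  · unfold op
    rw [← mul_assoc, mul_comm _ (f x), mul_assoc, ← lintegral_const_mul _ (by fun_prop)]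
    refine mul_le_mul_right ?_ _
    apply lintegral_mono
    intro y
    show kap (Module.finrank ℝ V) (ε * (2 * D) ^ 2) * (rz (x - y) * f y) ≤
      kap (Module.finrank ℝ V) (ε * ‖x - y‖ ^ 2) * rz (x - y) * f y
    by_cases hy : y ∈ closedBall (0 : V) D
    · rw [mul_assoc]
      apply mul_le_mul_left
      apply kap_anti
      rw [mem_closedBall_zero_iff] at hx hy
      have h1 : ‖x - y‖ ≤ 2 * D := (norm_sub_le _ _).trans (by linarith)
      have h2 : ‖x - y‖ ^ 2 ≤ (2 * D) ^ 2 := by gcongr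
      gcongr
    · rw [hfD y hy]; simp
  · rw [hfD x hx]; simp

theorem ri_upper [Nontrivial V] {f : V → ℝ≥0∞} (hf : Measurable f) :
    ∫⁻ s in Ioi (0 : ℝ), ENNReal.ofReal (s ^ (-(1 / 2) : ℝ)) * (∫⁻ x, f x * op (gs s) f x) =
      kap (Module.finrank ℝ V) 0 * ri f := by
  have h := energy_swap (V := V) 0 hf
  simp only [zero_mul, neg_zero, Real.exp_zero, mul_one] at h
  rw [h]
  have mr : Measurable (rz : V → ℝ≥0∞) := measurable_rz
  have mo : Measurable (op rz f) := measurable_op mr hf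
  unfold ri
  rw [← lintegral_const_mul _ (by fun_prop)]
  apply lintegral_congr
  intro x
  have e : kap (Module.finrank ℝ V) 0 * (f x * op rz f x) =
      f x * (kap (Module.finrank ℝ V) 0 * op rz f x) := by ring
  rw [e]
  congr 1
  unfold op
  rw [← lintegral_const_mul _ (by fun_prop)]
  apply lintegral_congr
  intro y
  ring

theorem vals_eq (h : ℝ) (f : V → ℝ≥0∞) (j : ℕ) :
    vals h (∫⁻ x, f x * f x) (fun s => ∫⁻ x, f x * op (gs s) f x) j =
      ∫⁻ x, f x * EJ h j f x := by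
  cases j with
  | zero => rfl
  | succ j => rfl

/-- **Isoperimetric inequality for Riesz energies.** -/
theorem exists_density [Nontrivial V] (hn : 2 ≤ Module.finrank ℝ V) {R D : ℝ} (hR : 0 < R)
    {E : Set V} (hE : MeasurableSet E) (hED : E ⊆ closedBall 0 D)
    (hvol : volume E = volume (ball (0 : V) R)) {f : V → ℝ≥0∞} (hf : Measurable f)
    (hfB : ∀ x, x ∉ ball (0 : V) R → f x = 0) (hf1 : ∫⁻ x, f x = 1)
    (hf2 : ∫⁻ x, f x * f x ≠ ∞) {L : ℝ≥0∞} (hL : ri f < L) :
    ∃ ρ : V → ℝ≥0∞, Measurable ρ ∧ (∀ x, x ∉ E → ρ x = 0) ∧ ∫⁻ x, ρ x = 1 ∧ ri ρ ≤ L := by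
  set n := Module.finrank ℝ V with hndef
  obtain ⟨L', hL1, hL2⟩ := exists_between hL
  have hL't : L' ≠ ∞ := (hL2.trans_le le_top).ne
  have hL'0 : L' ≠ 0 := (zero_le.trans_lt hL1).ne'
  have k0 : kap n 0 ≠ 0 := (kap_pos n 0).ne'
  have kt : kap n 0 ≠ ∞ := (kap_lt_top hn le_rfl).ne
  have h1 : kap n 0 * ri f / L' < kap n 0 := by
    rw [ENNReal.div_lt_iff (Or.inl hL'0) (Or.inl hL't)]
    exact (ENNReal.mul_lt_mul_iff_right k0 kt).2 hL1
  obtain ⟨θ, hθ1, hθ2⟩ := exists_between h1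
  rw [ENNReal.div_lt_iff (Or.inl hL'0) (Or.inl hL't)] at hθ1
  obtain ⟨δ, hδ0, hδ⟩ := exists_kap n hθ2
  set ε := δ / ((2 * D) ^ 2 + 1) with hε
  have hε0 : 0 < ε := by positivity
  have hεD : ε * (2 * D) ^ 2 ≤ δ := by
    rw [hε, div_mul_eq_mul_div, div_le_iff₀ (by positivity)]
    nlinarith
  have hgap : θ * L' - kap n 0 * ri f ≠ 0 := (tsub_pos_of_lt hθ1).ne'
  obtain ⟨r, hr0, hr⟩ := ENNReal.exists_nnreal_pos_mul_lt hf2 hgap
  set h : ℝ := ((r : ℝ) / 2) ^ 2 with hh
  have hr0' : 0 < (r : ℝ) := by exact_mod_cast hr0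
  have hh0 : 0 < h := by positivity
  have hsq : 2 * Real.sqrt h = r := by
    rw [hh, Real.sqrt_sq (by positivity)]
    ring
  set q := Real.exp (-(ε * h)) with hq
  have hq0 : 0 < q := Real.exp_pos _
  have hq1 : q < 1 := by
    rw [hq, Real.exp_lt_one_iff]
    have : 0 < ε * h := by positivity
    linarith
  obtain ⟨a, ha0, ha, hid⟩ := exists_weights hq0 hq1
  set b : ℕ → ℝ≥0∞ := fun j => ENNReal.ofReal (cs j * q ^ j) with hb
  have hb0 : b 0 = 1 := by simp [hb, cs_zero]
  have hbt : ∑' j, b j ≠ ∞ := by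
    have h1 : ∑' j, b j ≤ ∑' j : ℕ, ENNReal.ofReal q ^ j := by
      apply ENNReal.tsum_le_tsum
      intro j
      rw [hb, ← ENNReal.ofReal_pow hq0.le]
      apply ENNReal.ofReal_le_ofReal
      calc cs j * q ^ j ≤ 1 * q ^ j := by
            have := cs_le_one j
            gcongr
        _ = _ := one_mul _
    rw [ENNReal.tsum_geometric] at h1
    refine (h1.trans_lt ?_).ne
    rw [ENNReal.inv_lt_top]
    apply tsub_pos_of_lt
    rw [← ENNReal.ofReal_one]
    exact (ENNReal.ofReal_lt_ofReal_iff one_pos).2 hq1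
  obtain ⟨ρ, hρm, hρE, hρ1, hρen⟩ := disc_compare hh0 ha ha0 hb0 hbt hid hR hE hED hvol hf hfB hf1
  refine ⟨ρ, hρm, hρE, hρ1, ?_⟩
  have lo := riem_lower (φ0 := ∫⁻ x, ρ x * ρ x) (φ := fun s => ∫⁻ x, ρ x * op (gs s) ρ x) hh0
    hε0.le (fun s hs => form_gs_le hs hρm) (fun s t hs hst => form_gs_anti hs hst hρm)
  have up := riem_upper (φ0 := ∫⁻ x, f x * f x) (φ := fun s => ∫⁻ x, f x * op (gs s) f x) hh0
    hq0.le hq1.le (fun s t hs hst => form_gs_anti hs hst hf)
  simp only [vals_eq] at lo up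
  rw [← en_eq_tsum h b hf hf, ri_upper hf] at up
  have lo2 := (ri_lower hε0.le hρm (fun x hx => hρE x (fun h' => hx (hED h')))).trans lo
  rw [← en_eq_tsum h b hρm hρm] at lo2
  have h2 : θ * ri ρ ≤ θ * L' := by
    calc θ * ri ρ ≤ kap n (ε * (2 * D) ^ 2) * ri ρ := by
          apply mul_le_mul_left
          exact hδ.le.trans (kap_anti n hεD)
      _ ≤ ENNReal.ofReal (2 * Real.sqrt h) * en h b ρ ρ := lo2
      _ ≤ ENNReal.ofReal (2 * Real.sqrt h) * en h b f f := by gcongr
      _ ≤ ENNReal.ofReal (2 * Real.sqrt h) * (∫⁻ x, f x * f x) + kap n 0 * ri f := up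
      _ = (r : ℝ≥0∞) * (∫⁻ x, f x * f x) + kap n 0 * ri f := by
          rw [hsq, ENNReal.ofReal_coe_nnreal]
      _ ≤ (θ * L' - kap n 0 * ri f) + kap n 0 * ri f := by gcongr
      _ = θ * L' := tsub_add_cancel_of_le hθ1.le
  have hθ0 : θ ≠ 0 := by
    rintro rfl
    simp at hθ1
  have hθt : θ ≠ ∞ := (hθ2.trans_le le_top).ne
  exact ((ENNReal.mul_le_mul_iff_right hθ0 hθt).1 h2).trans hL2.le

end Pool.Agent.K4H28.HP
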