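import Pool.Agent.K4H28.HP.Disk

set_option autoImplicit false
set_option linter.unusedSectionVars false

/-!
From codimension one to arbitrary dimensions.
-/

open MeasureTheory Set Filter Topology Metric Module
open scoped ENNReal RealInnerProductSpace

namespace Pool.Agent.K4H28.HP

variable {V : Type*} [NormedAddCommGroup V] [InnerProductSpace ℝ V] [FiniteDimensional ℝ V]

/-- orthogonal projection onto a subspace -/
noncomputable def prj (S : Submodule ℝ V) (x : V) : S := S.orthogonalProjectionOnto x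

theorem coe_prj (S : Submodule ℝ V) (x : V) : ((prj S x : S) : V) = S.starProjection x := rfl

theorem prj_eq {S : Submodule ℝ V} {x : V} {y : S} (h : ∀ w ∈ S, ⟪x - y, w⟫ = 0) :
    prj S x = y :=
  Subtype.ext (Submodule.eq_starProjection_of_mem_of_inner_eq_zero y.2 h)

theorem inner_sub_prj (S : Submodule ℝ V) (x w : V) (hw : w ∈ S) : ⟪x - prj S x, w⟫ = 0 :=
  Submodule.starProjection_inner_eq_zero x w hw

theorem continuous_prj (S : Submodule ℝ V) : Continuous (prj S) :=
  S.orthogonalProjectionOnto.continuous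

theorem prj_prj {S S' : Submodule ℝ V} (hle : S ≤ S') (x : V) : prj S (prj S' x : V) = prj S x := by
  apply prj_eq
  intro w hw
  have h1 := inner_sub_prj S x w hw
  have h2 := inner_sub_prj S' x w (hle hw)
  have : (prj S' x : V) - prj S x = (x - prj S x) - (x - prj S' x) := by abel
  rw [this, inner_sub_left, h1, h2, sub_zero]

/-- extension of rotations -/
theorem exists_ext (S : Submodule ℝ V) (h : OG S) :
    ∃ g : OG V, ∀ x, prj S (ap g⁻¹ x) = ap h⁻¹ (prj S x) := by
  let H : S ≃ₗᵢ[ℝ] S := Unitary.linearIsometryEquiv h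
  let L : S →ₗᵢ[ℝ] V := S.subtypeₗᵢ.comp H.toLinearIsometry
  let M : V →ₗᵢ[ℝ] V := L.extend
  have hM : ∀ s : S, M s = ((ap h s : S) : V) := fun s => L.extend_apply s
  let G : V ≃ₗᵢ[ℝ] V := M.toLinearIsometryEquiv rfl
  let g : OG V := Unitary.linearIsometryEquiv.symm G
  have hg : ∀ x, ap g x = M x := by
    intro x
    unfold ap
    rw [Unitary.coe_symm_linearIsometryEquiv_apply]
    rfl
  have key : ∀ z, prj S (ap g z) = ap h (prj S z) := by
    intro z
    apply prj_eq
    intro w hw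
    have hw' : w = M ((ap h⁻¹ (⟨w, hw⟩ : S) : S) : V) := by
      rw [hM, ap_ap_inv]
    rw [hg, ← hM, ← map_sub, hw', LinearIsometry.inner_map_map]
    exact inner_sub_prj S z _ (ap h⁻¹ (⟨w, hw⟩ : S) : S).2
  refine ⟨g, fun x => ?_⟩
  have h1 := key (ap g⁻¹ x)
  rw [ap_ap_inv] at h1
  rw [h1, ap_inv_ap]

/-- orthogonal decomposition of a subspace -/
theorem exists_dec {S S' : Submodule ℝ V} (hle : S ≤ S') (hd : finrank ℝ S' = finrank ℝ S + 1) :
    ∃ Ψ : WithLp 2 (S × ℝ) ≃ₗᵢ[ℝ] S', ∀ x, pr Ψ (prj S' x) = prj S x := by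
  have h1 : finrank ℝ (Sᗮ ⊓ S' : Submodule ℝ V) = 1 := by
    have := Submodule.finrank_add_inf_finrank_orthogonal hle
    omega
  have h2 : (Sᗮ ⊓ S' : Submodule ℝ V) ≠ ⊥ := by
    intro h
    rw [h, finrank_bot] at h1
    exact zero_ne_one h1
  obtain ⟨v, hv, hv0⟩ := Submodule.exists_mem_ne_zero_of_ne_bot h2
  have hvn : ‖v‖ ≠ 0 := norm_ne_zero_iff.2 hv0
  set e : V := ‖v‖⁻¹ • v with he
  have he1 : ‖e‖ = 1 := by rw [he, norm_smul, norm_inv, norm_norm, inv_mul_cancel₀ hvn]
  have heS' : e ∈ S' := S'.smul_mem _ hv.2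
  have heS : ∀ w ∈ S, ⟪e, w⟫ = 0 := by
    intro w hw
    rw [he, inner_smul_left]
    have := (Submodule.mem_orthogonal' S v).1 hv.1 w hw
    rw [this, mul_zero]
  let Φ : WithLp 2 (S × ℝ) →ₗᵢ[ℝ] S' :=
    { toFun := fun z => ⟨(z.fst : V) + z.snd • e, S'.add_mem (hle z.fst.2) (S'.smul_mem _ heS')⟩
      map_add' := by
        intro z w
        apply Subtype.ext
        simp only [WithLp.add_fst, WithLp.add_snd, Submodule.coe_add, add_smul]
        abel
      map_smul' := by
        intro c z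
        apply Subtype.ext
        simp only [WithLp.smul_fst, WithLp.smul_snd, Submodule.coe_smul, smul_add, smul_smul,
          RingHom.id_apply, smul_eq_mul]
      norm_map' := by
        intro z
        have h3 : ‖(z.fst : V) + z.snd • e‖ ^ 2 = ‖z‖ ^ 2 := by
          rw [norm_add_sq_real, inner_smul_right, real_inner_comm, heS _ z.fst.2,
            WithLp.prod_norm_sq_eq_of_L2, norm_smul, he1]
          simp
        exact (sq_eq_sq₀ (norm_nonneg _) (norm_nonneg _)).1 h3 }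
  have hfr : finrank ℝ (WithLp 2 (S × ℝ)) = finrank ℝ S' := by
    rw [hd, (WithLp.linearEquiv 2 ℝ (S × ℝ)).finrank_eq, finrank_prod, finrank_self]
  let Ψ := Φ.toLinearIsometryEquiv hfr
  refine ⟨Ψ, fun x => ?_⟩
  rw [← prj_prj hle]
  set w : S' := prj S' x with hw
  have h4 : ((Ψ.symm w).fst : V) + (Ψ.symm w).snd • e = w := by
    have h5 : Φ (Ψ.symm w) = w := Ψ.apply_symm_apply w
    exact congrArg Subtype.val h5
  symm
  show prj S (w : V) = (Ψ.symm w).fst
  apply prj_eq
  intro u hu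
  rw [← h4, add_sub_cancel_left, inner_smul_left, heS u hu, mul_zero]

variable [MeasurableSpace V] [BorelSpace V]
variable {U : Type*} [NormedAddCommGroup U] [InnerProductSpace ℝ U] [FiniteDimensional ℝ U]
  [MeasurableSpace U] [BorelSpace U]

/-- semicontinuity of the volume of compact images -/
theorem measurable_vol_image {X : Type*} [TopologicalSpace X] [MeasurableSpace X] [BorelSpace X]
    {E : Set V} (hE : IsCompact E) {Φ : X × V → U} (hΦ : Continuous Φ) :
    Measurable fun x => volume ((fun z => Φ (x, z)) '' E) := by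
  apply measurable_of_Iio
  intro c
  apply IsOpen.measurableSet
  rw [isOpen_iff_mem_nhds]
  intro x hx
  have hx' : volume ((fun z => Φ (x, z)) '' E) < c := hx
  obtain ⟨O, hO1, hO2, hO3⟩ := Set.exists_isOpen_lt_of_lt _ _ hx'
  have h1 : ∀ᶠ x' in 𝓝 x, ∀ z ∈ E, Φ (x', z) ∈ O := by
    apply hE.eventually_forall_of_forall_eventually
    intro z hz
    have h2 : O ∈ 𝓝 (Φ (x, z)) := hO2.mem_nhds (hO1 ⟨z, hz, rfl⟩)
    exact hΦ.continuousAt h2
  filter_upwards [h1] with x' hx'
  show volume ((fun z => Φ (x', z)) '' E) < c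
  refine lt_of_le_of_lt (measure_mono ?_) hO3
  rintro _ ⟨z, hz, rfl⟩
  exact hx' z hz

theorem vol_image_isom (Θ : V ≃ₗᵢ[ℝ] U) (A : Set V) : volume (Θ '' A) = volume A := by
  have h1 : Θ '' A = Θ.symm ⁻¹' A := Θ.toEquiv.image_eq_preimage_symm A
  rw [h1]
  have h2 : MeasurePreserving Θ.symm := LinearIsometryEquiv.measurePreserving Θ.symm
  exact h2.measure_preimage_emb Θ.symm.toHomeomorph.measurableEmbedding A

/-- Jensen's inequality for powers at most one -/
theorem jensen {X : Type*} [MeasurableSpace X] (μ : Measure X) [IsProbabilityMeasure μ]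
    {f : X → ℝ≥0∞} (hf : Measurable f) {p : ℝ} (hp0 : 0 < p) (hp1 : p < 1) :
    ∫⁻ x, f x ^ p ∂μ ≤ (∫⁻ x, f x ∂μ) ^ p := by
  have hP : 1 < 1 / p := by rw [lt_div_iff₀ hp0]; linarith
  have hpq : (1 / p).HolderConjugate ((1 / p).conjExponent) := Real.HolderConjugate.conjExponent hP
  have h := ENNReal.lintegral_mul_le_Lp_mul_Lq μ hpq (f := fun x => f x ^ p) (g := fun _ => 1)
    (hf.pow_const p).aemeasurable aemeasurable_const
  simp only [Pi.mul_apply, mul_one, ENNReal.one_rpow, lintegral_const, measure_univ,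
    ← ENNReal.rpow_mul, one_div, mul_inv_cancel₀ hp0.ne', ENNReal.rpow_one, inv_inv] at h
  exact h

/-- volume of balls depends only on the dimension -/
noncomputable def om (k : ℕ) : ℝ≥0∞ := ENNReal.ofReal (√Real.pi ^ k / Real.Gamma (k / 2 + 1))

theorem om_ne_top (k : ℕ) : om k ≠ ∞ := ENNReal.ofReal_ne_top

theorem om_ne_zero (k : ℕ) : om k ≠ 0 := by
  unfold om
  apply (ENNReal.ofReal_pos.2 _).ne'
  have : 0 < Real.Gamma ((k : ℝ) / 2 + 1) := Real.Gamma_pos_of_pos (by positivity)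
  positivity

theorem vol_ball [Nontrivial V] (R : ℝ) :
    volume (ball (0 : V) R) = ENNReal.ofReal R ^ finrank ℝ V * om (finrank ℝ V) :=
  InnerProductSpace.volume_ball 0 R

/-- pointwise codimension one inequality in power form -/
theorem codim_one_pow (Ψ : WithLp 2 (U × ℝ) ≃ₗᵢ[ℝ] V) {j : ℕ} (hj : 1 ≤ j)
    (hU : finrank ℝ U = j) (hV : finrank ℝ V = j + 1) {F : Set V} (hF : IsCompact F) :
    ∫⁻ h, (volume ((fun x => pr Ψ (ap h⁻¹ x)) '' F))⁻¹ ∂(rot V) ≤
      (om j)⁻¹ * (om (j + 1) * (volume F)⁻¹) ^ ((j : ℝ) / (j + 1)) := by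
  have hU' : Nontrivial U := Module.nontrivial_of_finrank_pos (R := ℝ) (by omega)
  have hV' : Nontrivial V := Module.nontrivial_of_finrank_pos (R := ℝ) (by omega)
  have hj0 : (0 : ℝ) < j := by exact_mod_cast hj
  set p : ℝ := (j : ℝ) / (j + 1) with hp
  have hp0 : 0 < p := by positivity
  by_cases hv0 : volume F = 0
  · rw [hv0, ENNReal.inv_zero, ENNReal.mul_top (om_ne_zero _), ENNReal.top_rpow_of_pos hp0,
      ENNReal.mul_top (ENNReal.inv_ne_zero.2 (om_ne_top _))]
    exact le_top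
  have hvt : volume F ≠ ∞ := hF.measure_lt_top.ne
  -- the radius
  set t : ℝ := ((volume F / om (j + 1)) ^ (1 / ((j : ℝ) + 1))).toReal with ht
  have hq0 : volume F / om (j + 1) ≠ 0 := (ENNReal.div_pos hv0 (om_ne_top _)).ne'
  have hqt : volume F / om (j + 1) ≠ ∞ := ENNReal.div_ne_top hvt (om_ne_zero _)
  have hrt : (volume F / om (j + 1)) ^ (1 / ((j : ℝ) + 1)) ≠ ∞ :=
    ENNReal.rpow_ne_top_of_nonneg (by positivity) hqt
  have hr0 : (volume F / om (j + 1)) ^ (1 / ((j : ℝ) + 1)) ≠ 0 := by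
    apply ne_of_gt
    exact ENNReal.rpow_pos (ENNReal.div_pos hv0 (om_ne_top _)) hqt
  have hot : ENNReal.ofReal t = (volume F / om (j + 1)) ^ (1 / ((j : ℝ) + 1)) :=
    ENNReal.ofReal_toReal hrt
  have ht0 : 0 < t := ENNReal.toReal_pos hr0 hrt
  have hpow : ∀ m : ℕ, ENNReal.ofReal t ^ m = (volume F / om (j + 1)) ^ ((m : ℝ) / ((j : ℝ) + 1)) := by
    intro m
    rw [hot, ← ENNReal.rpow_natCast, ← ENNReal.rpow_mul]
    congr 1
    ring
  have hvol : volume F = volume (ball (0 : V) t) := by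
    rw [vol_ball, hV, hpow]
    have : (((j + 1 : ℕ) : ℝ) / ((j : ℝ) + 1)) = 1 := by
      push_cast
      field_simp
    rw [this, ENNReal.rpow_one, ENNReal.div_mul_cancel (om_ne_zero _) (om_ne_top _)]
  have h1 := codim_one Ψ (by omega) ht0 hF hvol
  refine h1.trans (le_of_eq ?_)
  rw [vol_ball, hU, hpow, ENNReal.mul_inv (Or.inr (om_ne_top _)) (Or.inr (om_ne_zero _)), mul_comm,
    ← ENNReal.inv_rpow, ENNReal.inv_div (Or.inl (om_ne_top _)) (Or.inl (om_ne_zero _)),
    ENNReal.div_eq_inv_mul, mul_comm (volume F)⁻¹]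

end Pool.Agent.K4H28.HP
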