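import Pool.Agent.K4H28.HP.Riem

set_option autoImplicit false
set_option linter.unusedSectionVars false

/-!
The codimension one case: averages of reciprocals of shadows and Riesz energies.
-/

open MeasureTheory Set Filter Topology Metric
open scoped ENNReal RealInnerProductSpace

namespace Pool.Agent.K4H28.HP

variable {U : Type*} [NormedAddCommGroup U] [InnerProductSpace ℝ U] [FiniteDimensional ℝ U]
  [MeasurableSpace U] [BorelSpace U]
variable {W : Type*} [NormedAddCommGroup W] [InnerProductSpace ℝ W] [FiniteDimensional ℝ W]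
  [MeasurableSpace W] [BorelSpace W]

/-- the point with coordinates `(y, s)` -/
noncomputable def pt (Ψ : WithLp 2 (U × ℝ) ≃ₗᵢ[ℝ] W) (y : U) (s : ℝ) : W :=
  Ψ (WithLp.toLp 2 (y, s))

/-- projection to the first coordinate -/
noncomputable def pr (Ψ : WithLp 2 (U × ℝ) ≃ₗᵢ[ℝ] W) (x : W) : U := (Ψ.symm x).fst

section dec

variable (Ψ : WithLp 2 (U × ℝ) ≃ₗᵢ[ℝ] W)

omit [MeasurableSpace U] [BorelSpace U] [MeasurableSpace W] [BorelSpace W] in
theorem pr_pt (y : U) (s : ℝ) : pr Ψ (pt Ψ y s) = y := by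
  unfold pr pt
  simp

omit [MeasurableSpace U] [BorelSpace U] [MeasurableSpace W] [BorelSpace W] in
theorem pt_add (y : U) (s r : ℝ) : pt Ψ y (s + r) = pt Ψ y s + r • pt Ψ 0 1 := by
  unfold pt
  rw [← map_smul, ← map_add]
  congr 1
  rw [← WithLp.toLp_smul, ← WithLp.toLp_add]
  simp

omit [MeasurableSpace U] [BorelSpace U] [MeasurableSpace W] [BorelSpace W] in
theorem norm_pt_sq (y : U) (s : ℝ) : ‖pt Ψ y s‖ ^ 2 = ‖y‖ ^ 2 + s ^ 2 := by
  unfold pt
  rw [LinearIsometryEquiv.norm_map, WithLp.prod_norm_sq_eq_of_L2]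
  simp

omit [MeasurableSpace U] [BorelSpace U] [MeasurableSpace W] [BorelSpace W] in
theorem norm_pt_one : ‖pt Ψ 0 1‖ = 1 := by
  have h := norm_pt_sq Ψ (0 : U) 1
  rw [norm_zero] at h
  have h2 : ‖pt Ψ (0 : U) 1‖ ^ 2 = 1 ^ 2 := by rw [h]; norm_num
  exact (sq_eq_sq₀ (norm_nonneg _) zero_le_one).1 h2

theorem pt_mp : MeasurePreserving (fun z : U × ℝ => pt Ψ z.1 z.2) := by
  have h1 := WithLp.volume_preserving_toLp U ℝ
  exact (LinearIsometryEquiv.measurePreserving Ψ).comp h1

theorem measurable_pt : Measurable fun z : U × ℝ => pt Ψ z.1 z.2 := (pt_mp Ψ).measurable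

theorem continuous_pr : Continuous (pr Ψ) := by
  unfold pr
  exact (WithLp.continuous_fst 2 U ℝ).comp Ψ.symm.continuous

/-- the X-ray of a density after rotation -/
noncomputable def xr (h : OG W) (ρ : W → ℝ≥0∞) (y : U) : ℝ≥0∞ := ∫⁻ s : ℝ, ρ (ap h (pt Ψ y s))

theorem measurable_xr (h : OG W) {ρ : W → ℝ≥0∞} (hρ : Measurable ρ) :
    Measurable (xr Ψ h ρ) := by
  unfold xr
  have : Measurable fun z : U × ℝ => ρ (ap h (pt Ψ z.1 z.2)) :=
    hρ.comp ((measurable_ap h).comp (measurable_pt Ψ))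
  exact this.lintegral_prod_right'

theorem lintegral_xr (h : OG W) {ρ : W → ℝ≥0∞} (hρ : Measurable ρ) :
    ∫⁻ y, xr Ψ h ρ y = ∫⁻ x, ρ x := by
  unfold xr
  have hm : Measurable fun x : W => ρ (ap h x) := hρ.comp (measurable_ap h)
  have hm2 : Measurable fun z : U × ℝ => ρ (ap h (pt Ψ z.1 z.2)) := hm.comp (measurable_pt Ψ)
  rw [← (ap_mp h).lintegral_comp hρ, ← (pt_mp Ψ).lintegral_comp hm, Measure.volume_eq_prod,
    lintegral_prod _ hm2.aemeasurable]

theorem lintegral_xr_sq (h : OG W) {ρ : W → ℝ≥0∞} (hρ : Measurable ρ) :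
    ∫⁻ y, xr Ψ h ρ y * xr Ψ h ρ y =
      ∫⁻ x, ρ x * ∫⁻ r : ℝ, ρ (x + r • ap h (pt Ψ 0 1)) := by
  set e := pt Ψ (0 : U) 1 with he
  have mF : Measurable fun x : W => ρ x * ∫⁻ r : ℝ, ρ (x + r • ap h e) := by
    refine hρ.mul ?_
    have : Measurable fun z : W × ℝ => ρ (z.1 + z.2 • ap h e) := by
      refine hρ.comp ?_
      exact measurable_fst.add (measurable_snd.smul_const _)
    exact this.lintegral_prod_right'
  have mF2 : Measurable fun x : W => ρ (ap h x) * ∫⁻ r : ℝ, ρ (ap h x + r • ap h e) :=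
    mF.comp (measurable_ap h)
  have mF3 : Measurable fun z : U × ℝ => ρ (ap h (pt Ψ z.1 z.2)) *
      ∫⁻ r : ℝ, ρ (ap h (pt Ψ z.1 z.2) + r • ap h e) := mF2.comp (measurable_pt Ψ)
  rw [← (ap_mp h).lintegral_comp mF, ← (pt_mp Ψ).lintegral_comp mF2, Measure.volume_eq_prod,
    lintegral_prod _ mF3.aemeasurable]
  apply lintegral_congr
  intro y
  have m1 : Measurable fun s : ℝ => ρ (ap h (pt Ψ y s)) :=
    hρ.comp ((measurable_ap h).comp ((measurable_pt Ψ).comp (measurable_const.prodMk measurable_id)))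
  calc xr Ψ h ρ y * xr Ψ h ρ y = ∫⁻ s : ℝ, ρ (ap h (pt Ψ y s)) * xr Ψ h ρ y := by
        conv_lhs => enter [1]; unfold xr
        rw [lintegral_mul_const _ m1]
    _ = _ := by
        apply lintegral_congr
        intro s
        show ρ (ap h (pt Ψ y s)) * xr Ψ h ρ y =
          ρ (ap h (pt Ψ y s)) * ∫⁻ r : ℝ, ρ (ap h (pt Ψ y s) + r • ap h e)
        congr 1
        unfold xr
        rw [← lintegral_add_left_eq_self (fun r : ℝ => ρ (ap h (pt Ψ y r))) s]
        apply lintegral_congr
        intro r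
        rw [pt_add, ap_add, ap_smul]

theorem rz_neg (z : W) : rz (-z) = rz z := by unfold rz; rw [norm_neg]

/-- averaged X-ray energy is the Riesz energy -/
theorem avg_xr_sq {ρ : W → ℝ≥0∞} (hρ : Measurable ρ) :
    (volume : Measure W).toSphere univ *
      ∫⁻ h, (∫⁻ y, xr Ψ h ρ y * xr Ψ h ρ y) ∂(rot W) = 2 * ri ρ := by
  set e := pt Ψ (0 : U) 1 with he
  have he1 : ‖e‖ = 1 := norm_pt_one Ψ
  have hj : Measurable fun z : OG W × W => ρ z.2 * ∫⁻ r : ℝ, ρ (z.2 + r • ap z.1 e) := by
    refine (hρ.comp measurable_snd).mul ?_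
    have h5 : Measurable fun z : (OG W × W) × ℝ => ρ (z.1.2 + z.2 • ap z.1.1 e) := by
      refine hρ.comp ?_
      have : Continuous fun z : (OG W × W) × ℝ => z.1.2 + z.2 • ap z.1.1 e := by
        refine (continuous_snd.comp continuous_fst).add (continuous_snd.smul ?_)
        exact ap_continuous.comp ((continuous_fst.comp continuous_fst).prodMk continuous_const)
      exact this.measurable
    exact h5.lintegral_prod_right'
  simp_rw [lintegral_xr_sq Ψ _ hρ]
  rw [lintegral_lintegral_swap hj.aemeasurable, ← lintegral_const_mul _ (by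
    exact hj.lintegral_prod_left')]
  unfold ri
  have mr : Measurable (rz : W → ℝ≥0∞) := measurable_rz
  have mo : Measurable (op rz ρ) := measurable_op mr hρ
  rw [← lintegral_const_mul _ (by fun_prop)]
  apply lintegral_congr
  intro x
  have hj5 : Measurable fun g : OG W => ∫⁻ r : ℝ, ρ (x + r • ap g e) := by
    have h5 : Measurable fun z : OG W × ℝ => ρ (x + z.2 • ap z.1 e) := by
      refine hρ.comp ?_
      have : Continuous fun z : OG W × ℝ => x + z.2 • ap z.1 e := by
        refine continuous_const.add (continuous_snd.smul ?_)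
        exact ap_continuous.comp (continuous_fst.prodMk continuous_const)
      exact this.measurable
    exact h5.lintegral_prod_right'
  rw [lintegral_const_mul _ hj5]
  have hF : Measurable fun z : W => ρ (x + z) := hρ.comp (measurable_const.add measurable_id)
  have h6 := polar_formula he1 hF
  have h7 : ∫⁻ z, ρ (x + z) * rz z = op rz ρ x := by
    unfold op
    rw [← lintegral_add_left_eq_self (fun y => rz (x - y) * ρ y) x]
    apply lintegral_congr
    intro z
    have : x - (x + z) = -z := by abel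
    rw [this, rz_neg, mul_comm]
  rw [h7] at h6
  rw [mul_left_comm, h6]
  ring

/-- reciprocal of a shadow and the X-ray energy -/
theorem inv_shadow_le (h : OG W) {ρ : W → ℝ≥0∞} (hρ : Measurable ρ) {E : Set W}
    (hE : IsCompact E) (hρE : ∀ x, x ∉ E → ρ x = 0) (hρ1 : ∫⁻ x, ρ x = 1) :
    (volume ((fun x => pr Ψ (ap h⁻¹ x)) '' E))⁻¹ ≤ ∫⁻ y, xr Ψ h ρ y * xr Ψ h ρ y := by
  set F := (fun x => pr Ψ (ap h⁻¹ x)) '' E with hF
  have hc : Continuous fun x => pr Ψ (ap h⁻¹ x) :=
    (continuous_pr Ψ).comp (ap_continuous.comp (continuous_const.prodMk continuous_id))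
  have hFc : IsCompact F := hE.image hc
  have hFm : MeasurableSet F := hFc.measurableSet
  have hx := measurable_xr Ψ h hρ
  have h0 : ∀ y, y ∉ F → xr Ψ h ρ y = 0 := by
    intro y hy
    unfold xr
    rw [← lintegral_zero (μ := (volume : Measure ℝ))]
    apply lintegral_congr
    intro s
    apply hρE
    intro hmem
    apply hy
    refine ⟨_, hmem, ?_⟩
    show pr Ψ (ap h⁻¹ (ap h (pt Ψ y s))) = y
    rw [ap_inv_ap, pr_pt]
  have h1 : ∫⁻ y, xr Ψ h ρ y = 1 := by rw [lintegral_xr Ψ h hρ, hρ1]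
  by_cases hv0 : volume F = 0
  · exfalso
    have h2 : ∫⁻ y, xr Ψ h ρ y = 0 := by
      have : xr Ψ h ρ =ᵐ[volume] fun _ => 0 := by
        have h3 : ∀ᵐ y, y ∉ F := by
          rw [ae_iff]
          simpa using hv0
        filter_upwards [h3] with y hy
        exact h0 y hy
      rw [lintegral_congr_ae this, lintegral_zero]
    rw [h1] at h2
    exact one_ne_zero h2
  have hvt : volume F ≠ ∞ := hFc.measure_lt_top.ne
  set v := volume F with hv
  have h2 : 2 * v⁻¹ ≤ (∫⁻ y, xr Ψ h ρ y * xr Ψ h ρ y) + v⁻¹ := by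
    calc 2 * v⁻¹ = ∫⁻ y, 2 * (xr Ψ h ρ y * F.indicator (fun _ => v⁻¹) y) := by
          have hind : Measurable (F.indicator fun _ : U => v⁻¹) := measurable_const.indicator hFm
          rw [lintegral_const_mul _ (by fun_prop)]
          congr 1
          have : ∀ y, xr Ψ h ρ y * F.indicator (fun _ => v⁻¹) y = xr Ψ h ρ y * v⁻¹ := by
            intro y
            by_cases hy : y ∈ F
            · rw [indicator_of_mem hy]
            · rw [h0 y hy, zero_mul, zero_mul]
          show v⁻¹ = ∫⁻ y, xr Ψ h ρ y * F.indicator (fun _ => v⁻¹) y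
          simp_rw [this]
          rw [lintegral_mul_const _ hx, h1, one_mul]
      _ ≤ ∫⁻ y, (xr Ψ h ρ y * xr Ψ h ρ y +
            F.indicator (fun _ => v⁻¹) y * F.indicator (fun _ => v⁻¹) y) := by
          apply lintegral_mono
          intro y
          exact two_mul_le_sq _ _
      _ = (∫⁻ y, xr Ψ h ρ y * xr Ψ h ρ y) + v⁻¹ := by
          rw [lintegral_add_left (by fun_prop)]
          congr 1
          have : ∀ y, F.indicator (fun _ => v⁻¹) y * F.indicator (fun _ => v⁻¹) y =
              F.indicator (fun _ => v⁻¹ * v⁻¹) y := by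
            intro y
            by_cases hy : y ∈ F
            · simp only [indicator_of_mem hy]
            · simp only [indicator_of_notMem hy, mul_zero]
          simp_rw [this]
          rw [lintegral_indicator_const hFm, mul_assoc, ENNReal.inv_mul_cancel hv0 hvt, mul_one]
  rw [two_mul] at h2
  exact (ENNReal.add_le_add_iff_right (ENNReal.inv_ne_top.2 hv0)).1 h2

end dec

end Pool.Agent.K4H28.HP
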